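import Pool.Agent.Work.MP_bf99ce_sf.Interface

/-! # Block ACT (helper54) -/

set_option autoImplicit false

open AlgebraicGeometry CategoryTheory

noncomputable section

namespace Pool.SF

theorem p_ACT : Stmt_ACT := by
  intro B _
  refine ⟨?_, ?_, ?_, ?_⟩
  · intro d d' d'' q g h x
    funext a
    have h1 : ∀ e : Fin q → Fin d'', (∏ i, (g * h) (a i) (e i)) =
        ∑ c : Fin q → Fin d', ∏ i, (g (a i) (c i) * h (c i) (e i)) := by
      intro e
      have h2 := Finset.prod_univ_sum (fun _ : Fin q => (Finset.univ : Finset (Fin d')))
        (fun i j => g (a i) j * h j (e i))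
      rw [Fintype.piFinset_univ] at h2
      rw [← h2]
      rfl
    calc act g (act h x) a
        = ∑ c : Fin q → Fin d', ∑ e : Fin q → Fin d'',
            (∏ i, g (a i) (c i)) * ((∏ i, h (c i) (e i)) * x e) := by
          unfold act
          exact Finset.sum_congr rfl fun c _ => Finset.mul_sum _ _ _
      _ = ∑ e : Fin q → Fin d'', ∑ c : Fin q → Fin d',
            (∏ i, g (a i) (c i)) * ((∏ i, h (c i) (e i)) * x e) := Finset.sum_comm
      _ = act (g * h) x a := by
          unfold act
          refine Finset.sum_congr rfl fun e _ => ?_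
          rw [h1, Finset.sum_mul]
          refine Finset.sum_congr rfl fun c _ => ?_
          rw [Finset.prod_mul_distrib, mul_assoc]
  · intro d q x
    funext a
    unfold act
    rw [Finset.sum_eq_single a]
    · have h1 : ∏ i, (1 : Matrix (Fin d) (Fin d) B) (a i) (a i) = 1 :=
        Finset.prod_eq_one fun i _ => Matrix.one_apply_eq _
      rw [h1, one_mul]
    · intro c _ hc
      obtain ⟨i, hi⟩ : ∃ i, a i ≠ c i := by
        by_contra h
        push Not at h
        exact hc (funext fun i => (h i).symm)
      have h1 : ∏ i, (1 : Matrix (Fin d) (Fin d) B) (a i) (c i) = 0 :=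
        Finset.prod_eq_zero (f := fun i => (1 : Matrix (Fin d) (Fin d) B) (a i) (c i))
          (Finset.mem_univ i) (Matrix.one_apply_ne hi)
      rw [h1, zero_mul]
    · intro h
      exact absurd (Finset.mem_univ _) h
  · intro d d' q g x hx
    refine ⟨?_, ?_⟩
    · intro a i j hij haij
      have ha : ∀ l, a (Equiv.swap i j l) = a l := by
        intro l
        rcases eq_or_ne l i with rfl | h1
        · rw [Equiv.swap_apply_left, haij]
        · rcases eq_or_ne l j with rfl | h2
          · rw [Equiv.swap_apply_right, haij]
          · rw [Equiv.swap_apply_of_ne_of_ne h1 h2]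
      unfold act
      refine Finset.sum_involution (fun c _ => c ∘ Equiv.swap i j) ?_ ?_ ?_ ?_
      · intro c _
        have h1 : ∏ l, g (a l) ((c ∘ Equiv.swap i j) l) = ∏ l, g (a l) (c l) := by
          rw [← Equiv.prod_comp (Equiv.swap i j) (fun l => g (a l) (c l))]
          refine Finset.prod_congr rfl fun l _ => ?_
          rw [ha l]
          rfl
        rw [h1, hx.swap, Equiv.Perm.sign_swap hij]
        push_cast
        ring
      · intro c _ hc h
        apply hc
        have h1 := congrFun h i
        rw [Function.comp_apply, Equiv.swap_apply_left] at h1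
        rw [hx.zero c i j hij h1.symm, mul_zero]
      · intro c _
        exact Finset.mem_univ _
      · intro c _
        funext l
        simp
    · intro a s
      unfold act
      rw [← Equiv.sum_comp (Equiv.arrowCongr s.symm (Equiv.refl (Fin d')))
        (fun c => (∏ i, g ((a ∘ s) i) (c i)) * x c), Finset.mul_sum]
      refine Finset.sum_congr rfl fun c _ => ?_
      have h1 : (Equiv.arrowCongr s.symm (Equiv.refl (Fin d'))) c = c ∘ s := rfl
      rw [h1, hx.swap]
      have h2 : ∏ i, g ((a ∘ s) i) ((c ∘ s) i) = ∏ i, g (a i) (c i) :=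
        Equiv.prod_comp s (fun i => g (a i) (c i))
      rw [h2]
      ring
  · intro B' _ ρ d d' q g x
    funext a
    unfold act
    rw [map_sum]
    refine Finset.sum_congr rfl fun c _ => ?_
    rw [map_mul, map_prod]
    rfl

end Pool.SF
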