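import Pool.Agent.Work.MP_bf99ce_sf.Interface

/-! # Block ALG: sections over integrally closed subrings (helper78) -/

set_option autoImplicit false

open AlgebraicGeometry CategoryTheory

noncomputable section

namespace Pool.SF

theorem p_ALG (hLSP : Stmt_LSP) (hVAL : Stmt_VAL) (hINT : Stmt_INT) : Stmt_ALG := by
  intro k K W _ _ _ _ _ n d q m p p' f hf e R hk hR φ ω hω h
  refine hINT K W n q (m * p) e R hR _ fun O hO => ?_
  refine hVAL k K W n d q m p p' f hf e O (fun c => hO (hk c)) φ ω hω ?_
  exact hLSP K W R O.toSubring (Set.range e) (Set.range e) d p hO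
    (fun s hs => Submodule.subset_span hs) _ h

end Pool.SF
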