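import Pool.Agent.Work.MP_bf99ce_sf.Interface

/-!
Block ALP: the substitution action of matrices on polynomials in the coordinates of alternating arrays.
-/

set_option autoImplicit false

noncomputable section

namespace Pool.SF

open MvPolynomial

theorem ALP_X {k : Type} [Field k] {d q : ℕ} (g : Matrix (Fin d) (Fin d) k) (I : Fin q ↪o Fin d) :
    al g (X I : MvPolynomial (Fin q ↪o Fin d) k) =
      act (g.map (C : k →+* MvPolynomial (Fin q ↪o Fin d) k)) (ext MvPolynomial.X) I := by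
  simp [al]

theorem ALP_ext (hACT : Stmt_ACT) (hUAR : Stmt_UAR) {k : Type} [Field k] {d q : ℕ} (g : Matrix (Fin d) (Fin d) k) :
    (fun a => al g (ext (MvPolynomial.X : (Fin q ↪o Fin d) → MvPolynomial (Fin q ↪o Fin d) k) a)) =
      act (g.map (C : k →+* MvPolynomial (Fin q ↪o Fin d) k)) (ext MvPolynomial.X) := by
  obtain ⟨u1, u2, u3, u4⟩ := hUAR (MvPolynomial (Fin q ↪o Fin d) k)
  obtain ⟨a1, a2, a3, a4⟩ := hACT (MvPolynomial (Fin q ↪o Fin d) k)
  have h := u4 (MvPolynomial (Fin q ↪o Fin d) k) (al g : MvPolynomial (Fin q ↪o Fin d) k →ₐ[k]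
    MvPolynomial (Fin q ↪o Fin d) k).toRingHom d q MvPolynomial.X
  have h2 := u3 d q (act (g.map (C : k →+* MvPolynomial (Fin q ↪o Fin d) k)) (ext MvPolynomial.X))
    (a3 d d q _ _ (u1 d q _))
  rw [← h2]
  refine Eq.trans h ?_
  congr 1
  funext I
  exact ALP_X g I

theorem ALP_mul (hACT : Stmt_ACT) (hUAR : Stmt_UAR) {k : Type} [Field k] {d q : ℕ} (g h : Matrix (Fin d) (Fin d) k)
    (f : MvPolynomial (Fin q ↪o Fin d) k) : al g (al h f) = al (h * g) f := by
  obtain ⟨a1, a2, a3, a4⟩ := hACT (MvPolynomial (Fin q ↪o Fin d) k)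
  have key : ((al g).comp (al h) : MvPolynomial (Fin q ↪o Fin d) k →ₐ[k] MvPolynomial (Fin q ↪o Fin d) k) =
      al (h * g) := by
    apply MvPolynomial.algHom_ext
    intro I
    rw [AlgHom.comp_apply, ALP_X, ALP_X]
    have e := congrFun (a4 (MvPolynomial (Fin q ↪o Fin d) k) (al g : MvPolynomial (Fin q ↪o Fin d) k →ₐ[k]
      MvPolynomial (Fin q ↪o Fin d) k).toRingHom d d q
      (h.map (C : k →+* MvPolynomial (Fin q ↪o Fin d) k)) (ext MvPolynomial.X)) I
    refine Eq.trans e ?_
    have e1 : (h.map (C : k →+* MvPolynomial (Fin q ↪o Fin d) k)).map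
        (al g : MvPolynomial (Fin q ↪o Fin d) k →ₐ[k] MvPolynomial (Fin q ↪o Fin d) k).toRingHom =
        h.map (C : k →+* MvPolynomial (Fin q ↪o Fin d) k) := by
      ext i j : 2
      simp [al]
    rw [e1]
    have e2 := ALP_ext hACT hUAR (q := q) g
    have e3 : (fun a => (al g : MvPolynomial (Fin q ↪o Fin d) k →ₐ[k]
        MvPolynomial (Fin q ↪o Fin d) k).toRingHom (ext (MvPolynomial.X : (Fin q ↪o Fin d) →
          MvPolynomial (Fin q ↪o Fin d) k) a)) =
        act (g.map (C : k →+* MvPolynomial (Fin q ↪o Fin d) k)) (ext MvPolynomial.X) := e2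
    rw [e3, a1]
    rw [← Matrix.map_mul]
  exact congrArg (fun φ : MvPolynomial (Fin q ↪o Fin d) k →ₐ[k] MvPolynomial (Fin q ↪o Fin d) k => φ f) key

theorem ALP_one (hACT : Stmt_ACT) (hUAR : Stmt_UAR) {k : Type} [Field k] {d q : ℕ}
    (f : MvPolynomial (Fin q ↪o Fin d) k) : al 1 f = f := by
  obtain ⟨a1, a2, a3, a4⟩ := hACT (MvPolynomial (Fin q ↪o Fin d) k)
  obtain ⟨u1, u2, u3, u4⟩ := hUAR (MvPolynomial (Fin q ↪o Fin d) k)
  have key : (al 1 : MvPolynomial (Fin q ↪o Fin d) k →ₐ[k] MvPolynomial (Fin q ↪o Fin d) k) =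
      AlgHom.id k _ := by
    apply MvPolynomial.algHom_ext
    intro I
    rw [ALP_X]
    have e1 : ((1 : Matrix (Fin d) (Fin d) k).map (C : k →+* MvPolynomial (Fin q ↪o Fin d) k)) = 1 := by
      rw [Matrix.map_one _ (map_zero _) (map_one _)]
    rw [e1, a2, u2]
    rfl
  rw [key]
  rfl

theorem ALP_ext_hom {k : Type} [Field k] {d q : ℕ} (a : Fin q → Fin d) :
    (ext (MvPolynomial.X : (Fin q ↪o Fin d) → MvPolynomial (Fin q ↪o Fin d) k) a).IsHomogeneous 1 := by
  unfold ext
  apply MvPolynomial.IsHomogeneous.sum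
  intro I _
  have h1 : (Matrix.of fun i j : Fin q => if a i = I j then (1 : MvPolynomial (Fin q ↪o Fin d) k) else 0).det =
      C ((Matrix.of fun i j : Fin q => if a i = I j then (1 : k) else 0).det) := by
    rw [RingHom.map_det]
    congr 1
    ext i j : 2
    simp only [Matrix.of_apply, RingHom.mapMatrix_apply, Matrix.map_apply]
    split_ifs <;> simp
  rw [h1]
  have h2 := (MvPolynomial.isHomogeneous_C (Fin q ↪o Fin d)
    ((Matrix.of fun i j : Fin q => if a i = I j then (1 : k) else 0).det)).mul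
    (MvPolynomial.isHomogeneous_X k I)
  simpa using h2

theorem ALP_act_hom {k : Type} [Field k] {d q : ℕ} (g : Matrix (Fin d) (Fin d) k) (a : Fin q → Fin d) :
    (act (g.map (C : k →+* MvPolynomial (Fin q ↪o Fin d) k)) (ext MvPolynomial.X) a).IsHomogeneous 1 := by
  unfold act
  apply MvPolynomial.IsHomogeneous.sum
  intro c _
  have h1 : (∏ i, (g.map (C : k →+* MvPolynomial (Fin q ↪o Fin d) k)) (a i) (c i)) = C (∏ i, g (a i) (c i)) := by
    rw [map_prod]
    rfl
  rw [h1]
  have h2 := (MvPolynomial.isHomogeneous_C (Fin q ↪o Fin d) (∏ i, g (a i) (c i))).mul (ALP_ext_hom (k := k) c)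
  simpa using h2

theorem ALP_al_hom {k : Type} [Field k] {d q : ℕ} (g : Matrix (Fin d) (Fin d) k) (m : ℕ)
    (f : MvPolynomial (Fin q ↪o Fin d) k) (hf : f.IsHomogeneous m) : (al g f).IsHomogeneous m := by
  have h := hf.aeval (fun I : Fin q ↪o Fin d => act (g.map (C : k →+* MvPolynomial (Fin q ↪o Fin d) k))
    (ext MvPolynomial.X) I) (n := 1) (fun I => ALP_act_hom g I)
  rw [one_mul] at h
  exact h

theorem ALP_comp {k : Type} [Field k] {d q : ℕ} (g : Matrix (Fin d) (Fin d) k)
    (f : MvPolynomial (Fin q ↪o Fin d) k) (m : ℕ) :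
    homogeneousComponent m (al g f) = al g (homogeneousComponent m f) := by
  classical
  have h1 : al g f = ∑ i ∈ Finset.range (f.totalDegree + 1), al g (homogeneousComponent i f) := by
    conv_lhs => rw [← sum_homogeneousComponent f]
    rw [map_sum]
  rw [h1, map_sum]
  have h2 : ∀ i, homogeneousComponent m (al g (homogeneousComponent i f)) =
      if m = i then al g (homogeneousComponent i f) else 0 := fun i =>
    homogeneousComponent_of_mem (ALP_al_hom g i _ (homogeneousComponent_isHomogeneous i f))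
  simp only [h2, Finset.sum_ite_eq, Finset.mem_range]
  split_ifs with h
  · rfl
  · rw [homogeneousComponent_eq_zero m f (by omega), map_zero]

theorem ALP_deg {k : Type} [Field k] {d q : ℕ} (g : Matrix (Fin d) (Fin d) k)
    (f : MvPolynomial (Fin q ↪o Fin d) k) : (al g f).totalDegree ≤ f.totalDegree := by
  have h1 : al g f = ∑ i ∈ Finset.range (f.totalDegree + 1), al g (homogeneousComponent i f) := by
    conv_lhs => rw [← sum_homogeneousComponent f]
    rw [map_sum]
  rw [h1]
  apply totalDegree_finsetSum_le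
  intro i hi
  have h2 := (ALP_al_hom g i _ (homogeneousComponent_isHomogeneous i f)).totalDegree_le
  have h3 := Finset.mem_range.1 hi
  omega

theorem ALP_eval (hACT : Stmt_ACT) (hUAR : Stmt_UAR) {k : Type} [Field k] {d q : ℕ} (g : Matrix (Fin d) (Fin d) k)
    (f : MvPolynomial (Fin q ↪o Fin d) k) (y : (Fin q ↪o Fin d) → k) :
    MvPolynomial.eval y (al g f) = MvPolynomial.eval (fun I : Fin q ↪o Fin d => act g (ext y) I) f := by
  obtain ⟨a1, a2, a3, a4⟩ := hACT (MvPolynomial (Fin q ↪o Fin d) k)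
  obtain ⟨u1, u2, u3, u4⟩ := hUAR (MvPolynomial (Fin q ↪o Fin d) k)
  have key : (MvPolynomial.aeval y : MvPolynomial (Fin q ↪o Fin d) k →ₐ[k] k).comp (al g) =
      MvPolynomial.aeval (fun I : Fin q ↪o Fin d => act g (ext y) I) := by
    apply MvPolynomial.algHom_ext
    intro I
    rw [AlgHom.comp_apply, ALP_X, MvPolynomial.aeval_X]
    have e := congrFun (a4 k (MvPolynomial.aeval y : MvPolynomial (Fin q ↪o Fin d) k →ₐ[k] k).toRingHom d d q
      (g.map (C : k →+* MvPolynomial (Fin q ↪o Fin d) k)) (ext MvPolynomial.X)) I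
    refine Eq.trans e ?_
    have e1 : (g.map (C : k →+* MvPolynomial (Fin q ↪o Fin d) k)).map
        (MvPolynomial.aeval y : MvPolynomial (Fin q ↪o Fin d) k →ₐ[k] k).toRingHom = g := by
      ext i j
      simp
    have e2 := u4 k (MvPolynomial.aeval y : MvPolynomial (Fin q ↪o Fin d) k →ₐ[k] k).toRingHom d q
      (MvPolynomial.X : (Fin q ↪o Fin d) → MvPolynomial (Fin q ↪o Fin d) k)
    rw [e1, e2]
    congr 2
    funext J
    simp
  have h := congrArg (fun φ : MvPolynomial (Fin q ↪o Fin d) k →ₐ[k] k => φ f) key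
  simpa [MvPolynomial.aeval_eq_eval] using h

theorem p_ALP (hACT : Stmt_ACT) (hUAR : Stmt_UAR) : Stmt_ALP := by
  intro k _ d q
  exact ⟨fun g h f => ALP_mul hACT hUAR g h f, fun f => ALP_one hACT hUAR f, fun g f => ALP_deg g f,
    fun g f m => ALP_comp g f m, fun g f y => ALP_eval hACT hUAR g f y⟩

end Pool.SF
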