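import Pool.Agent.Work.MP_bf99ce_sf.Interface2

set_option autoImplicit false

noncomputable section

namespace Pool.SF

theorem BCM_gen {K L W W' : Type} [Field K] [Field L] [Algebra K L] [AddCommGroup W] [Module K W]
    [AddCommGroup W'] [Module L W'] (q : ℕ) (f : W → W') (hadd : ∀ x y, f (x + y) = f x + f y)
    (hsmul : ∀ (c : K) x, f (c • x) = algebraMap K L c • f x) :
    ∃ Γ : SA K W q →+* SA L W' q,
      (∀ w : Fin q → W, Γ (wdg K q w) = wdg L q (fun i => f (w i))) ∧
      ∀ (c : K) (z : SA K W q), Γ (c • z) = algebraMap K L c • Γ z := by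
  let _ : Algebra K (SA L W' q) := ((algebraMap L (SA L W' q)).comp (algebraMap K L)).toAlgebra
  have hs : ∀ (c : K) (z : SA L W' q), c • z = algebraMap K L c • z := by
    intro c z
    rw [Algebra.smul_def, Algebra.smul_def]
    rfl
  have hupd : ∀ [DecidableEq (Fin q)] (w : Fin q → W) (i : Fin q) (x : W),
      (fun j => f (Function.update w i x j)) = Function.update (fun j => f (w j)) i (f x) := by
    intro _ w i x
    funext j
    by_cases h : j = i
    · subst h
      simp
    · simp [h]
  let g : W [⋀^Fin q]→ₗ[K] SA L W' q :=
    { toFun := fun w => wdg L q (fun i => f (w i))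
      map_update_add' := by
        intro _ w i x y
        simp only [wdg]
        rw [hupd, hupd, hupd, hadd, AlternatingMap.map_update_add, map_add]
      map_update_smul' := by
        intro _ w i c x
        rw [hs]
        simp only [wdg]
        rw [hupd, hupd, hsmul, AlternatingMap.map_update_smul, map_smul]
      map_eq_zero_of_eq' := by
        intro w i j hw hij
        simp only [wdg]
        rw [AlternatingMap.map_eq_zero_of_eq _ _ (i := i) (j := j) (by rw [hw]) hij, map_zero] }
  refine ⟨(SymmetricAlgebra.lift (exteriorPower.alternatingMapLinearEquiv g)).toRingHom, ?_, ?_⟩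
  · intro w
    change SymmetricAlgebra.lift (exteriorPower.alternatingMapLinearEquiv g) (wdg K q w) = _
    rw [wdg, SymmetricAlgebra.lift_ι_apply, exteriorPower.alternatingMapLinearEquiv_apply_ιMulti]
    rfl
  · intro c z
    change SymmetricAlgebra.lift (exteriorPower.alternatingMapLinearEquiv g) (c • z) =
      algebraMap K L c • SymmetricAlgebra.lift (exteriorPower.alternatingMapLinearEquiv g) z
    rw [map_smul, hs]

theorem p_BCM : Stmt_BCM := by
  intro k K L _ _ _ _ _ _ _ q
  refine BCM_gen q (fun x => KaehlerDifferential.map k k K L x) (fun x y => map_add _ x y) ?_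
  intro c x
  rw [map_smul, algebraMap_smul]

end Pool.SF
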