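import Pool.Agent.Work.MP_bf99ce_sf.Interface

/-!
# THEOREM SF (MP_bf99ce_ag): block BIN
-/

set_option autoImplicit false

namespace Pool.SF

theorem BIN_two (d : ℕ) (hd : 9 ≤ d) : 2 * d < d.choose 2 := by
  rw [Nat.choose_two_right]
  obtain ⟨e, rfl⟩ := Nat.exists_eq_add_of_le hd
  have h : (2 * (9 + e) + 1) * 2 ≤ (9 + e) * (9 + e - 1) := by
    have h1 : 9 + e - 1 = 8 + e := by omega
    rw [h1]
    nlinarith
  have h2 := (Nat.le_div_iff_mul_le (by norm_num : 0 < 2)).2 h
  omega

theorem BIN_main (d : ℕ) (hd : 9 ≤ d) : ∀ q : ℕ, 3 ≤ q → q + 3 ≤ d → d ^ 2 < d.choose q := by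
  induction d, hd using Nat.le_induction with
  | base =>
    intro q h1 h2
    have h3 : q = 3 ∨ q = 4 ∨ q = 5 ∨ q = 6 := by omega
    rcases h3 with rfl | rfl | rfl | rfl <;> decide
  | succ d hd ih =>
    intro q h1 h2
    obtain ⟨p, rfl⟩ : ∃ p, q = p + 1 := ⟨q - 1, by omega⟩
    rw [Nat.choose_succ_succ]
    have h3 := BIN_two d hd
    by_cases hp : p = 2
    · subst hp
      have h4 := ih 3 (by norm_num) (by omega)
      change (d + 1) ^ 2 < d.choose 2 + d.choose 3
      nlinarith
    · have h4 := ih p (by omega) (by omega)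
      by_cases hq : p + 1 + 3 ≤ d
      · have h5 := ih (p + 1) (by omega) hq
        change (d + 1) ^ 2 < d.choose p + d.choose (p + 1)
        nlinarith
      · have h6 : p + 1 = d - 2 := by omega
        have h7 : d.choose (p + 1) = d.choose 2 := by
          rw [h6]
          exact Nat.choose_symm (by omega)
        change (d + 1) ^ 2 < d.choose p + d.choose (p + 1)
        rw [h7]
        nlinarith

theorem p_BIN : Stmt_BIN := by
  intro d q h1 h2 h3
  rcases h3 with h3 | ⟨rfl, rfl⟩
  · exact BIN_main d h3 q h1 h2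
  · decide

end Pool.SF
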