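import Pool.Agent.Work.MP_bf99ce_sf.Interface

/-!
# THEOREM SF, block CHI: the factor of a semi-invariant is a positive power of the determinant
-/

set_option autoImplicit false

open AlgebraicGeometry CategoryTheory

noncomputable section

namespace Pool.SF

theorem CHI_diag_act {k : Type} [Field k] {d q : ℕ} (v : Fin d → k) (x : (Fin q → Fin d) → k)
    (a : Fin q → Fin d) : act (Matrix.diagonal v) x a = (∏ i, v (a i)) * x a := by
  unfold act
  rw [Finset.sum_eq_single a]
  · simp
  · intro c _ hc
    obtain ⟨i, hi⟩ := Function.ne_iff.1 hc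
    rw [Finset.prod_eq_zero (Finset.mem_univ i), zero_mul]
    exact Matrix.diagonal_apply_ne _ (Ne.symm hi)
  · simp

theorem CHI_coeff {k σ : Type} [Field k] (s : σ → k) (f : MvPolynomial σ k) (a : σ →₀ ℕ) :
    (MvPolynomial.aeval (fun I => MvPolynomial.C (s I) * MvPolynomial.X I) f :
      MvPolynomial σ k).coeff a = f.coeff a * a.prod (fun I e => s I ^ e) := by
  classical
  induction f using MvPolynomial.induction_on' with
  | monomial b c =>
    have h1 : (MvPolynomial.aeval (fun I => MvPolynomial.C (s I) * MvPolynomial.X I)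
        (MvPolynomial.monomial b c) : MvPolynomial σ k) =
        MvPolynomial.monomial b (c * b.prod (fun I e => s I ^ e)) := by
      rw [MvPolynomial.aeval_monomial, MvPolynomial.monomial_eq, MvPolynomial.algebraMap_eq,
        map_mul, mul_assoc]
      congr 1
      simp only [mul_pow, Finsupp.prod, Finset.prod_mul_distrib, map_prod, map_pow]
    rw [h1, MvPolynomial.coeff_monomial, MvPolynomial.coeff_monomial]
    by_cases hb : b = a
    · subst hb; simp
    · simp [hb]
  | add p q hp hq => rw [map_add, MvPolynomial.coeff_add, MvPolynomial.coeff_add, hp, hq, add_mul]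

/-- the value of the polynomial at an array -/
def CHI_F {k : Type} [Field k] {d q : ℕ} (f : MvPolynomial (Fin q ↪o Fin d) k)
    (x : (Fin q → Fin d) → k) : k := MvPolynomial.eval (fun I : Fin q ↪o Fin d => x I) f

theorem CHI_scale {k : Type} [Field k] {d q m : ℕ} {f : MvPolynomial (Fin q ↪o Fin d) k}
    (hf : f.IsHomogeneous m) (c : k) (y : (Fin q ↪o Fin d) → k) :
    MvPolynomial.eval (fun I => c * y I) f = c ^ m * MvPolynomial.eval y f := by
  rw [MvPolynomial.eval_eq, MvPolynomial.eval_eq, Finset.mul_sum]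
  refine Finset.sum_congr rfl fun a ha => ?_
  have h1 : ∑ i ∈ a.support, a i = m := by
    have := hf (MvPolynomial.mem_support_iff.1 ha)
    rw [Finsupp.weight_apply] at this
    simpa [Finsupp.sum] using this
  rw [← h1, ← Finset.prod_pow_eq_pow_sum]
  simp only [mul_pow, Finset.prod_mul_distrib]
  ring

/-- the data of a semi-invariant with its factor -/
structure CHI_D (k : Type) [Field k] (d q : ℕ) (f : MvPolynomial (Fin q ↪o Fin d) k)
    (U : Matrix (Fin d) (Fin d) k → k) : Prop where
  inv : ∀ g : Matrix (Fin d) (Fin d) k, g.det ≠ 0 → ∀ y : (Fin q ↪o Fin d) → k,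
      CHI_F f (act g (ext y)) = U g * MvPolynomial.eval y f
  mul : ∀ g h : Matrix (Fin d) (Fin d) k, g.det ≠ 0 → h.det ≠ 0 → U (g * h) = U g * U h
  one : U 1 = 1

theorem CHI_U (hACT : Stmt_ACT) (hUAR : Stmt_UAR) {k : Type} [Field k] [CharZero k] {d q : ℕ}
    (f : MvPolynomial (Fin q ↪o Fin d) k) (hf : f ≠ 0)
    (hinv : ∀ g : Matrix (Fin d) (Fin d) k, g.det ≠ 0 → ∃ u : k, ∀ y : (Fin q ↪o Fin d) → k,
      MvPolynomial.eval (fun I : Fin q ↪o Fin d => act g (ext y) I) f =
        u * MvPolynomial.eval y f) : ∃ U, CHI_D k d q f U := by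
  classical
  obtain ⟨hA1, hA2, hA3, -⟩ := hACT k
  obtain ⟨hB1, hB2, hB3, -⟩ := hUAR k
  have hex : ∃ y0 : (Fin q ↪o Fin d) → k, MvPolynomial.eval y0 f ≠ 0 := by
    by_contra hcon
    push Not at hcon
    exact hf (MvPolynomial.funext fun y => by rw [hcon y, map_zero])
  obtain ⟨y0, hy0⟩ := hex
  let U : Matrix (Fin d) (Fin d) k → k := fun g => CHI_F f (act g (ext y0)) / MvPolynomial.eval y0 f
  have hU : ∀ g : Matrix (Fin d) (Fin d) k, g.det ≠ 0 → ∀ y : (Fin q ↪o Fin d) → k,
      CHI_F f (act g (ext y)) = U g * MvPolynomial.eval y f := by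
    intro g hg y
    obtain ⟨u, hu⟩ := hinv g hg
    have h1 : U g = u := by
      change CHI_F f (act g (ext y0)) / MvPolynomial.eval y0 f = u
      rw [div_eq_iff hy0]
      exact hu y0
    rw [h1]
    exact hu y
  refine ⟨U, hU, ?_, ?_⟩
  · intro g h hg hh
    have h1 : ext (fun I : Fin q ↪o Fin d => act h (ext y0) I) = act h (ext y0) :=
      hB3 d q _ (hA3 d d q h _ (hB1 d q y0))
    have h2 : CHI_F f (act (g * h) (ext y0)) = U g * (U h * MvPolynomial.eval y0 f) := by
      rw [← hA1, ← h1, hU g hg, ← hU h hh y0]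
      rfl
    change CHI_F f (act (g * h) (ext y0)) / MvPolynomial.eval y0 f = _
    rw [h2, ← mul_assoc, mul_div_assoc, div_self hy0, mul_one]
  · change CHI_F f (act 1 (ext y0)) / MvPolynomial.eval y0 f = 1
    rw [hA2]
    have h3 : CHI_F f (ext y0) = MvPolynomial.eval y0 f := by
      unfold CHI_F
      congr 1
      congr 1
      funext I
      exact hB2 d q y0 I
    rw [h3, div_self hy0]

section

variable {k : Type} [Field k] [CharZero k] {d q : ℕ} {f : MvPolynomial (Fin q ↪o Fin d) k}
  {U : Matrix (Fin d) (Fin d) k → k}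

theorem CHI_ne (h : CHI_D k d q f U) (g : Matrix (Fin d) (Fin d) k) (hg : g.det ≠ 0) : U g ≠ 0 := by
  intro h0
  have hu : IsUnit g.det := isUnit_iff_ne_zero.2 hg
  have h1 := h.mul g g⁻¹ hg (by rw [Matrix.det_nonsing_inv]; simpa using hg)
  rw [Matrix.mul_nonsing_inv g hu, h.one, h0, zero_mul] at h1
  exact one_ne_zero h1

theorem CHI_conj (h : CHI_D k d q f U) (g a b : Matrix (Fin d) (Fin d) k) (hg : g.det ≠ 0)
    (ha : a.det ≠ 0) (hb : b.det ≠ 0) (he : g * a = b * g) : U a = U b := by
  have h1 : U g * U a = U b * U g := by rw [← h.mul g a hg ha, he, h.mul b g hb hg]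
  rw [mul_comm (U b)] at h1
  exact mul_left_cancel₀ (CHI_ne h g hg) h1

/-- the diagonal matrix with one entry different from one -/
def CHI_E (d : ℕ) {k : Type} [Field k] (i : Fin d) (t : k) : Matrix (Fin d) (Fin d) k :=
  Matrix.diagonal (Function.update 1 i t)

theorem CHI_E_det (i : Fin d) (t : k) : (CHI_E d i t).det = t := by
  unfold CHI_E
  rw [Matrix.det_diagonal, Finset.prod_update_of_mem (Finset.mem_univ i)]
  simp

theorem CHI_transvection (h : CHI_D k d q f U) (i j : Fin d) (hij : i ≠ j) (c : k) :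
    U (Matrix.transvection i j c) = 1 := by
  have hd : ∀ c : k, (Matrix.transvection i j c).det ≠ 0 := fun c => by
    rw [Matrix.det_transvection_of_ne i j hij]; exact one_ne_zero
  have h1 : U (Matrix.transvection i j c) = U (Matrix.transvection i j (c + c)) := by
    refine CHI_conj h (CHI_E d i 2) _ _ (by rw [CHI_E_det]; exact two_ne_zero) (hd _) (hd _) ?_
    unfold Matrix.transvection CHI_E
    rw [mul_add, add_mul, mul_one, one_mul]
    congr 1
    ext a b
    rw [Matrix.diagonal_mul, Matrix.mul_diagonal]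
    simp only [Matrix.single_apply]
    by_cases hab : i = a ∧ j = b
    · obtain ⟨rfl, rfl⟩ := hab
      rw [Function.update_self, Function.update_of_ne (Ne.symm hij)]
      simp
      ring
    · simp [hab]
  rw [← Matrix.transvection_mul_transvection_same i j hij c c, h.mul _ _ (hd c) (hd c)] at h1
  have h2 := CHI_ne h _ (hd c)
  have h3 : U (Matrix.transvection i j c) * 1 = U (Matrix.transvection i j c) *
    U (Matrix.transvection i j c) := by rw [mul_one]; exact h1
  exact (mul_left_cancel₀ h2 h3).symm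

theorem CHI_swap (h : CHI_D k d q f U) (i j : Fin d) (t : k) (ht : t ≠ 0) :
    U (CHI_E d i t) = U (CHI_E d j t) := by
  refine CHI_conj h ((Equiv.swap i j).permMatrix k) _ _ ?_ (by rwa [CHI_E_det])
    (by rwa [CHI_E_det]) ?_
  · rw [Matrix.det_permutation]
    rcases Int.units_eq_one_or (Equiv.Perm.sign (Equiv.swap i j)) with h1 | h1 <;> rw [h1] <;> simp
  · unfold CHI_E
    ext a b
    rw [Matrix.mul_diagonal, Matrix.diagonal_mul]
    simp only [Equiv.Perm.permMatrix, PEquiv.toMatrix_apply, Equiv.toPEquiv_apply,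
      Option.mem_some_iff]
    by_cases hab : Equiv.swap i j a = b
    · subst hab
      simp only [if_true, one_mul, mul_one]
      by_cases ha : a = j
      · subst ha
        simp
      · by_cases ha' : a = i
        · subst ha'
          rw [Equiv.swap_apply_left, Function.update_of_ne (Ne.symm ha), Function.update_of_ne ha]
          rfl
        · rw [Equiv.swap_apply_of_ne_of_ne ha' ha, Function.update_of_ne ha,
            Function.update_of_ne ha']
    · simp [hab]

theorem CHI_pow (hUAR : Stmt_UAR) (hf : f ≠ 0) (h : CHI_D k d q f U) (i : Fin d) :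
    ∃ p : ℕ, ∀ t : k, t ≠ 0 → U (CHI_E d i t) = t ^ p := by
  classical
  obtain ⟨-, hB2, -, -⟩ := hUAR k
  obtain ⟨a, ha⟩ := MvPolynomial.ne_zero_iff.1 hf
  let n : (Fin q ↪o Fin d) → ℕ := fun I => (Finset.univ.filter fun l => I l = i).card
  refine ⟨a.sum fun I e => n I * e, fun t ht => ?_⟩
  have h1 : MvPolynomial.aeval (fun I => MvPolynomial.C (t ^ n I) * MvPolynomial.X I) f =
      MvPolynomial.C (U (CHI_E d i t)) * f := by
    refine MvPolynomial.funext fun y => ?_
    rw [MvPolynomial.eval_mul, MvPolynomial.eval_C, ← h.inv _ (by rwa [CHI_E_det]) y]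
    unfold CHI_F
    have h2 : ∀ g : MvPolynomial (Fin q ↪o Fin d) k, MvPolynomial.eval y
        (MvPolynomial.aeval (fun I => MvPolynomial.C (t ^ n I) * MvPolynomial.X I) g) =
        MvPolynomial.eval (fun I => t ^ n I * y I) g := by
      intro g
      induction g using MvPolynomial.induction_on with
      | C c => simp
      | add p q hp hq => simp only [map_add, hp, hq]
      | mul_X p I hp => simp only [map_mul, hp, MvPolynomial.aeval_X, MvPolynomial.eval_X,
          MvPolynomial.eval_C]
    rw [h2]
    congr 1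
    congr 1
    funext I
    unfold CHI_E
    rw [CHI_diag_act, hB2]
    congr 1
    have h3 : ∀ l : Fin q, Function.update (1 : Fin d → k) i t (I l) = if I l = i then t else 1 := by
      intro l
      by_cases hl : I l = i
      · rw [hl]; simp
      · rw [Function.update_of_ne hl]; simp [hl]
    rw [Finset.prod_congr rfl fun l _ => h3 l, Finset.prod_ite, Finset.prod_const,
      Finset.prod_const_one, mul_one]
  have h4 := congrArg (MvPolynomial.coeff a) h1
  rw [CHI_coeff, MvPolynomial.coeff_C_mul, mul_comm] at h4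
  rw [← mul_right_cancel₀ ha h4]
  unfold Finsupp.prod Finsupp.sum
  rw [← Finset.prod_pow_eq_pow_sum]
  exact Finset.prod_congr rfl fun I _ => (pow_mul _ _ _).symm

theorem CHI_diagonal (h : CHI_D k d q f U) (p : ℕ)
    (hp : ∀ i : Fin d, ∀ t : k, t ≠ 0 → U (CHI_E d i t) = t ^ p) (v : Fin d → k)
    (hv : ∀ i, v i ≠ 0) : U (Matrix.diagonal v) = (∏ i, v i) ^ p := by
  classical
  have key : ∀ s : Finset (Fin d), U (Matrix.diagonal fun l => if l ∈ s then v l else 1) =
      (∏ i ∈ s, v i) ^ p := by
    intro s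
    induction s using Finset.induction_on with
    | empty =>
      simp only [Finset.notMem_empty, if_false, Finset.prod_empty, one_pow]
      rw [Matrix.diagonal_one]
      exact h.one
    | insert a s ha ih =>
      have h1 : (Matrix.diagonal fun l => if l ∈ insert a s then v l else (1 : k)) =
          CHI_E d a (v a) * Matrix.diagonal fun l => if l ∈ s then v l else 1 := by
        unfold CHI_E
        rw [Matrix.diagonal_mul_diagonal]
        congr 1
        funext l
        by_cases hl : l = a
        · subst hl; simp [ha]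
        · rw [Function.update_of_ne hl]
          simp [hl]
      rw [h1, h.mul, ih, hp a _ (hv a), Finset.prod_insert ha, mul_pow]
      · rw [CHI_E_det]; exact hv a
      · rw [Matrix.det_diagonal]
        refine Finset.prod_ne_zero_iff.2 fun i _ => ?_
        split_ifs
        · exact hv i
        · exact one_ne_zero
  have := key Finset.univ
  simpa using this

end

theorem p_CHI (hACT : Stmt_ACT) (hUAR : Stmt_UAR) : Stmt_CHI := by
  classical
  intro k _ _ d q hq hsem
  obtain ⟨m, f, hm, hf, hhom, hinv⟩ := hsem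
  obtain ⟨U, hU⟩ := CHI_U hACT hUAR f hf hinv
  -- the dimension is positive
  have hd : 0 < d := by
    rcases Nat.eq_zero_or_pos d with rfl | hd
    · exfalso
      have : IsEmpty (Fin q ↪o Fin 0) := ⟨fun I => Fin.elim0 (I ⟨0, hq⟩)⟩
      obtain ⟨a, ha⟩ := MvPolynomial.ne_zero_iff.1 hf
      have h1 := hhom ha
      have h2 : a = 0 := Subsingleton.elim _ _
      rw [h2] at h1
      simp at h1
      omega
    · exact hd
  let i0 : Fin d := ⟨0, hd⟩
  obtain ⟨p, hp⟩ := CHI_pow hUAR hf hU i0
  have hp' : ∀ i : Fin d, ∀ t : k, t ≠ 0 → U (CHI_E d i t) = t ^ p := fun i t ht => by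
    rw [CHI_swap hU i i0 t ht, hp t ht]
  have hdet : ∀ g : Matrix (Fin d) (Fin d) k, g.det ≠ 0 → U g = g.det ^ p := by
    intro g hg
    refine Matrix.diagonal_transvection_induction_of_det_ne_zero (fun M => U M = M.det ^ p) g hg
      ?_ ?_ ?_
    · intro D hD
      rw [Matrix.det_diagonal] at hD ⊢
      exact CHI_diagonal hU p hp' D fun i => Finset.prod_ne_zero_iff.1 hD i (Finset.mem_univ i)
    · intro t
      change U t.toMatrix = t.toMatrix.det ^ p
      rw [Matrix.TransvectionStruct.det, one_pow]
      exact CHI_transvection hU t.i t.j t.hij t.c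
    · intro A B hA hB h1 h2
      change U (A * B) = (A * B).det ^ p
      rw [hU.mul A B hA hB, Matrix.det_mul, mul_pow, h1, h2]
  refine ⟨m, p, f, hm, ?_, hf, hhom, fun g hg y => ?_⟩
  · -- the weight is positive
    by_contra hp0
    have hp0' : p = 0 := by omega
    obtain ⟨-, hB2, -, -⟩ := hUAR k
    have hex : ∃ y0 : (Fin q ↪o Fin d) → k, MvPolynomial.eval y0 f ≠ 0 := by
      by_contra hcon
      push Not at hcon
      exact hf (MvPolynomial.funext fun y => by rw [hcon y, map_zero])
    obtain ⟨y0, hy0⟩ := hex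
    have hdt : (Matrix.diagonal fun _ : Fin d => (2 : k)).det ≠ 0 := by
      rw [Matrix.det_diagonal]
      exact Finset.prod_ne_zero_iff.2 fun i _ => two_ne_zero
    have h1 := hU.inv _ hdt y0
    rw [hdet _ hdt, hp0', pow_zero, one_mul] at h1
    have h2 : CHI_F f (act (Matrix.diagonal fun _ : Fin d => (2 : k)) (ext y0)) =
        ((2 : k) ^ q) ^ m * MvPolynomial.eval y0 f := by
      rw [← CHI_scale hhom]
      unfold CHI_F
      congr 1
      congr 1
      funext I
      rw [CHI_diag_act, hB2]
      simp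
    rw [h2] at h1
    have h3 : ((2 : k) ^ q) ^ m = 1 := by
      have : ((2 : k) ^ q) ^ m * MvPolynomial.eval y0 f = 1 * MvPolynomial.eval y0 f := by
        rw [h1, one_mul]
      exact mul_right_cancel₀ hy0 this
    rw [← pow_mul] at h3
    have h4 : (2 : ℕ) ^ (q * m) = 1 := by exact_mod_cast h3
    have h5 : 1 ≤ q * m := Nat.mul_pos hq hm
    have h6 : 2 ≤ 2 ^ (q * m) := by
      calc 2 = 2 ^ 1 := (pow_one 2).symm
        _ ≤ 2 ^ (q * m) := Nat.pow_le_pow_right (by norm_num) h5
    omega
  · rw [← hdet g hg]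
    exact hU.inv g hg y

end Pool.SF
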