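import Pool.Agent.Work.MP_bf99ce_sf.Interface

/-! Block CRM of THEOREM SF (MP_bf99ce_ag): normal form over a valuation ring. -/

set_option autoImplicit false

noncomputable section

namespace Pool.SF

lemma CRM_exists {K : Type} [Field K] {d n : ℕ} (A : Matrix (Fin d) (Fin n) K)
    (hA : LinearIndependent K A.row) : ∃ c : Fin d → Fin n, (Matrix.of fun i j => A i (c j)).det ≠ 0 := by
  classical
  obtain ⟨κ, a, ha, hspan, hli⟩ := exists_linearIndependent' K A.col
  have hr : A.rank = d := by simpa using hA.rank_matrix
  have : Finite κ := Finite.of_injective a ha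
  have := Fintype.ofFinite κ
  have hcard : Fintype.card κ = d := by
    have h1 : Module.finrank K (Submodule.span K (Set.range (A.col ∘ a))) = Fintype.card κ :=
      finrank_span_eq_card hli
    rw [hspan, ← Matrix.rank_eq_finrank_span_cols, hr] at h1
    exact h1.symm
  let e : Fin d ≃ κ := (Fintype.equivFinOfCardEq hcard).symm
  refine ⟨fun j => a (e j), ?_⟩
  have h2 : LinearIndependent K (fun j : Fin d => A.col (a (e j))) := by
    have := hli.comp e e.injective
    exact this
  intro h0
  have h3 : LinearIndependent K (Matrix.of fun i j => A i (a (e j)) : Matrix (Fin d) (Fin d) K).col := h2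
  rw [Matrix.linearIndependent_cols_iff_isUnit, Matrix.isUnit_iff_isUnit_det, h0] at h3
  exact not_isUnit_zero h3

theorem p_CRM : Stmt_CRM := by
  classical
  intro K _ O d n A hA
  obtain ⟨c₀, hc₀⟩ := CRM_exists A hA
  obtain ⟨c, -, hc⟩ := Finset.exists_max_image (Finset.univ : Finset (Fin d → Fin n))
    (fun c => O.valuation (Matrix.of fun i j => A i (c j)).det) ⟨c₀, Finset.mem_univ _⟩
  set g : Matrix (Fin d) (Fin d) K := Matrix.of fun i j => A i (c j) with hg
  have hdet : g.det ≠ 0 := by
    intro h
    have h1 := hc c₀ (Finset.mem_univ _)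
    rw [h, map_zero, le_zero_iff, map_eq_zero] at h1
    exact hc₀ h1
  have hu : IsUnit g.det := isUnit_iff_ne_zero.mpr hdet
  refine ⟨c, g⁻¹ * A, hdet, ?_, ?_⟩
  · rw [← hg, Matrix.mul_nonsing_inv_cancel_left _ _ hu]
  · intro i j
    have h1 : g.det • (g⁻¹ * A) i j = (Matrix.of fun r s => A r (Function.update c i j s)).det := by
      have h2 := Matrix.det_smul_inv_mulVec_eq_cramer g (fun r => A r j) hu
      have h3 := congrFun h2 i
      rw [Matrix.cramer_apply] at h3
      have h4 : g.updateCol i (fun r => A r j) = Matrix.of fun r s => A r (Function.update c i j s) := by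
        ext r s
        rw [Matrix.updateCol_apply]
        by_cases hs : s = i
        · subst hs; simp
        · simp [hs, hg]
      rw [h4] at h3
      rw [← h3]
      rfl
    have h5 : (g⁻¹ * A) i j = (Matrix.of fun r s => A r (Function.update c i j s)).det / g.det := by
      rw [← h1, smul_eq_mul, mul_div_cancel_left₀ _ hdet]
    rw [← O.valuation_le_one_iff, h5, map_div₀]
    have h6 := hc (Function.update c i j) (Finset.mem_univ _)
    exact div_le_one_of_le₀ h6 zero_le

end Pool.SF
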