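import Pool.Agent.Work.MP_bf99ce_sf.Interface2

/-! # Block DOM -/

set_option autoImplicit false

open AlgebraicGeometry CategoryTheory

noncomputable section

namespace Pool.SF

theorem DOM_gen {X Y : Scheme.{0}} [IsIntegral X] [IsIntegral Y] (g : X ⟶ Y) [IsDominant g] :
    g (genericPoint X) = genericPoint Y := by
  apply ((genericPoint_spec Y).eq _).symm
  have h := (genericPoint_spec X).image g.continuous
  rw [Set.image_univ, g.denseRange.closure_range] at h
  exact h

/-- the map of function fields -/
def DOM_map {X Y : Scheme.{0}} [IsIntegral X] [IsIntegral Y] (g : X ⟶ Y) [IsDominant g] :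
    Y.functionField ⟶ X.functionField :=
  Y.presheaf.stalkSpecializes (show g (genericPoint X) ⤳ genericPoint Y by rw [DOM_gen]) ≫
    g.stalkMap (genericPoint X)

theorem DOM_germ {X Y : Scheme.{0}} [IsIntegral X] [IsIntegral Y] (g : X ⟶ Y) [IsDominant g] :
    Y.presheaf.germ ⊤ (genericPoint Y) trivial ≫ DOM_map g =
      g.appTop ≫ X.presheaf.germ ⊤ (genericPoint X) trivial := by
  unfold DOM_map
  rw [← Category.assoc, TopCat.Presheaf.germ_stalkSpecializes]
  exact Scheme.Hom.germ_stalkMap g ⊤ (genericPoint X) trivial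

theorem DOM_local {X Y : Scheme.{0}} [IsIntegral X] [IsIntegral Y] (g : X ⟶ Y) [IsDominant g]
    (x : X) (s : Y.presheaf.stalk (g x)) :
    DOM_map g (algebraMap (Y.presheaf.stalk (g x)) Y.functionField s) =
      algebraMap (X.presheaf.stalk x) X.functionField (g.stalkMap x s) := by
  have h1 : Y.presheaf.stalkSpecializes ((genericPoint_spec Y).specializes (y := g x) trivial) ≫
      DOM_map g = g.stalkMap x ≫ X.presheaf.stalkSpecializes
        ((genericPoint_spec X).specializes (y := x) trivial) := by
    unfold DOM_map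
    rw [← Category.assoc, TopCat.Presheaf.stalkSpecializes_comp]
    exact Scheme.Hom.stalkSpecializes_stalkMap g (genericPoint X) x
      ((genericPoint_spec X).specializes trivial)
  exact DFunLike.congr_fun (CommRingCat.hom_ext_iff.mp h1) s

theorem p_DOM : Stmt_DOM := by
  intro k _ X Y fX fY _ _ g _ hg
  subst hg
  let φ : FF fY →+* FF (g ≫ fY) := (DOM_map g).hom
  let inst : Algebra (FF fY) (FF (g ≫ fY)) := φ.toAlgebra
  refine ⟨inst, ?_, ?_⟩
  · refine IsScalarTower.of_algebraMap_eq' ?_
    have h1 : (Scheme.ΓSpecIso (CommRingCat.of k)).inv ≫ (g ≫ fY).appTop ≫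
        X.presheaf.germ ⊤ (genericPoint X) trivial =
        ((Scheme.ΓSpecIso (CommRingCat.of k)).inv ≫ fY.appTop ≫
        Y.presheaf.germ ⊤ (genericPoint Y) trivial) ≫ DOM_map g := by
      rw [Category.assoc, Category.assoc, DOM_germ, Scheme.Hom.comp_appTop, Category.assoc]
    exact congrArg CommRingCat.Hom.hom h1
  · intro x r hr
    obtain ⟨s, rfl⟩ := hr
    exact ⟨g.stalkMap x s, (DOM_local g x s).symm⟩

end Pool.SF
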