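import Pool.Agent.Work.MP_bf99ce_sf.Interface

/-! # Block DUA: duality between `q`-vectors and `r`-vectors, `q + r = d` -/

set_option autoImplicit false

open AlgebraicGeometry CategoryTheory

noncomputable section

namespace Pool.SF

/-- the sign of a tuple -/
def DUA_E (B : Type) [CommRing B] {d : ℕ} (s : Fin d → Fin d) : B :=
  (Matrix.of fun i j : Fin d => if s i = j then (1 : B) else 0).det

theorem DUA_E_perm (B : Type) [CommRing B] {d : ℕ} (s : Fin d → Fin d) (σ : Equiv.Perm (Fin d)) :
    DUA_E B (s ∘ σ) = ((Equiv.Perm.sign σ : ℤ) : B) * DUA_E B s := by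
  have h := Matrix.det_permute (R := B) σ (Matrix.of fun i j : Fin d => if s i = j then (1 : B) else 0)
  exact h

theorem DUA_E_zero (B : Type) [CommRing B] {d : ℕ} (s : Fin d → Fin d) {i j : Fin d} (hij : i ≠ j)
    (h : s i = s j) : DUA_E B s = 0 := by
  refine Matrix.det_zero_of_row_eq hij ?_
  ext l
  simp only [Matrix.of_apply, h]

theorem DUA_E_inj (B : Type) [CommRing B] {d : ℕ} (s : Fin d → Fin d)
    (h : ¬ Function.Injective s) : DUA_E B s = 0 := by
  unfold Function.Injective at h
  push Not at h
  obtain ⟨i, j, h1, h2⟩ := h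
  exact DUA_E_zero B s h2 h1

theorem DUA_E_sq (B : Type) [CommRing B] {d : ℕ} (s : Fin d → Fin d)
    (h : Function.Injective s) : DUA_E B s * DUA_E B s = 1 := by
  have hb : Function.Bijective s := Finite.injective_iff_bijective.1 h
  have h1 := DUA_E_perm B (id : Fin d → Fin d) (Equiv.ofBijective s hb)
  have h2 : (id : Fin d → Fin d) ∘ (Equiv.ofBijective s hb) = s := rfl
  have h3 : DUA_E B (id : Fin d → Fin d) = 1 := by
    unfold DUA_E
    have : (Matrix.of fun i j : Fin d => if id i = j then (1 : B) else 0) = 1 := by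
      ext i j
      simp [Matrix.one_apply]
    rw [this, Matrix.det_one]
  rw [h2, h3, mul_one] at h1
  rw [h1]
  rcases Int.units_eq_one_or (Equiv.Perm.sign (Equiv.ofBijective s hb)) with h | h <;> simp [h]

/-- expansion of the determinant -/
theorem DUA_exp (B : Type) [CommRing B] {d : ℕ} (M : Matrix (Fin d) (Fin d) B) :
    ∑ s : Fin d → Fin d, DUA_E B s * ∏ l, M l (s l) = M.det := by
  have h1 : ∀ s : Fin d → Fin d, DUA_E B s * ∏ l, M l (s l) =
      (Matrix.detRowAlternating (R := B) (n := Fin d)) (fun i => M i (s i) • Pi.single (s i) (1 : B)) := by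
    intro s
    rw [AlternatingMap.map_smul_univ, smul_eq_mul, mul_comm]
    congr 1
    unfold DUA_E
    change Matrix.det _ = Matrix.det _
    congr 1
    ext i j
    simp only [Matrix.of_apply, Pi.single_apply]
    by_cases h : s i = j
    · rw [if_pos h, if_pos h.symm]
    · rw [if_neg h, if_neg (fun h' => h h'.symm)]
  have h2 : M.det = (Matrix.detRowAlternating (R := B) (n := Fin d))
      (fun i => ∑ j, M i j • Pi.single j (1 : B)) := by
    change Matrix.det M = Matrix.det _
    congr 1
    ext i j
    rw [Finset.sum_apply]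
    simp [Pi.single_apply]
  rw [Finset.sum_congr rfl fun s _ => h1 s, h2]
  exact (MultilinearMap.map_sum (Matrix.detRowAlternating (R := B) (n := Fin d)).toMultilinearMap
    (fun (i : Fin d) (j : Fin d) => M i j • Pi.single j (1 : B))).symm

theorem DUA_key (B : Type) [CommRing B] {d : ℕ} (g : Matrix (Fin d) (Fin d) B) (t : Fin d → Fin d) :
    ∑ s : Fin d → Fin d, DUA_E B s * ∏ l, g (s l) (t l) = g.det * DUA_E B t := by
  have h := DUA_exp B (Matrix.of fun l j => g j (t l))
  simp only [Matrix.of_apply] at h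
  rw [h]
  have h2 : (Matrix.of fun l j => g j (t l)) =
      (Matrix.of fun i j : Fin d => if t i = j then (1 : B) else 0) * g.transpose := by
    ext i j
    rw [Matrix.mul_apply]
    simp
  rw [h2, Matrix.det_mul, Matrix.det_transpose, mul_comm]
  rfl

/-- the dual of an array -/
def DUA_z {B : Type} [CommRing B] {q r : ℕ} (x : (Fin r → Fin (q + r)) → B) :
    (Fin q → Fin (q + r)) → B := fun a => ∑ c : Fin r → Fin (q + r), DUA_E B (Fin.append a c) * x c

theorem DUA_z_alt {B : Type} [CommRing B] {q r : ℕ} (x : (Fin r → Fin (q + r)) → B) :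
    Alt (DUA_z x) := by
  refine ⟨?_, ?_⟩
  · intro a i j hij h
    unfold DUA_z
    refine Finset.sum_eq_zero fun c _ => ?_
    rw [DUA_E_zero B (Fin.append a c) (i := Fin.castAdd r i) (j := Fin.castAdd r j), zero_mul]
    · intro h'
      exact hij (Fin.castAdd_injective q r h')
    · rw [Fin.append_left, Fin.append_left, h]
  · intro a s
    unfold DUA_z
    rw [Finset.mul_sum]
    refine Finset.sum_congr rfl fun c _ => ?_
    rw [← mul_assoc]
    congr 1
    have h1 : Fin.append (a ∘ s) c = Fin.append a c ∘
        (finSumFinEquiv.permCongr (Equiv.Perm.sumCongr s (1 : Equiv.Perm (Fin r)))) := by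
      funext l
      refine Fin.addCases (fun i => ?_) (fun i => ?_) l
      · simp
      · simp
    rw [h1, DUA_E_perm, Equiv.Perm.sign_permCongr, Equiv.Perm.sign_sumCongr, Equiv.Perm.sign_one, mul_one]

/-- a sum over pairs of tuples is a sum over tuples -/
theorem DUA_pair {B : Type} [CommRing B] {q r : ℕ} (F : (Fin (q + r) → Fin (q + r)) → B) :
    ∑ s : Fin (q + r) → Fin (q + r), F s =
      ∑ a : Fin q → Fin (q + r), ∑ c : Fin r → Fin (q + r), F (Fin.append a c) := by
  rw [← Fintype.sum_prod_type']
  exact (Fintype.sum_equiv (Fin.appendEquiv q r) _ _ fun p => rfl).symm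

theorem DUA_equiv {B : Type} [CommRing B] {q r : ℕ} (g : Matrix (Fin (q + r)) (Fin (q + r)) B)
    (x : (Fin r → Fin (q + r)) → B) :
    act g.transpose (DUA_z (act g x)) = fun a => g.det * DUA_z x a := by
  funext a
  have h1 : act g.transpose (DUA_z (act g x)) a =
      ∑ c' : Fin r → Fin (q + r), (∑ a' : Fin q → Fin (q + r), ∑ c : Fin r → Fin (q + r),
        DUA_E B (Fin.append a' c) * ∏ l, g (Fin.append a' c l) (Fin.append a c' l)) * x c' := by
    unfold act DUA_z
    simp only [Finset.mul_sum, Finset.sum_mul]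
    rw [Finset.sum_congr rfl fun a' _ => Finset.sum_comm, Finset.sum_comm]
    refine Finset.sum_congr rfl fun c' _ => Finset.sum_congr rfl fun a' _ =>
      Finset.sum_congr rfl fun c _ => ?_
    rw [Fin.prod_univ_add]
    simp only [Fin.append_left, Fin.append_right, Matrix.transpose_apply]
    ring
  rw [h1]
  unfold DUA_z
  rw [Finset.mul_sum]
  refine Finset.sum_congr rfl fun c' _ => ?_
  rw [← DUA_pair (fun s => DUA_E B s * ∏ l, g (s l) (Fin.append a c' l)), DUA_key, mul_assoc]

theorem DUA_ex {q r : ℕ} {a b : Fin q → Fin (q + r)} {c : Fin r → Fin (q + r)}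
    (ha : Function.Injective (Fin.append a c)) (hb : Function.Injective (Fin.append b c)) :
    ∃ s : Equiv.Perm (Fin q), a ∘ s = b := by
  rw [Fin.append_injective_iff] at hb
  have hs := (Finite.injective_iff_surjective.1 ha)
  have h1 : ∀ i, ∃ j, a j = b i := by
    intro i
    obtain ⟨l, hl⟩ := hs (b i)
    revert hl
    refine Fin.addCases (fun j hl => ?_) (fun j hl => ?_) l
    · exact ⟨j, by rw [Fin.append_left] at hl; exact hl⟩
    · rw [Fin.append_right] at hl
      exact absurd hl.symm (hb.2.2 i j)
  choose s hs' using h1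
  have hinj : Function.Injective s := by
    intro i j hij
    apply hb.1
    rw [← hs' i, ← hs' j, hij]
  exact ⟨Equiv.ofBijective s (Finite.injective_iff_bijective.1 hinj), funext hs'⟩

theorem DUA_ex' {q r : ℕ} {a : Fin q → Fin (q + r)} {c c' : Fin r → Fin (q + r)}
    (hc : Function.Injective (Fin.append a c)) (hc' : Function.Injective (Fin.append a c')) :
    ∃ s : Equiv.Perm (Fin r), c ∘ s = c' := by
  rw [Fin.append_injective_iff] at hc'
  have hs := (Finite.injective_iff_surjective.1 hc)
  have h1 : ∀ i, ∃ j, c j = c' i := by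
    intro i
    obtain ⟨l, hl⟩ := hs (c' i)
    revert hl
    refine Fin.addCases (fun j hl => ?_) (fun j hl => ?_) l
    · rw [Fin.append_left] at hl
      exact absurd hl (hc'.2.2 j i)
    · exact ⟨j, by rw [Fin.append_right] at hl; exact hl⟩
  choose s hs' using h1
  have hinj : Function.Injective s := by
    intro i j hij
    apply hc'.2.1
    rw [← hs' i, ← hs' j, hij]
  exact ⟨Equiv.ofBijective s (Finite.injective_iff_bijective.1 hinj), funext hs'⟩

theorem DUA_compl {q r : ℕ} {a : Fin q → Fin (q + r)} (ha : Function.Injective a) :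
    ∃ c : Fin r → Fin (q + r), Function.Injective (Fin.append a c) := by
  have hcard : ((Finset.univ.image a)ᶜ).card = r := by
    rw [Finset.card_compl, Finset.card_image_of_injective _ ha, Fintype.card_fin, Finset.card_univ,
      Fintype.card_fin]
    omega
  refine ⟨((Finset.univ.image a)ᶜ).orderEmbOfFin hcard, ?_⟩
  rw [Fin.append_injective_iff]
  refine ⟨ha, (((Finset.univ.image a)ᶜ).orderEmbOfFin hcard).injective, fun i j h => ?_⟩
  have h1 := Finset.orderEmbOfFin_mem ((Finset.univ.image a)ᶜ) hcard j
  rw [Finset.mem_compl, ← h] at h1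
  exact h1 (Finset.mem_image_of_mem _ (Finset.mem_univ _))

/-- the double dual -/
theorem DUA_dd {B : Type} [CommRing B] {q r : ℕ} (x : (Fin q → Fin (q + r)) → B) (hx : Alt x) :
    DUA_z (fun c : Fin r → Fin (q + r) => ∑ b : Fin q → Fin (q + r), DUA_E B (Fin.append b c) * x b) =
      fun a => ((q.factorial : B) * (r.factorial : B)) * x a := by
  funext a
  by_cases ha : Function.Injective a
  · have hin : ∀ c : Fin r → Fin (q + r), Function.Injective (Fin.append a c) →
        DUA_E B (Fin.append a c) * ∑ b : Fin q → Fin (q + r), DUA_E B (Fin.append b c) * x b =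
          (q.factorial : B) * x a := by
      intro c hc
      rw [Finset.mul_sum]
      have hsi : Function.Injective (fun s : Equiv.Perm (Fin q) => a ∘ s) := by
        intro s t h
        ext i
        exact congrArg Fin.val (ha (congrFun h i))
      rw [← Fintype.sum_of_injective (fun s : Equiv.Perm (Fin q) => a ∘ s) hsi (fun _ => x a)]
      · rw [Finset.sum_const, Finset.card_univ, Fintype.card_perm, Fintype.card_fin, nsmul_eq_mul]
      · intro b hb
        by_cases hbi : Function.Injective (Fin.append b c)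
        · exact absurd (DUA_ex hc hbi) hb
        · rw [DUA_E_inj B _ hbi, zero_mul, mul_zero]
      · intro s
        have h1 := (DUA_z_alt (B := B) (q := q) (r := r) (fun c' => if c' = c then 1 else 0)).swap a s
        have h2 : ∀ a' : Fin q → Fin (q + r), DUA_z (B := B) (q := q) (r := r)
            (fun c' => if c' = c then 1 else 0) a' = DUA_E B (Fin.append a' c) := by
          intro a'
          unfold DUA_z
          simp
        rw [h2, h2] at h1
        rw [h1, hx.swap a s]
        have h3 := DUA_E_sq B _ hc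
        have h4 : (((Equiv.Perm.sign s : ℤ) : B)) * ((Equiv.Perm.sign s : ℤ) : B) = 1 := by
          rcases Int.units_eq_one_or (Equiv.Perm.sign s) with h | h <;> simp [h]
        calc x a = (DUA_E B (Fin.append a c) * DUA_E B (Fin.append a c)) *
            ((((Equiv.Perm.sign s : ℤ) : B)) * ((Equiv.Perm.sign s : ℤ) : B)) * x a := by
              rw [h3, h4, one_mul, one_mul]
          _ = _ := by ring
    obtain ⟨c0, hc0⟩ := DUA_compl ha
    unfold DUA_z
    have hsi : Function.Injective (fun s : Equiv.Perm (Fin r) => c0 ∘ s) := by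
      intro s t h
      ext i
      exact congrArg Fin.val ((Fin.append_injective_iff.1 hc0).2.1 (congrFun h i))
    rw [← Fintype.sum_of_injective (fun s : Equiv.Perm (Fin r) => c0 ∘ s) hsi
      (fun _ => (q.factorial : B) * x a)]
    · rw [Finset.sum_const, Finset.card_univ, Fintype.card_perm, Fintype.card_fin, nsmul_eq_mul]
      ring
    · intro c hc
      by_cases hci : Function.Injective (Fin.append a c)
      · exact absurd (DUA_ex' hc0 hci) hc
      · rw [DUA_E_inj B _ hci, zero_mul]
    · intro s
      symm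
      apply hin
      have h5 := Fin.append_injective_iff.1 hc0
      exact Fin.append_injective_iff.2 ⟨h5.1, h5.2.1.comp s.injective, fun i j => h5.2.2 i (s j)⟩
  · unfold Function.Injective at ha
    push Not at ha
    obtain ⟨i, j, h1, h2⟩ := ha
    rw [(DUA_z_alt _).zero a i j h2 h1, hx.zero a i j h2 h1, mul_zero]

theorem DUA_w_alt {B : Type} [CommRing B] {q r : ℕ} (x : (Fin q → Fin (q + r)) → B) :
    Alt (fun c : Fin r → Fin (q + r) => ∑ b : Fin q → Fin (q + r), DUA_E B (Fin.append b c) * x b) := by
  refine ⟨?_, ?_⟩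
  · intro c i j hij h
    refine Finset.sum_eq_zero fun b _ => ?_
    rw [DUA_E_zero B (Fin.append b c) (i := Fin.natAdd q i) (j := Fin.natAdd q j), zero_mul]
    · intro h'
      exact hij (Fin.natAdd_injective r q h')
    · rw [Fin.append_right, Fin.append_right, h]
  · intro c s
    rw [Finset.mul_sum]
    refine Finset.sum_congr rfl fun b _ => ?_
    rw [← mul_assoc]
    congr 1
    have h1 : Fin.append b (c ∘ s) = Fin.append b c ∘
        (finSumFinEquiv.permCongr (Equiv.Perm.sumCongr (1 : Equiv.Perm (Fin q)) s)) := by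
      funext l
      refine Fin.addCases (fun i => ?_) (fun i => ?_) l
      · simp
      · simp
    rw [h1, DUA_E_perm, Equiv.Perm.sign_permCongr, Equiv.Perm.sign_sumCongr, Equiv.Perm.sign_one, one_mul]

/-- the dual polynomial -/
def DUA_f {k : Type} [Field k] {q r : ℕ} (f : MvPolynomial (Fin q ↪o Fin (q + r)) k) :
    MvPolynomial (Fin r ↪o Fin (q + r)) k :=
  MvPolynomial.aeval (fun I : Fin q ↪o Fin (q + r) => DUA_z (ext (MvPolynomial.X :
    (Fin r ↪o Fin (q + r)) → MvPolynomial (Fin r ↪o Fin (q + r)) k)) I) f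

theorem DUA_E_map {B B' : Type} [CommRing B] [CommRing B'] (ρ : B →+* B') {d : ℕ} (s : Fin d → Fin d) :
    ρ (DUA_E B s) = DUA_E B' s := by
  unfold DUA_E
  rw [RingHom.map_det]
  congr 1
  ext i j : 2
  simp only [Matrix.of_apply, RingHom.mapMatrix_apply, Matrix.map_apply]
  split_ifs <;> simp

theorem DUA_z_map {B B' : Type} [CommRing B] [CommRing B'] (ρ : B →+* B') {q r : ℕ}
    (x : (Fin r → Fin (q + r)) → B) (a : Fin q → Fin (q + r)) :
    ρ (DUA_z x a) = DUA_z (fun c => ρ (x c)) a := by
  unfold DUA_z
  rw [map_sum]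
  refine Finset.sum_congr rfl fun c _ => ?_
  rw [map_mul, DUA_E_map]

theorem DUA_eval (hUAR : Stmt_UAR) {k : Type} [Field k] {q r : ℕ}
    (f : MvPolynomial (Fin q ↪o Fin (q + r)) k) (y : (Fin r ↪o Fin (q + r)) → k) :
    MvPolynomial.eval y (DUA_f f) = MvPolynomial.eval (fun I : Fin q ↪o Fin (q + r) => DUA_z (ext y) I) f := by
  have h1 : ∀ I : Fin q ↪o Fin (q + r), MvPolynomial.eval y (DUA_z (ext (MvPolynomial.X :
      (Fin r ↪o Fin (q + r)) → MvPolynomial (Fin r ↪o Fin (q + r)) k)) I) = DUA_z (ext y) I := by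
    intro I
    rw [DUA_z_map]
    have h := (hUAR (MvPolynomial (Fin r ↪o Fin (q + r)) k)).2.2.2 k (MvPolynomial.eval y) (q + r) r
      MvPolynomial.X
    rw [h]
    simp only [MvPolynomial.eval_X]
  unfold DUA_f
  induction f using MvPolynomial.induction_on with
  | C a => simp
  | add p q hp hq => rw [map_add, map_add, map_add, hp, hq]
  | mul_X p I hp => rw [map_mul, map_mul, map_mul, hp, MvPolynomial.aeval_X, MvPolynomial.eval_X, h1]

theorem DUA_hom {k : Type} [Field k] {q r m : ℕ}
    {f : MvPolynomial (Fin q ↪o Fin (q + r)) k} (hf : f.IsHomogeneous m) :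
    (DUA_f f).IsHomogeneous m := by
  have h := hf.aeval (fun I : Fin q ↪o Fin (q + r) => DUA_z (ext (MvPolynomial.X :
    (Fin r ↪o Fin (q + r)) → MvPolynomial (Fin r ↪o Fin (q + r)) k)) I) (n := 1) (fun I => by
      unfold DUA_z
      refine MvPolynomial.IsHomogeneous.sum _ _ _ fun c _ => ?_
      have h1 : (ext (MvPolynomial.X : (Fin r ↪o Fin (q + r)) →
          MvPolynomial (Fin r ↪o Fin (q + r)) k) c).IsHomogeneous 1 := by
        unfold ext
        refine MvPolynomial.IsHomogeneous.sum _ _ _ fun J _ => ?_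
        have h2 : (Matrix.of fun i j : Fin r => if c i = J j then
            (1 : MvPolynomial (Fin r ↪o Fin (q + r)) k) else 0).det =
            MvPolynomial.C (Matrix.of fun i j : Fin r => if c i = J j then (1 : k) else 0).det := by
          rw [RingHom.map_det]
          congr 1
          ext i j : 2
          simp only [Matrix.of_apply, RingHom.mapMatrix_apply, Matrix.map_apply]
          split_ifs <;> simp
        rw [h2]
        have h3 := (MvPolynomial.isHomogeneous_C (Fin r ↪o Fin (q + r))
          (Matrix.of fun i j : Fin r => if c i = J j then (1 : k) else 0).det).mul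
            (MvPolynomial.isHomogeneous_X k J)
        simpa using h3
      rw [← DUA_E_map (MvPolynomial.C : k →+* MvPolynomial (Fin r ↪o Fin (q + r)) k)]
      have h4 := (MvPolynomial.isHomogeneous_C (Fin r ↪o Fin (q + r))
        (DUA_E k (Fin.append (I : Fin q → Fin (q + r)) c))).mul h1
      simpa using h4)
  rw [one_mul] at h
  exact h

theorem DUA_smul {k : Type} [Field k] {σ : Type} {m : ℕ} {f : MvPolynomial σ k}
    (hf : f.IsHomogeneous m) (t : k) (x : σ → k) :
    MvPolynomial.eval (fun i => t * x i) f = t ^ m * MvPolynomial.eval x f := by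
  rw [MvPolynomial.eval_eq, MvPolynomial.eval_eq, Finset.mul_sum]
  refine Finset.sum_congr rfl fun d hd => ?_
  have h1 : ∑ i ∈ d.support, d i = m := by
    have := hf (MvPolynomial.mem_support_iff.1 hd)
    rw [← this, Finsupp.weight_apply]
    simp [Finsupp.sum]
  simp only [mul_pow, Finset.prod_mul_distrib, Finset.prod_pow_eq_pow_sum, h1]
  ring

theorem p_DUA (hACT : Stmt_ACT) (hUAR : Stmt_UAR) : Stmt_DUA := by
  intro k _ _ d q r hd hs
  subst hd
  obtain ⟨m, f, hm, hf, hhom, hinv⟩ := hs
  refine ⟨m, DUA_f f, hm, ?_, DUA_hom hhom, ?_⟩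
  · intro h0
    obtain ⟨w, hw⟩ : ∃ w : (Fin q ↪o Fin (q + r)) → k, MvPolynomial.eval w f ≠ 0 := by
      by_contra hcon
      push Not at hcon
      apply hf
      apply MvPolynomial.funext
      intro w
      rw [hcon w, map_zero]
    have hx : Alt (ext w) := (hUAR k).1 (q + r) q w
    have hN : ((q.factorial : k) * (r.factorial : k)) ≠ 0 := by
      apply mul_ne_zero
      · exact_mod_cast q.factorial_ne_zero
      · exact_mod_cast r.factorial_ne_zero
    have h1 := DUA_dd (ext w) hx
    have h2 := (hUAR k).2.2.1 (q + r) r _ (DUA_w_alt (r := r) (ext w))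
    have h3 := DUA_eval hUAR f (fun I : Fin r ↪o Fin (q + r) =>
      ∑ b : Fin q → Fin (q + r), DUA_E k (Fin.append b (I : Fin r → Fin (q + r))) * ext w b)
    rw [h2, h1, h0, map_zero] at h3
    have h4 : (fun I : Fin q ↪o Fin (q + r) => (fun a => ((q.factorial : k) * (r.factorial : k)) * ext w a)
        (I : Fin q → Fin (q + r))) = fun I : Fin q ↪o Fin (q + r) =>
        ((q.factorial : k) * (r.factorial : k)) * w I := by
      funext I
      change _ * ext w I = _
      rw [(hUAR k).2.1 (q + r) q w I]
    rw [h4, DUA_smul hhom] at h3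
    exact mul_ne_zero (pow_ne_zero _ hN) hw h3.symm
  · intro g hg
    have hgt : (g.transpose)⁻¹ * g.transpose = 1 := by
      apply Matrix.nonsing_inv_mul
      rw [Matrix.det_transpose]
      exact isUnit_iff_ne_zero.2 hg
    have hdet : ((g.transpose)⁻¹).det ≠ 0 := by
      intro h
      have h1 := congrArg Matrix.det hgt
      rw [Matrix.det_mul, h, zero_mul, Matrix.det_one] at h1
      exact zero_ne_one h1
    obtain ⟨u, hu⟩ := hinv _ hdet
    refine ⟨g.det ^ m * u, fun y => ?_⟩
    rw [DUA_eval hUAR, DUA_eval hUAR]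
    have h1 : Alt (act g (ext y)) := (hACT k).2.2.1 (q + r) (q + r) r g (ext y) ((hUAR k).1 (q + r) r y)
    rw [(hUAR k).2.2.1 (q + r) r (act g (ext y)) h1]
    have h2 := DUA_equiv g (ext y)
    have h3 : DUA_z (q := q) (act g (ext y)) = fun a => g.det * act (g.transpose)⁻¹ (DUA_z (ext y)) a := by
      have h4 := congrArg (act (g.transpose)⁻¹) h2
      rw [(hACT k).1, hgt, (hACT k).2.1] at h4
      rw [h4]
      funext a
      unfold act
      rw [Finset.mul_sum]
      refine Finset.sum_congr rfl fun c _ => ?_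
      ring
    rw [h3]
    have h5 := (hUAR k).2.2.1 (q + r) q (DUA_z (ext y)) (DUA_z_alt (ext y))
    have h6 := hu (fun I : Fin q ↪o Fin (q + r) => DUA_z (ext y) I)
    rw [h5] at h6
    have h7 := DUA_smul hhom g.det (fun I : Fin q ↪o Fin (q + r) =>
      act (g.transpose)⁻¹ (DUA_z (ext y)) I)
    rw [h6] at h7
    rw [h7, mul_assoc]

end Pool.SF
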