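import Pool.Agent.Work.MP_bf99ce_sf.Interface

set_option autoImplicit false

open AlgebraicGeometry CategoryTheory

noncomputable section

namespace Pool.SF

/-- the alternating map -/
def EVC_alt {K W : Type} [Field K] [AddCommGroup W] [Module K W] {n d : ℕ}
    (e : Module.Basis (Fin n) K W) (c : Fin d → Fin n) : W [⋀^Fin d]→ₗ[K] K :=
  (Matrix.detRowAlternating (n := Fin d) (R := K)).compLinearMap
    (LinearMap.pi fun j => e.coord (c j))

theorem EVC_alt_apply {K W : Type} [Field K] [AddCommGroup W] [Module K W] {n d : ℕ}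
    (e : Module.Basis (Fin n) K W) (c : Fin d → Fin n) (w : Fin d → W) :
    EVC_alt e c w = (Matrix.of fun i j => e.repr (w i) (c j)).det := rfl

/-- the homomorphism -/
def EVC_h {K W : Type} [Field K] [AddCommGroup W] [Module K W] {n d : ℕ}
    (e : Module.Basis (Fin n) K W) (c : Fin d → Fin n) : SA K W d →ₐ[K] K :=
  SymmetricAlgebra.lift (exteriorPower.alternatingMapLinearEquiv (EVC_alt e c))

theorem EVC_h_wdg {K W : Type} [Field K] [AddCommGroup W] [Module K W] {n d : ℕ}
    (e : Module.Basis (Fin n) K W) (c : Fin d → Fin n) (w : Fin d → W) :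
    EVC_h e c (wdg K d w) = (Matrix.of fun i j => e.repr (w i) (c j)).det := by
  unfold EVC_h wdg
  rw [SymmetricAlgebra.lift_ι_apply, exteriorPower.alternatingMapLinearEquiv_apply_ιMulti,
    EVC_alt_apply]

theorem EVC_det_mem {K : Type} [Field K] (R : Subring K) {d : ℕ} (A : Matrix (Fin d) (Fin d) K)
    (hA : ∀ i j, A i j ∈ R) : A.det ∈ R := by
  rw [Matrix.det_apply]
  refine Subring.sum_mem _ fun s _ => ?_
  have h : ∏ i, A (s i) i ∈ R := Subring.prod_mem _ fun i _ => hA _ _
  rcases Int.units_eq_one_or (Equiv.Perm.sign s) with h1 | h1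
  · rw [h1, one_smul]
    exact h
  · rw [h1, Units.neg_smul, one_smul]
    exact Subring.neg_mem _ h

theorem p_EVC : Stmt_EVC := by
  intro K W _ _ _ n d e c
  refine ⟨EVC_h e c, EVC_h_wdg e c, ?_⟩
  intro R p z hz
  unfold Lat at hz
  induction hz using Submodule.span_induction with
  | mem z hz =>
    obtain ⟨w, hw, rfl⟩ := hz
    rw [map_prod]
    refine Subring.prod_mem _ fun j _ => ?_
    rw [EVC_h_wdg]
    refine EVC_det_mem R _ fun i l => ?_
    obtain ⟨m, hm⟩ := hw j i
    show e.repr (w j i) (c l) ∈ R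
    rw [← hm, Module.Basis.repr_self, Finsupp.single_apply]
    split_ifs
    · exact Subring.one_mem _
    · exact Subring.zero_mem _
  | zero =>
    rw [map_zero]
    exact Subring.zero_mem _
  | add x y _ _ hx hy =>
    rw [map_add]
    exact Subring.add_mem _ hx hy
  | smul r x _ hx =>
    have h1 : r • x = (r : K) • x := rfl
    rw [h1, map_smul, smul_eq_mul]
    exact Subring.mul_mem _ r.2 hx

end Pool.SF
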