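import Pool.Agent.Work.MP_bf99ce_sf.Interface

/-! # Block GN6: the Gram matrix of two disjoint triples (MP_bf99ce, THEOREM SF) -/

set_option autoImplicit false

noncomputable section

namespace Pool.SF

/-- the alternating array with value one at `012` and `345` -/
def GN6_e (a b c : Fin 6) : ℤ :=
  let n := a.val * 36 + b.val * 6 + c.val
  if (Nat.beq n 8 || Nat.beq n 48 || Nat.beq n 73 || Nat.beq n 137 || Nat.beq n 177 ||
    Nat.beq n 202) = true then 1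
  else if (Nat.beq n 13 || Nat.beq n 38 || Nat.beq n 78 || Nat.beq n 142 || Nat.beq n 167 ||
    Nat.beq n 207) = true then -1
  else 0

def GN6_h (a b c : Fin 6) (x y z : Fin 6) : ℤ :=
  GN6_e a b x * GN6_e c y z - GN6_e a b y * GN6_e c x z - GN6_e a b z * GN6_e c y x
    - GN6_e a b x * GN6_e c z y + GN6_e a b y * GN6_e c z x + GN6_e a b z * GN6_e c x y

def GN6_g (a b c : Fin 6) (x y z : Fin 6) : ℤ :=
  GN6_h a b c x y z - GN6_h b a c x y z - GN6_h c b a x y z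
    - GN6_h a c b x y z + GN6_h b c a x y z + GN6_h c a b x y z

theorem GN6_dec : ∀ d e f : Fin 6, d < e → e < f → ∃ a b c : Fin 6, a < b ∧ b < c ∧
    GN6_g a b c d e f ≠ 0 ∧ ∀ d' e' f' : Fin 6, d' < e' → e' < f' →
      ¬ (d' = d ∧ e' = e ∧ f' = f) → GN6_g a b c d' e' f' = 0 := by
  decide +kernel

theorem GN6_univ : (Finset.univ : Finset (Equiv.Perm (Fin 3))) =
    {1, Equiv.swap 0 1, Equiv.swap 0 2, Equiv.swap 1 2, Equiv.swap 0 1 * Equiv.swap 1 2,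
      Equiv.swap 1 2 * Equiv.swap 0 1} := by
  decide +kernel

theorem GN6_sum (F : ℤ → Fin 3 → Fin 3 → Fin 3 → ℤ) :
    ∑ σ : Equiv.Perm (Fin 3), F (Equiv.Perm.sign σ : ℤ) (σ 0) (σ 1) (σ 2) =
      F 1 0 1 2 + F (-1) 1 0 2 + F (-1) 2 1 0 + F (-1) 0 2 1 + F 1 1 2 0 + F 1 2 0 1 := by
  rw [GN6_univ, Finset.sum_insert (by decide +kernel), Finset.sum_insert (by decide +kernel),
    Finset.sum_insert (by decide +kernel), Finset.sum_insert (by decide +kernel),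
    Finset.sum_insert (by decide +kernel), Finset.sum_singleton]
  have h1 : ((Equiv.Perm.sign (1 : Equiv.Perm (Fin 3)) : ℤˣ) : ℤ) = 1 := by decide +kernel
  have h2 : ((Equiv.Perm.sign (Equiv.swap 0 1 : Equiv.Perm (Fin 3)) : ℤˣ) : ℤ) = -1 := by
    decide +kernel
  have h3 : ((Equiv.Perm.sign (Equiv.swap 0 2 : Equiv.Perm (Fin 3)) : ℤˣ) : ℤ) = -1 := by
    decide +kernel
  have h4 : ((Equiv.Perm.sign (Equiv.swap 1 2 : Equiv.Perm (Fin 3)) : ℤˣ) : ℤ) = -1 := by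
    decide +kernel
  have h5 : ((Equiv.Perm.sign (Equiv.swap 0 1 * Equiv.swap 1 2 : Equiv.Perm (Fin 3)) : ℤˣ) : ℤ)
      = 1 := by decide +kernel
  have h6 : ((Equiv.Perm.sign (Equiv.swap 1 2 * Equiv.swap 0 1 : Equiv.Perm (Fin 3)) : ℤˣ) : ℤ)
      = 1 := by decide +kernel
  rw [h1, h2, h3, h4, h5, h6]
  have g1 : ∀ i, (1 : Equiv.Perm (Fin 3)) i = i := fun i => rfl
  have e1 : (Equiv.swap 0 1 : Equiv.Perm (Fin 3)) 0 = 1 := by decide
  have e2 : (Equiv.swap 0 1 : Equiv.Perm (Fin 3)) 1 = 0 := by decide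
  have e3 : (Equiv.swap 0 1 : Equiv.Perm (Fin 3)) 2 = 2 := by decide
  have e4 : (Equiv.swap 0 2 : Equiv.Perm (Fin 3)) 0 = 2 := by decide
  have e5 : (Equiv.swap 0 2 : Equiv.Perm (Fin 3)) 1 = 1 := by decide
  have e6 : (Equiv.swap 0 2 : Equiv.Perm (Fin 3)) 2 = 0 := by decide
  have e7 : (Equiv.swap 1 2 : Equiv.Perm (Fin 3)) 0 = 0 := by decide
  have e8 : (Equiv.swap 1 2 : Equiv.Perm (Fin 3)) 1 = 2 := by decide
  have e9 : (Equiv.swap 1 2 : Equiv.Perm (Fin 3)) 2 = 1 := by decide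
  simp only [g1, Equiv.Perm.mul_apply, e1, e2, e3, e4, e5, e6, e7, e8, e9]
  ring

def GN6_I0 : Fin 3 ↪o Fin 6 := OrderEmbedding.ofStrictMono ![0, 1, 2] (by
  intro i j h
  fin_cases i <;> fin_cases j <;> simp_all)

def GN6_I1 : Fin 3 ↪o Fin 6 := OrderEmbedding.ofStrictMono ![3, 4, 5] (by
  intro i j h
  fin_cases i <;> fin_cases j <;> simp_all)

def GN6_y (I : Fin 3 ↪o Fin 6) : ℤ := (if I = GN6_I0 then 1 else 0) + (if I = GN6_I1 then 1 else 0)

theorem GN6_ext (a b c : Fin 6) : ext GN6_y ![a, b, c] = GN6_e a b c := by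
  have h1 : ext GN6_y ![a, b, c] =
      (Matrix.of fun i j : Fin 3 => if ![a, b, c] i = GN6_I0 j then (1 : ℤ) else 0).det +
      (Matrix.of fun i j : Fin 3 => if ![a, b, c] i = GN6_I1 j then (1 : ℤ) else 0).det := by
    unfold ext GN6_y
    simp only [mul_add, Finset.sum_add_distrib, mul_ite, mul_one, mul_zero, Finset.sum_ite_eq',
      Finset.mem_univ, if_true]
  rw [h1, Matrix.det_fin_three, Matrix.det_fin_three]
  have i0 : GN6_I0 0 = 0 := rfl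
  have i1 : GN6_I0 1 = 1 := rfl
  have i2 : GN6_I0 2 = 2 := rfl
  have i3 : GN6_I1 0 = 3 := rfl
  have i4 : GN6_I1 1 = 4 := rfl
  have i5 : GN6_I1 2 = 5 := rfl
  simp only [Matrix.of_apply, i0, i1, i2, i3, i4, i5, Matrix.cons_val_zero, Matrix.cons_val_one,
    Matrix.cons_val]
  clear h1 i0 i1 i2 i3 i4 i5
  revert a b c
  decide +kernel

theorem p_GN6 : Stmt_GN6 := by
  refine ⟨GN6_y, ?_⟩
  set G : Matrix (Fin 3 ↪o Fin 6) (Fin 3 ↪o Fin 6) ℤ :=
    Matrix.of fun I J : Fin 3 ↪o Fin 6 => ∑ σ : Equiv.Perm (Fin 3),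
      ∑ τ : Equiv.Perm (Fin 3), ((Equiv.Perm.sign σ : ℤ)) * ((Equiv.Perm.sign τ : ℤ)) *
        ext GN6_y ![I (σ 0), I (σ 1), J (τ 0)] * ext GN6_y ![I (σ 2), J (τ 1), J (τ 2)] with hG
  have hGv : ∀ I J, G I J = GN6_g (I 0) (I 1) (I 2) (J 0) (J 1) (J 2) := by
    intro I J
    have h2 : G I J = ∑ σ : Equiv.Perm (Fin 3), ∑ τ : Equiv.Perm (Fin 3),
        (Equiv.Perm.sign σ : ℤ) * (Equiv.Perm.sign τ : ℤ) *
          GN6_e (I (σ 0)) (I (σ 1)) (J (τ 0)) * GN6_e (I (σ 2)) (J (τ 1)) (J (τ 2)) := by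
      simp only [hG, Matrix.of_apply, GN6_ext]
    have h3 : ∀ (s : ℤ) (p q r : Fin 3), ∑ τ : Equiv.Perm (Fin 3),
        s * (Equiv.Perm.sign τ : ℤ) * GN6_e (I p) (I q) (J (τ 0)) * GN6_e (I r) (J (τ 1)) (J (τ 2))
          = s * GN6_h (I p) (I q) (I r) (J 0) (J 1) (J 2) := by
      intro s p q r
      refine (GN6_sum fun t x y z => s * t * GN6_e (I p) (I q) (J x) *
        GN6_e (I r) (J y) (J z)).trans ?_
      unfold GN6_h
      ring
    rw [h2]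
    refine (Finset.sum_congr rfl fun σ _ => h3 (Equiv.Perm.sign σ : ℤ) (σ 0) (σ 1) (σ 2)).trans ?_
    refine (GN6_sum fun s p q r => s * GN6_h (I p) (I q) (I r) (J 0) (J 1) (J 2)).trans ?_
    unfold GN6_g
    ring
  intro h0
  obtain ⟨v, hv, hGv0⟩ := Matrix.exists_mulVec_eq_zero_iff.2 h0
  apply hv
  funext J₀
  have hlt : ∀ J : Fin 3 ↪o Fin 6, J 0 < J 1 ∧ J 1 < J 2 := fun J =>
    ⟨J.strictMono (by decide), J.strictMono (by decide)⟩
  obtain ⟨a, b, c, hab, hbc, hne, hz⟩ := GN6_dec (J₀ 0) (J₀ 1) (J₀ 2) (hlt J₀).1 (hlt J₀).2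
  have hsm : StrictMono (![a, b, c] : Fin 3 → Fin 6) := by
    intro i j hij
    have := hab.trans hbc
    fin_cases i <;> fin_cases j <;> simp_all
  set I : Fin 3 ↪o Fin 6 := OrderEmbedding.ofStrictMono ![a, b, c] hsm with hI
  have hI0 : I 0 = a := rfl
  have hI1 : I 1 = b := rfl
  have hI2 : I 2 = c := rfl
  have h3 := congrFun hGv0 I
  rw [Matrix.mulVec, dotProduct] at h3
  rw [Finset.sum_eq_single J₀] at h3
  · rw [hGv, hI0, hI1, hI2] at h3
    rcases mul_eq_zero.1 h3 with h4 | h4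
    · exact absurd h4 hne
    · exact h4
  · intro J _ hJ
    rw [hGv, hI0, hI1, hI2, hz _ _ _ (hlt J).1 (hlt J).2, zero_mul]
    rintro ⟨e0, e1, e2⟩
    apply hJ
    ext i
    fin_cases i
    · exact congrArg Fin.val e0
    · exact congrArg Fin.val e1
    · exact congrArg Fin.val e2
  · intro h
    exact absurd (Finset.mem_univ _) h

end Pool.SF
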