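import Pool.Agent.Work.MP_bf99ce_sf.Interface

/-!
# Block GN7 (MP_bf99ce_ag, THEOREM SF): a nondegenerate alternating array in dimension 7

The signed indicator of the Fano plane; the matrix of the statement times an explicit integer matrix is `72 • 1`.
-/

set_option autoImplicit false

noncomputable section

namespace Pool.SF

/-- an alternating array is the extension of its values at the increasing tuples -/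
lemma GN7_ext {B : Type} [CommRing B] {d q : ℕ} (x : (Fin q → Fin d) → B) (hx : Alt x)
    (a : Fin q → Fin d) : ext (fun I : Fin q ↪o Fin d => x I) a = x a := by
  unfold ext
  by_cases ha : Function.Injective a
  · set s := Tuple.sort a with hs
    have hm : StrictMono (a ∘ s) :=
      (Tuple.monotone_sort a).strictMono_of_injective (ha.comp s.injective)
    rw [Finset.sum_eq_single (OrderEmbedding.ofStrictMono (a ∘ s) hm)]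
    · have h1 : (Matrix.of fun i j : Fin q =>
          if a i = (OrderEmbedding.ofStrictMono (a ∘ s) hm) j then (1 : B) else 0) =
          (s.symm).toPEquiv.toMatrix := by
        ext i j
        simp only [Matrix.of_apply, OrderEmbedding.coe_ofStrictMono, Function.comp_apply,
          PEquiv.toMatrix_apply, Equiv.toPEquiv_apply, Option.mem_def, Option.some.injEq]
        congr 1
        apply propext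
        constructor
        · intro h
          rw [ha h]
          simp
        · intro h
          rw [← h]
          simp
      rw [h1, Matrix.det_permutation]
      have h2 : x (OrderEmbedding.ofStrictMono (a ∘ s) hm) = ((Equiv.Perm.sign s : ℤ) : B) * x a := by
        rw [OrderEmbedding.coe_ofStrictMono]
        exact hx.swap a s
      beta_reduce
      rw [h2, Equiv.Perm.sign_symm, ← mul_assoc, ← Int.cast_mul, ← Units.val_mul, Int.units_mul_self]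
      simp
    · intro I _ hI
      have h0 : ∃ i, ∀ j, a i ≠ I j := by
        by_contra hcon
        push Not at hcon
        choose τ hτ using hcon
        have hτi : Function.Injective τ := fun i j h => ha (by rw [hτ i, hτ j, h])
        have hτs : Function.Surjective τ := Finite.injective_iff_surjective.1 hτi
        apply hI
        rw [← OrderEmbedding.range_inj]
        ext u
        constructor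
        · rintro ⟨j, rfl⟩
          obtain ⟨i, rfl⟩ := hτs j
          refine ⟨s.symm i, ?_⟩
          simp [hτ i]
        · rintro ⟨j, rfl⟩
          exact ⟨τ (s j), by simp [hτ (s j)]⟩
      obtain ⟨i, hi⟩ := h0
      rw [Matrix.det_eq_zero_of_row_eq_zero i, zero_mul]
      intro j
      simp [hi j]
    · intro h
      exact absurd (Finset.mem_univ _) h
  · obtain ⟨i, j, hij, hne⟩ : ∃ i j, a i = a j ∧ i ≠ j := by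
      simp only [Function.Injective, not_forall] at ha
      obtain ⟨i, j, h, h'⟩ := ha
      exact ⟨i, j, h, h'⟩
    rw [hx.zero a i j hne hij]
    apply Finset.sum_eq_zero
    intro I _
    rw [Matrix.det_zero_of_row_eq hne, zero_mul]
    funext l
    simp [hij]

/-- the permutations of three elements -/
lemma GN7_perm : ∀ s : Equiv.Perm (Fin 3),
    (s 0 = 0 ∧ s 1 = 1 ∧ s 2 = 2 ∧ Equiv.Perm.sign s = 1) ∨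
    (s 0 = 0 ∧ s 1 = 2 ∧ s 2 = 1 ∧ Equiv.Perm.sign s = -1) ∨
    (s 0 = 1 ∧ s 1 = 0 ∧ s 2 = 2 ∧ Equiv.Perm.sign s = -1) ∨
    (s 0 = 1 ∧ s 1 = 2 ∧ s 2 = 0 ∧ Equiv.Perm.sign s = 1) ∨
    (s 0 = 2 ∧ s 1 = 0 ∧ s 2 = 1 ∧ Equiv.Perm.sign s = 1) ∨
    (s 0 = 2 ∧ s 1 = 1 ∧ s 2 = 0 ∧ Equiv.Perm.sign s = -1) := by
  decide +kernel

/-- alternating sums over the permutations of three elements -/
def GN7_alt (f : Fin 3 → Fin 3 → Fin 3 → ℤ) : ℤ :=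
  f 0 1 2 - f 0 2 1 - f 1 0 2 + f 1 2 0 + f 2 0 1 - f 2 1 0

lemma GN7_sum (f : Fin 3 → Fin 3 → Fin 3 → ℤ) :
    ∑ σ : Equiv.Perm (Fin 3), ((Equiv.Perm.sign σ : ℤ)) * f (σ 0) (σ 1) (σ 2) = GN7_alt f := by
  have hu : (Finset.univ : Finset (Equiv.Perm (Fin 3))) =
      {1, Equiv.swap 1 2, Equiv.swap 0 1, Equiv.swap 0 1 * Equiv.swap 1 2,
        Equiv.swap 1 2 * Equiv.swap 0 1, Equiv.swap 0 2} := by decide +kernel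
  have n1 : (1 : Equiv.Perm (Fin 3)) ∉ ({Equiv.swap 1 2, Equiv.swap 0 1,
      Equiv.swap 0 1 * Equiv.swap 1 2, Equiv.swap 1 2 * Equiv.swap 0 1, Equiv.swap 0 2} :
      Finset (Equiv.Perm (Fin 3))) := by decide +kernel
  have n2 : (Equiv.swap 1 2 : Equiv.Perm (Fin 3)) ∉ ({Equiv.swap 0 1,
      Equiv.swap 0 1 * Equiv.swap 1 2, Equiv.swap 1 2 * Equiv.swap 0 1, Equiv.swap 0 2} :
      Finset (Equiv.Perm (Fin 3))) := by decide +kernel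
  have n3 : (Equiv.swap 0 1 : Equiv.Perm (Fin 3)) ∉ ({
      Equiv.swap 0 1 * Equiv.swap 1 2, Equiv.swap 1 2 * Equiv.swap 0 1, Equiv.swap 0 2} :
      Finset (Equiv.Perm (Fin 3))) := by decide +kernel
  have n4 : (Equiv.swap 0 1 * Equiv.swap 1 2 : Equiv.Perm (Fin 3)) ∉
      ({Equiv.swap 1 2 * Equiv.swap 0 1, Equiv.swap 0 2} :
      Finset (Equiv.Perm (Fin 3))) := by decide +kernel
  have n5 : (Equiv.swap 1 2 * Equiv.swap 0 1 : Equiv.Perm (Fin 3)) ∉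
      ({Equiv.swap 0 2} : Finset (Equiv.Perm (Fin 3))) := by decide +kernel
  rw [hu, Finset.sum_insert n1, Finset.sum_insert n2, Finset.sum_insert n3, Finset.sum_insert n4,
    Finset.sum_insert n5, Finset.sum_singleton]
  have v1 : (Equiv.swap 0 1 * Equiv.swap 1 2 : Equiv.Perm (Fin 3)) 0 = 1 ∧
      (Equiv.swap 0 1 * Equiv.swap 1 2 : Equiv.Perm (Fin 3)) 1 = 2 ∧
      (Equiv.swap 0 1 * Equiv.swap 1 2 : Equiv.Perm (Fin 3)) 2 = 0 ∧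
      Equiv.Perm.sign (Equiv.swap 0 1 * Equiv.swap 1 2 : Equiv.Perm (Fin 3)) = 1 := by
    decide +kernel
  have v2 : (Equiv.swap 1 2 * Equiv.swap 0 1 : Equiv.Perm (Fin 3)) 0 = 2 ∧
      (Equiv.swap 1 2 * Equiv.swap 0 1 : Equiv.Perm (Fin 3)) 1 = 0 ∧
      (Equiv.swap 1 2 * Equiv.swap 0 1 : Equiv.Perm (Fin 3)) 2 = 1 ∧
      Equiv.Perm.sign (Equiv.swap 1 2 * Equiv.swap 0 1 : Equiv.Perm (Fin 3)) = 1 := by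
    decide +kernel
  have v3 : (Equiv.swap 1 2 : Equiv.Perm (Fin 3)) 0 = 0 ∧
      (Equiv.swap 1 2 : Equiv.Perm (Fin 3)) 1 = 2 ∧
      (Equiv.swap 1 2 : Equiv.Perm (Fin 3)) 2 = 1 ∧
      Equiv.Perm.sign (Equiv.swap 1 2 : Equiv.Perm (Fin 3)) = -1 := by
    decide +kernel
  have v4 : (Equiv.swap 0 1 : Equiv.Perm (Fin 3)) 0 = 1 ∧
      (Equiv.swap 0 1 : Equiv.Perm (Fin 3)) 1 = 0 ∧
      (Equiv.swap 0 1 : Equiv.Perm (Fin 3)) 2 = 2 ∧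
      Equiv.Perm.sign (Equiv.swap 0 1 : Equiv.Perm (Fin 3)) = -1 := by
    decide +kernel
  have v5 : (Equiv.swap 0 2 : Equiv.Perm (Fin 3)) 0 = 2 ∧
      (Equiv.swap 0 2 : Equiv.Perm (Fin 3)) 1 = 1 ∧
      (Equiv.swap 0 2 : Equiv.Perm (Fin 3)) 2 = 0 ∧
      Equiv.Perm.sign (Equiv.swap 0 2 : Equiv.Perm (Fin 3)) = -1 := by
    decide +kernel
  rw [v1.1, v1.2.1, v1.2.2.1, v1.2.2.2, v2.1, v2.2.1, v2.2.2.1, v2.2.2.2, v3.1, v3.2.1, v3.2.2.1,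
    v3.2.2.2, v4.1, v4.2.1, v4.2.2.1, v4.2.2.2, v5.1, v5.2.1, v5.2.2.1, v5.2.2.2]
  unfold GN7_alt
  simp
  ring

/-- the code of the array: the digits in base 4 of this number are the values plus one -/
def GN7_N : ℕ := 107017734093676666336248132478107471637836930107168153608140336270997217947111595166975699534452797436273221134204254667767625364034176686837840244914220797379214424257084458843263693451046921010975024174421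

/-- the signed indicator of the Fano plane -/
def GN7_x (a b c : Fin 7) : ℤ :=
  ((GN7_N / 4 ^ (49 * (a : ℕ) + 7 * (b : ℕ) + (c : ℕ))) % 4 : ℕ) - 1

lemma GN7_x_alt : ∀ a b c : Fin 7, GN7_x a a c = 0 ∧ GN7_x a b b = 0 ∧ GN7_x a b a = 0 ∧
    GN7_x a c b = - GN7_x a b c ∧ GN7_x b a c = - GN7_x a b c ∧ GN7_x b c a = GN7_x a b c ∧
    GN7_x c a b = GN7_x a b c ∧ GN7_x c b a = - GN7_x a b c := by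
  decide +kernel

lemma GN7_Alt : Alt (fun a : Fin 3 → Fin 7 => GN7_x (a 0) (a 1) (a 2)) := by
  refine ⟨?_, ?_⟩
  · intro a i j hij h
    have h1 := fun a b c => (GN7_x_alt a b c).1
    have h2 := fun a b c => (GN7_x_alt a b c).2.1
    have h3 := fun a b c => (GN7_x_alt a b c).2.2.1
    fin_cases i <;> fin_cases j <;> simp_all
  · intro a s
    have hh := GN7_x_alt (a 0) (a 1) (a 2)
    rcases GN7_perm s with h | h | h | h | h | h <;> obtain ⟨h0, h1, h2, h3⟩ := h <;>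
      simp [h0, h1, h2, h3, hh]

/-- the increasing triples -/
def GN7_T (i : Fin 35) : Fin 7 × Fin 7 × Fin 7 :=
  ([(0, 1, 2), (0, 1, 3), (0, 1, 4), (0, 1, 5), (0, 1, 6), (0, 2, 3), (0, 2, 4), (0, 2, 5), (0, 2, 6), (0, 3, 4),
    (0, 3, 5), (0, 3, 6), (0, 4, 5), (0, 4, 6), (0, 5, 6), (1, 2, 3), (1, 2, 4), (1, 2, 5), (1, 2, 6), (1, 3,
    4), (1, 3, 5), (1, 3, 6), (1, 4, 5), (1, 4, 6), (1, 5, 6), (2, 3, 4), (2, 3, 5), (2, 3, 6), (2, 4, 5), (2,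
    4, 6), (2, 5, 6), (3, 4, 5), (3, 4, 6), (3, 5, 6), (4, 5, 6)] :
    List (Fin 7 × Fin 7 × Fin 7)).getD i (0, 0, 0)

lemma GN7_T_lt : ∀ i : Fin 35, (GN7_T i).1 < (GN7_T i).2.1 ∧ (GN7_T i).2.1 < (GN7_T i).2.2 := by
  decide +kernel

lemma GN7_T_inj : ∀ i j : Fin 35, GN7_T i = GN7_T j → i = j := by
  decide +kernel

lemma GN7_T_surj : ∀ a b c : Fin 7, a < b → b < c → ∃ i : Fin 35, GN7_T i = (a, b, c) := by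
  decide +kernel

/-- the increasing triple as an order embedding -/
def GN7_e (i : Fin 35) : Fin 3 ↪o Fin 7 :=
  OrderEmbedding.ofStrictMono ![(GN7_T i).1, (GN7_T i).2.1, (GN7_T i).2.2] (by
    rw [Fin.strictMono_iff_lt_succ]
    intro j
    fin_cases j
    · exact (GN7_T_lt i).1
    · exact (GN7_T_lt i).2)

lemma GN7_e_bij : Function.Bijective GN7_e := by
  constructor
  · intro i j h
    apply GN7_T_inj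
    have h0 : GN7_e i 0 = GN7_e j 0 := by rw [h]
    have h1 : GN7_e i 1 = GN7_e j 1 := by rw [h]
    have h2 : GN7_e i 2 = GN7_e j 2 := by rw [h]
    have h0' : (GN7_T i).1 = (GN7_T j).1 := h0
    have h1' : (GN7_T i).2.1 = (GN7_T j).2.1 := h1
    have h2' : (GN7_T i).2.2 = (GN7_T j).2.2 := h2
    exact Prod.ext h0' (Prod.ext h1' h2')
  · intro I
    obtain ⟨i, hi⟩ := GN7_T_surj (I 0) (I 1) (I 2) (I.strictMono (by decide))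
      (I.strictMono (by decide))
    refine ⟨i, ?_⟩
    apply RelEmbedding.ext
    intro j
    have h0 : GN7_e i 0 = (GN7_T i).1 := rfl
    have h1 : GN7_e i 1 = (GN7_T i).2.1 := rfl
    have h2 : GN7_e i 2 = (GN7_T i).2.2 := rfl
    rw [hi] at h0 h1 h2
    fin_cases j
    · exact h0
    · exact h1
    · exact h2

/-- the entries of the matrix -/
def GN7_g (I J : Fin 3 → Fin 7) : ℤ :=
  GN7_alt fun p q r => GN7_alt fun s t u =>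
    GN7_x (I p) (I q) (J s) * GN7_x (I r) (J t) (J u)

/-- the matrix -/
def GN7_M (i j : Fin 35) : ℤ :=
  (([[0, 0, 0, 0, 0, 0, 0, 0, 0, 0, 0, 8, 0, 0, 0, 0, 0, 0, 0, 8, 0, 0, 0, 0, 0, 0, 0, 0, 0, -8, 0, 0, 0, 0, 0],
    [0, 12, 0, 0, 0, 0, 0, 0, 4, 0, 0, 0, 4, 0, 0, 0, 4, 0, 0, 0, 0, 0, 0, 0, 4, 0, 4, 0, 0, 0, 0, 0, 4, 0, 0],
    [0, 0, 0, 0, 0, 0, 0, 0, 0, 0, 8, 0, 0, 0, 0, 8, 0, 0, 0, 0, 0, 0, 0, 0, 0, 0, 0, 0, -8, 0, 0, 0, 0, 0, 0],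
    [0, 0, 0, 0, 0, 0, 0, 0, 0, -8, 0, 0, 0, 0, 0, 0, 0, 0, 0, 0, 0, 8, 0, 0, 0, 0, 0, 0, 0, 0, 0, 0, 0, 0, 8],
    [0, 0, 0, 0, 0, 8, 0, 0, 0, 0, 0, 0, 0, 0, 0, 0, 0, 0, 0, 0, -8, 0, 0, 0, 0, 0, 0, 0, 0, 0, 8, 0, 0, 0, 0],
    [0, 0, 0, 0, 8, 0, 0, 0, 0, 0, 0, 0, 0, 0, 0, 0, 0, 0, 0, 0, 8, 0, 0, 0, 0, 0, 0, 0, 0, 0, -8, 0, 0, 0, 0],
    [0, 0, 0, 0, 0, 0, 0, 0, 0, 0, 0, 0, 0, 0, -8, 0, 0, 0, 8, 0, 0, 0, 8, 0, 0, 0, 0, 0, 0, 0, 0, 0, 0, 0, 0],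
    [0, 0, 0, 0, 0, 0, 0, 0, 0, 0, 0, 0, 0, 8, 0, 0, 0, 0, 0, 0, 0, 0, 0, 0, 0, 0, 0, 8, 0, 0, 0, -8, 0, 0, 0],
    [0, 4, 0, 0, 0, 0, 0, 0, 12, 0, 0, 0, 4, 0, 0, 0, 4, 0, 0, 0, 0, 0, 0, 0, 4, 0, 4, 0, 0, 0, 0, 0, 4, 0, 0],
    [0, 0, 0, -8, 0, 0, 0, 0, 0, 0, 0, 0, 0, 0, 0, 0, 0, 0, 0, 0, 0, 8, 0, 0, 0, 0, 0, 0, 0, 0, 0, 0, 0, 0, 8],
    [0, 0, 8, 0, 0, 0, 0, 0, 0, 0, 0, 0, 0, 0, 0, -8, 0, 0, 0, 0, 0, 0, 0, 0, 0, 0, 0, 0, 8, 0, 0, 0, 0, 0, 0],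
    [8, 0, 0, 0, 0, 0, 0, 0, 0, 0, 0, 0, 0, 0, 0, 0, 0, 0, 0, -8, 0, 0, 0, 0, 0, 0, 0, 0, 0, 8, 0, 0, 0, 0, 0],
    [0, 4, 0, 0, 0, 0, 0, 0, 4, 0, 0, 0, 12, 0, 0, 0, 4, 0, 0, 0, 0, 0, 0, 0, 4, 0, 4, 0, 0, 0, 0, 0, 4, 0, 0],
    [0, 0, 0, 0, 0, 0, 0, 8, 0, 0, 0, 0, 0, 0, 0, 0, 0, 0, 0, 0, 0, 0, 0, 0, 0, 0, 0, -8, 0, 0, 0, 8, 0, 0, 0],
    [0, 0, 0, 0, 0, 0, -8, 0, 0, 0, 0, 0, 0, 0, 0, 0, 0, 0, 8, 0, 0, 0, 8, 0, 0, 0, 0, 0, 0, 0, 0, 0, 0, 0, 0],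
    [0, 0, 8, 0, 0, 0, 0, 0, 0, 0, -8, 0, 0, 0, 0, 0, 0, 0, 0, 0, 0, 0, 0, 0, 0, 0, 0, 0, 8, 0, 0, 0, 0, 0, 0],
    [0, 4, 0, 0, 0, 0, 0, 0, 4, 0, 0, 0, 4, 0, 0, 0, 12, 0, 0, 0, 0, 0, 0, 0, 4, 0, 4, 0, 0, 0, 0, 0, 4, 0, 0],
    [0, 0, 0, 0, 0, 0, 0, 0, 0, 0, 0, 0, 0, 0, 0, 0, 0, 0, 0, 0, 0, 0, 0, 8, 0, 8, 0, 0, 0, 0, 0, 0, 0, -8, 0],
    [0, 0, 0, 0, 0, 0, 8, 0, 0, 0, 0, 0, 0, 0, 8, 0, 0, 0, 0, 0, 0, 0, -8, 0, 0, 0, 0, 0, 0, 0, 0, 0, 0, 0, 0],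
    [8, 0, 0, 0, 0, 0, 0, 0, 0, 0, 0, -8, 0, 0, 0, 0, 0, 0, 0, 0, 0, 0, 0, 0, 0, 0, 0, 0, 0, 8, 0, 0, 0, 0, 0],
    [0, 0, 0, 0, -8, 8, 0, 0, 0, 0, 0, 0, 0, 0, 0, 0, 0, 0, 0, 0, 0, 0, 0, 0, 0, 0, 0, 0, 0, 0, 8, 0, 0, 0, 0],
    [0, 0, 0, 8, 0, 0, 0, 0, 0, 8, 0, 0, 0, 0, 0, 0, 0, 0, 0, 0, 0, 0, 0, 0, 0, 0, 0, 0, 0, 0, 0, 0, 0, 0, -8],
    [0, 0, 0, 0, 0, 0, 8, 0, 0, 0, 0, 0, 0, 0, 8, 0, 0, 0, -8, 0, 0, 0, 0, 0, 0, 0, 0, 0, 0, 0, 0, 0, 0, 0, 0],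
    [0, 0, 0, 0, 0, 0, 0, 0, 0, 0, 0, 0, 0, 0, 0, 0, 0, 8, 0, 0, 0, 0, 0, 0, 0, -8, 0, 0, 0, 0, 0, 0, 0, 8, 0],
    [0, 4, 0, 0, 0, 0, 0, 0, 4, 0, 0, 0, 4, 0, 0, 0, 4, 0, 0, 0, 0, 0, 0, 0, 12, 0, 4, 0, 0, 0, 0, 0, 4, 0, 0],
    [0, 0, 0, 0, 0, 0, 0, 0, 0, 0, 0, 0, 0, 0, 0, 0, 0, 8, 0, 0, 0, 0, 0, -8, 0, 0, 0, 0, 0, 0, 0, 0, 0, 8, 0],
    [0, 4, 0, 0, 0, 0, 0, 0, 4, 0, 0, 0, 4, 0, 0, 0, 4, 0, 0, 0, 0, 0, 0, 0, 4, 0, 12, 0, 0, 0, 0, 0, 4, 0, 0],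
    [0, 0, 0, 0, 0, 0, 0, 8, 0, 0, 0, 0, 0, -8, 0, 0, 0, 0, 0, 0, 0, 0, 0, 0, 0, 0, 0, 0, 0, 0, 0, 8, 0, 0, 0],
    [0, 0, -8, 0, 0, 0, 0, 0, 0, 0, 8, 0, 0, 0, 0, 8, 0, 0, 0, 0, 0, 0, 0, 0, 0, 0, 0, 0, 0, 0, 0, 0, 0, 0, 0],
    [-8, 0, 0, 0, 0, 0, 0, 0, 0, 0, 0, 8, 0, 0, 0, 0, 0, 0, 0, 8, 0, 0, 0, 0, 0, 0, 0, 0, 0, 0, 0, 0, 0, 0, 0],
    [0, 0, 0, 0, 8, -8, 0, 0, 0, 0, 0, 0, 0, 0, 0, 0, 0, 0, 0, 0, 8, 0, 0, 0, 0, 0, 0, 0, 0, 0, 0, 0, 0, 0, 0],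
    [0, 0, 0, 0, 0, 0, 0, -8, 0, 0, 0, 0, 0, 8, 0, 0, 0, 0, 0, 0, 0, 0, 0, 0, 0, 0, 0, 8, 0, 0, 0, 0, 0, 0, 0],
    [0, 4, 0, 0, 0, 0, 0, 0, 4, 0, 0, 0, 4, 0, 0, 0, 4, 0, 0, 0, 0, 0, 0, 0, 4, 0, 4, 0, 0, 0, 0, 0, 12, 0, 0],
    [0, 0, 0, 0, 0, 0, 0, 0, 0, 0, 0, 0, 0, 0, 0, 0, 0, -8, 0, 0, 0, 0, 0, 8, 0, 8, 0, 0, 0, 0, 0, 0, 0, 0, 0],
    [0, 0, 0, 8, 0, 0, 0, 0, 0, 8, 0, 0, 0, 0, 0, 0, 0, 0, 0, 0, 0, -8, 0, 0, 0, 0, 0, 0, 0, 0, 0, 0, 0, 0, 0]] :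
    List (List ℤ)).getD i []).getD j 0

/-- its inverse, times 72 -/
def GN7_H (i j : Fin 35) : ℤ :=
  (([[6, 0, 0, 0, 0, 0, 0, 0, 0, 0, 0, 3, 0, 0, 0, 0, 0, 0, 0, 3, 0, 0, 0, 0, 0, 0, 0, 0, 0, -3, 0, 0, 0, 0, 0],
    [0, 8, 0, 0, 0, 0, 0, 0, -1, 0, 0, 0, -1, 0, 0, 0, -1, 0, 0, 0, 0, 0, 0, 0, -1, 0, -1, 0, 0, 0, 0, 0, -1, 0, 0],
    [0, 0, 6, 0, 0, 0, 0, 0, 0, 0, 3, 0, 0, 0, 0, 3, 0, 0, 0, 0, 0, 0, 0, 0, 0, 0, 0, 0, -3, 0, 0, 0, 0, 0, 0],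
    [0, 0, 0, 6, 0, 0, 0, 0, 0, -3, 0, 0, 0, 0, 0, 0, 0, 0, 0, 0, 0, 3, 0, 0, 0, 0, 0, 0, 0, 0, 0, 0, 0, 0, 3],
    [0, 0, 0, 0, 6, 3, 0, 0, 0, 0, 0, 0, 0, 0, 0, 0, 0, 0, 0, 0, -3, 0, 0, 0, 0, 0, 0, 0, 0, 0, 3, 0, 0, 0, 0],
    [0, 0, 0, 0, 3, 6, 0, 0, 0, 0, 0, 0, 0, 0, 0, 0, 0, 0, 0, 0, 3, 0, 0, 0, 0, 0, 0, 0, 0, 0, -3, 0, 0, 0, 0],
    [0, 0, 0, 0, 0, 0, 6, 0, 0, 0, 0, 0, 0, 0, -3, 0, 0, 0, 3, 0, 0, 0, 3, 0, 0, 0, 0, 0, 0, 0, 0, 0, 0, 0, 0],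
    [0, 0, 0, 0, 0, 0, 0, 6, 0, 0, 0, 0, 0, 3, 0, 0, 0, 0, 0, 0, 0, 0, 0, 0, 0, 0, 0, 3, 0, 0, 0, -3, 0, 0, 0],
    [0, -1, 0, 0, 0, 0, 0, 0, 8, 0, 0, 0, -1, 0, 0, 0, -1, 0, 0, 0, 0, 0, 0, 0, -1, 0, -1, 0, 0, 0, 0, 0, -1, 0, 0],
    [0, 0, 0, -3, 0, 0, 0, 0, 0, 6, 0, 0, 0, 0, 0, 0, 0, 0, 0, 0, 0, 3, 0, 0, 0, 0, 0, 0, 0, 0, 0, 0, 0, 0, 3],
    [0, 0, 3, 0, 0, 0, 0, 0, 0, 0, 6, 0, 0, 0, 0, -3, 0, 0, 0, 0, 0, 0, 0, 0, 0, 0, 0, 0, 3, 0, 0, 0, 0, 0, 0],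
    [3, 0, 0, 0, 0, 0, 0, 0, 0, 0, 0, 6, 0, 0, 0, 0, 0, 0, 0, -3, 0, 0, 0, 0, 0, 0, 0, 0, 0, 3, 0, 0, 0, 0, 0],
    [0, -1, 0, 0, 0, 0, 0, 0, -1, 0, 0, 0, 8, 0, 0, 0, -1, 0, 0, 0, 0, 0, 0, 0, -1, 0, -1, 0, 0, 0, 0, 0, -1, 0, 0],
    [0, 0, 0, 0, 0, 0, 0, 3, 0, 0, 0, 0, 0, 6, 0, 0, 0, 0, 0, 0, 0, 0, 0, 0, 0, 0, 0, -3, 0, 0, 0, 3, 0, 0, 0],
    [0, 0, 0, 0, 0, 0, -3, 0, 0, 0, 0, 0, 0, 0, 6, 0, 0, 0, 3, 0, 0, 0, 3, 0, 0, 0, 0, 0, 0, 0, 0, 0, 0, 0, 0],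
    [0, 0, 3, 0, 0, 0, 0, 0, 0, 0, -3, 0, 0, 0, 0, 6, 0, 0, 0, 0, 0, 0, 0, 0, 0, 0, 0, 0, 3, 0, 0, 0, 0, 0, 0],
    [0, -1, 0, 0, 0, 0, 0, 0, -1, 0, 0, 0, -1, 0, 0, 0, 8, 0, 0, 0, 0, 0, 0, 0, -1, 0, -1, 0, 0, 0, 0, 0, -1, 0, 0],
    [0, 0, 0, 0, 0, 0, 0, 0, 0, 0, 0, 0, 0, 0, 0, 0, 0, 6, 0, 0, 0, 0, 0, 3, 0, 3, 0, 0, 0, 0, 0, 0, 0, -3, 0],
    [0, 0, 0, 0, 0, 0, 3, 0, 0, 0, 0, 0, 0, 0, 3, 0, 0, 0, 6, 0, 0, 0, -3, 0, 0, 0, 0, 0, 0, 0, 0, 0, 0, 0, 0],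
    [3, 0, 0, 0, 0, 0, 0, 0, 0, 0, 0, -3, 0, 0, 0, 0, 0, 0, 0, 6, 0, 0, 0, 0, 0, 0, 0, 0, 0, 3, 0, 0, 0, 0, 0],
    [0, 0, 0, 0, -3, 3, 0, 0, 0, 0, 0, 0, 0, 0, 0, 0, 0, 0, 0, 0, 6, 0, 0, 0, 0, 0, 0, 0, 0, 0, 3, 0, 0, 0, 0],
    [0, 0, 0, 3, 0, 0, 0, 0, 0, 3, 0, 0, 0, 0, 0, 0, 0, 0, 0, 0, 0, 6, 0, 0, 0, 0, 0, 0, 0, 0, 0, 0, 0, 0, -3],
    [0, 0, 0, 0, 0, 0, 3, 0, 0, 0, 0, 0, 0, 0, 3, 0, 0, 0, -3, 0, 0, 0, 6, 0, 0, 0, 0, 0, 0, 0, 0, 0, 0, 0, 0],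
    [0, 0, 0, 0, 0, 0, 0, 0, 0, 0, 0, 0, 0, 0, 0, 0, 0, 3, 0, 0, 0, 0, 0, 6, 0, -3, 0, 0, 0, 0, 0, 0, 0, 3, 0],
    [0, -1, 0, 0, 0, 0, 0, 0, -1, 0, 0, 0, -1, 0, 0, 0, -1, 0, 0, 0, 0, 0, 0, 0, 8, 0, -1, 0, 0, 0, 0, 0, -1, 0, 0],
    [0, 0, 0, 0, 0, 0, 0, 0, 0, 0, 0, 0, 0, 0, 0, 0, 0, 3, 0, 0, 0, 0, 0, -3, 0, 6, 0, 0, 0, 0, 0, 0, 0, 3, 0],
    [0, -1, 0, 0, 0, 0, 0, 0, -1, 0, 0, 0, -1, 0, 0, 0, -1, 0, 0, 0, 0, 0, 0, 0, -1, 0, 8, 0, 0, 0, 0, 0, -1, 0, 0],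
    [0, 0, 0, 0, 0, 0, 0, 3, 0, 0, 0, 0, 0, -3, 0, 0, 0, 0, 0, 0, 0, 0, 0, 0, 0, 0, 0, 6, 0, 0, 0, 3, 0, 0, 0],
    [0, 0, -3, 0, 0, 0, 0, 0, 0, 0, 3, 0, 0, 0, 0, 3, 0, 0, 0, 0, 0, 0, 0, 0, 0, 0, 0, 0, 6, 0, 0, 0, 0, 0, 0],
    [-3, 0, 0, 0, 0, 0, 0, 0, 0, 0, 0, 3, 0, 0, 0, 0, 0, 0, 0, 3, 0, 0, 0, 0, 0, 0, 0, 0, 0, 6, 0, 0, 0, 0, 0],
    [0, 0, 0, 0, 3, -3, 0, 0, 0, 0, 0, 0, 0, 0, 0, 0, 0, 0, 0, 0, 3, 0, 0, 0, 0, 0, 0, 0, 0, 0, 6, 0, 0, 0, 0],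
    [0, 0, 0, 0, 0, 0, 0, -3, 0, 0, 0, 0, 0, 3, 0, 0, 0, 0, 0, 0, 0, 0, 0, 0, 0, 0, 0, 3, 0, 0, 0, 6, 0, 0, 0],
    [0, -1, 0, 0, 0, 0, 0, 0, -1, 0, 0, 0, -1, 0, 0, 0, -1, 0, 0, 0, 0, 0, 0, 0, -1, 0, -1, 0, 0, 0, 0, 0, 8, 0, 0],
    [0, 0, 0, 0, 0, 0, 0, 0, 0, 0, 0, 0, 0, 0, 0, 0, 0, -3, 0, 0, 0, 0, 0, 3, 0, 3, 0, 0, 0, 0, 0, 0, 0, 6, 0],
    [0, 0, 0, 3, 0, 0, 0, 0, 0, 3, 0, 0, 0, 0, 0, 0, 0, 0, 0, 0, 0, -3, 0, 0, 0, 0, 0, 0, 0, 0, 0, 0, 0, 0, 6]] :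
    List (List ℤ)).getD i []).getD j 0

lemma GN7_gM : ∀ i j : Fin 35, GN7_g ![(GN7_T i).1, (GN7_T i).2.1, (GN7_T i).2.2]
    ![(GN7_T j).1, (GN7_T j).2.1, (GN7_T j).2.2] = GN7_M i j := by
  decide +kernel

lemma GN7_MH : ∀ i k : Fin 35, ∑ j : Fin 35, GN7_M i j * GN7_H j k = if i = k then 72 else 0 := by
  decide +kernel

/-- block GN7 -/
theorem p_GN7 : Stmt_GN7 := by
  refine ⟨fun I => GN7_x (I 0) (I 1) (I 2), ?_⟩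
  have hext : ∀ a : Fin 3 → Fin 7, ext (fun I : Fin 3 ↪o Fin 7 => GN7_x (I 0) (I 1) (I 2)) a =
      GN7_x (a 0) (a 1) (a 2) := fun a => GN7_ext _ GN7_Alt a
  rw [← Matrix.det_submatrix_equiv_self (Equiv.ofBijective GN7_e GN7_e_bij)]
  have hM : ∀ i j : Fin 35, ((Matrix.of fun I J : Fin 3 ↪o Fin 7 => ∑ σ : Equiv.Perm (Fin 3),
      ∑ τ : Equiv.Perm (Fin 3), ((Equiv.Perm.sign σ : ℤ)) * ((Equiv.Perm.sign τ : ℤ)) *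
      ext (fun I : Fin 3 ↪o Fin 7 => GN7_x (I 0) (I 1) (I 2)) ![I (σ 0), I (σ 1), J (τ 0)] *
      ext (fun I : Fin 3 ↪o Fin 7 => GN7_x (I 0) (I 1) (I 2)) ![I (σ 2), J (τ 1), J (τ 2)]).submatrix
      (Equiv.ofBijective GN7_e GN7_e_bij) (Equiv.ofBijective GN7_e GN7_e_bij)) i j = GN7_M i j := by
    intro i j
    rw [← GN7_gM i j]
    rw [Matrix.submatrix_apply, Matrix.of_apply]
    simp only [hext]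
    unfold GN7_g
    rw [← GN7_sum]
    apply Finset.sum_congr rfl
    intro σ _
    rw [← GN7_sum, Finset.mul_sum]
    apply Finset.sum_congr rfl
    intro τ _
    rw [mul_assoc, mul_assoc]
    rfl
  have hdet : ((Matrix.of fun I J : Fin 3 ↪o Fin 7 => ∑ σ : Equiv.Perm (Fin 3),
      ∑ τ : Equiv.Perm (Fin 3), ((Equiv.Perm.sign σ : ℤ)) * ((Equiv.Perm.sign τ : ℤ)) *
      ext (fun I : Fin 3 ↪o Fin 7 => GN7_x (I 0) (I 1) (I 2)) ![I (σ 0), I (σ 1), J (τ 0)] *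
      ext (fun I : Fin 3 ↪o Fin 7 => GN7_x (I 0) (I 1) (I 2)) ![I (σ 2), J (τ 1), J (τ 2)]).submatrix
      (Equiv.ofBijective GN7_e GN7_e_bij) (Equiv.ofBijective GN7_e GN7_e_bij)) *
      (Matrix.of fun i j => GN7_H i j) = (72 : ℤ) • (1 : Matrix (Fin 35) (Fin 35) ℤ) := by
    ext i k
    rw [Matrix.mul_apply]
    simp only [hM, Matrix.of_apply, Matrix.smul_apply, Matrix.one_apply, smul_eq_mul]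
    rw [GN7_MH i k]
    split_ifs <;> simp
  intro h0
  have h1 := congrArg Matrix.det hdet
  rw [Matrix.det_mul, h0, zero_mul, Matrix.det_smul, Matrix.det_one, mul_one] at h1
  exact absurd h1.symm (by simp)

end Pool.SF
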