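import Pool.Agent.Work.MP_bf99ce_sf.Interface

/-! # Block GN8: the Gram matrix of the structure constants of `sl_3` (up to scaling of terms)
(MP_bf99ce, THEOREM SF; typed by helper55) -/

set_option autoImplicit false

noncomputable section

namespace Pool.SF

/-- an alternating array on eight indices with values `0`, `1`, `-1` -/
def GN8_e (a b c : Fin 8) : ℤ :=
  if Nat.testBit 6243878173453067963324658335765438988461965067537188065442580186487760598082321871724006753118551784284571811423102207330304514551682935266738176 (a.val * 64 + b.val * 8 + c.val) = true then 1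
  else if Nat.testBit 48780298230102786588584677264766277555732075852582439657570724139095437205540920991891394242085092281428970666944404396900349974296285283352576 (a.val * 64 + b.val * 8 + c.val) = true then -1
  else 0

def GN8_h (a b c x y z : Fin 8) : ℤ :=
  GN8_e a b x * GN8_e c y z + GN8_e a b y * GN8_e c z x + GN8_e a b z * GN8_e c x y

def GN8_g (a b c x y z : Fin 8) : ℤ :=
  GN8_h a b c x y z + GN8_h b c a x y z + GN8_h c a b x y z

/-- the rows of the inverse matrix, multiplied by 18 -/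
def GN8_L (n : ℕ) : List (ℤ × Fin 8 × Fin 8 × Fin 8) :=
  if Nat.beq n 10 = true then [(-27, 0, 1, 5), (18, 0, 3, 7), (-18, 1, 3, 7), (-9, 3, 5, 6), (9, 4, 5, 7)]
  else if Nat.beq n 11 = true then [(27, 0, 1, 6), (-18, 1, 2, 7), (-9, 2, 5, 6), (9, 4, 6, 7)]
  else if Nat.beq n 12 = true then [(-27, 0, 1, 7), (18, 0, 5, 6), (9, 2, 5, 7), (9, 3, 6, 7)]
  else if Nat.beq n 13 = true then [(-27, 0, 1, 2), (18, 0, 4, 6), (-18, 1, 4, 6), (-9, 2, 3, 6), (9, 2, 4, 7)]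
  else if Nat.beq n 14 = true then [(27, 0, 1, 3), (-18, 1, 4, 5), (-9, 2, 3, 5), (9, 3, 4, 7)]
  else if Nat.beq n 15 = true then [(-27, 0, 1, 4), (-18, 0, 2, 3), (9, 2, 4, 5), (9, 3, 4, 6)]
  else if Nat.beq n 19 = true then [(-18, 0, 1, 7), (12, 0, 5, 6), (-6, 1, 5, 6), (6, 2, 5, 7), (-6, 3, 6, 7)]
  else if Nat.beq n 20 = true then [(-36, 0, 5, 7), (18, 1, 5, 7)]
  else if Nat.beq n 21 = true then [(16, 0, 2, 5), (-4, 0, 3, 6), (-16, 0, 4, 7), (-11, 1, 2, 5), (11, 1, 3, 6), (5, 1, 4, 7), (2, 2, 3, 7), (2, 4, 5, 6)]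
  else if Nat.beq n 22 = true then [(18, 1, 3, 5)]
  else if Nat.beq n 23 = true then [(12, 0, 4, 5), (-6, 1, 4, 5), (-12, 2, 3, 5), (-12, 3, 4, 7)]
  else if Nat.beq n 28 = true then [(18, 1, 6, 7)]
  else if Nat.beq n 29 = true then [(18, 1, 2, 6)]
  else if Nat.beq n 30 = true then [(-4, 0, 2, 5), (10, 0, 3, 6), (4, 0, 4, 7), (5, 1, 2, 5), (-5, 1, 3, 6), (1, 1, 4, 7), (4, 2, 3, 7), (4, 4, 5, 6)]
  else if Nat.beq n 31 = true then [(18, 0, 1, 2), (-12, 0, 4, 6), (6, 1, 4, 6), (-6, 2, 3, 6), (-6, 2, 4, 7)]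
  else if Nat.beq n 37 = true then [(12, 0, 2, 7), (-6, 1, 2, 7), (-12, 2, 5, 6), (-12, 4, 6, 7)]
  else if Nat.beq n 38 = true then [(18, 0, 1, 5), (-12, 0, 3, 7), (6, 1, 3, 7), (-6, 3, 5, 6), (-6, 4, 5, 7)]
  else if Nat.beq n 39 = true then [(-16, 0, 2, 5), (4, 0, 3, 6), (16, 0, 4, 7), (11, 1, 2, 5), (7, 1, 3, 6), (-5, 1, 4, 7), (-2, 2, 3, 7), (-2, 4, 5, 6)]
  else if Nat.beq n 46 = true then [(18, 0, 1, 4), (12, 0, 2, 3), (-6, 1, 2, 3), (-6, 2, 4, 5), (6, 3, 4, 6)]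
  else if Nat.beq n 47 = true then [(-36, 0, 2, 4), (18, 1, 2, 4)]
  else if Nat.beq n 55 = true then [(18, 1, 3, 4)]
  else if Nat.beq n 83 = true then [(-6, 0, 5, 6), (12, 1, 5, 6), (-12, 2, 5, 7), (12, 3, 6, 7)]
  else if Nat.beq n 84 = true then [(18, 0, 5, 7)]
  else if Nat.beq n 85 = true then [(-11, 0, 2, 5), (5, 0, 3, 6), (11, 0, 4, 7), (16, 1, 2, 5), (-16, 1, 3, 6), (-4, 1, 4, 7), (2, 2, 3, 7), (2, 4, 5, 6)]
  else if Nat.beq n 86 = true then [(18, 0, 3, 5), (-36, 1, 3, 5)]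
  else if Nat.beq n 87 = true then [(-18, 0, 1, 3), (-6, 0, 4, 5), (12, 1, 4, 5), (6, 2, 3, 5), (6, 3, 4, 7)]
  else if Nat.beq n 92 = true then [(18, 0, 6, 7)]
  else if Nat.beq n 93 = true then [(18, 0, 2, 6), (-36, 1, 2, 6)]
  else if Nat.beq n 94 = true then [(11, 0, 2, 5), (-5, 0, 3, 6), (7, 0, 4, 7), (-16, 1, 2, 5), (16, 1, 3, 6), (4, 1, 4, 7), (-2, 2, 3, 7), (-2, 4, 5, 6)]
  else if Nat.beq n 95 = true then [(-18, 0, 1, 2), (6, 0, 4, 6), (-12, 1, 4, 6), (-6, 2, 3, 6), (-6, 2, 4, 7)]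
  else if Nat.beq n 101 = true then [(-18, 0, 1, 6), (-6, 0, 2, 7), (12, 1, 2, 7), (6, 2, 5, 6), (6, 4, 6, 7)]
  else if Nat.beq n 102 = true then [(-18, 0, 1, 5), (6, 0, 3, 7), (-12, 1, 3, 7), (-6, 3, 5, 6), (-6, 4, 5, 7)]
  else if Nat.beq n 103 = true then [(5, 0, 2, 5), (1, 0, 3, 6), (-5, 0, 4, 7), (-4, 1, 2, 5), (4, 1, 3, 6), (10, 1, 4, 7), (4, 2, 3, 7), (4, 4, 5, 6)]
  else if Nat.beq n 110 = true then [(-6, 0, 2, 3), (12, 1, 2, 3), (12, 2, 4, 5), (-12, 3, 4, 6)]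
  else if Nat.beq n 111 = true then [(18, 0, 2, 4)]
  else if Nat.beq n 119 = true then [(18, 0, 3, 4)]
  else if Nat.beq n 156 = true then [(18, 5, 6, 7)]
  else if Nat.beq n 157 = true then [(-9, 0, 1, 6), (-12, 0, 2, 7), (6, 1, 2, 7), (3, 2, 5, 6), (3, 4, 6, 7)]
  else if Nat.beq n 158 = true then [(-9, 0, 1, 5), (-6, 0, 3, 7), (-6, 1, 3, 7), (-3, 3, 5, 6), (-3, 4, 5, 7)]
  else if Nat.beq n 159 = true then [(2, 0, 2, 5), (4, 0, 3, 6), (-2, 0, 4, 7), (2, 1, 2, 5), (-2, 1, 3, 6), (4, 1, 4, 7), (10, 2, 3, 7), (4, 4, 5, 6)]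
  else if Nat.beq n 165 = true then [(9, 0, 1, 7), (-6, 0, 5, 6), (12, 1, 5, 6), (-3, 2, 5, 7), (3, 3, 6, 7)]
  else if Nat.beq n 166 = true then [(18, 3, 5, 7)]
  else if Nat.beq n 167 = true then [(9, 0, 1, 5), (-6, 0, 3, 7), (-6, 1, 3, 7), (-3, 3, 5, 6), (-3, 4, 5, 7)]
  else if Nat.beq n 174 = true then [(-9, 0, 1, 3), (-12, 0, 4, 5), (6, 1, 4, 5), (3, 2, 3, 5), (3, 3, 4, 7)]
  else if Nat.beq n 175 = true then [(9, 0, 1, 4), (6, 0, 2, 3), (-12, 1, 2, 3), (-3, 2, 4, 5), (3, 3, 4, 6)]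
  else if Nat.beq n 183 = true then [(18, 3, 4, 5)]
  else if Nat.beq n 229 = true then [(18, 2, 6, 7)]
  else if Nat.beq n 230 = true then [(9, 0, 1, 7), (6, 0, 5, 6), (-12, 1, 5, 6), (3, 2, 5, 7), (-3, 3, 6, 7)]
  else if Nat.beq n 231 = true then [(9, 0, 1, 6), (-12, 0, 2, 7), (6, 1, 2, 7), (3, 2, 5, 6), (3, 4, 6, 7)]
  else if Nat.beq n 238 = true then [(-9, 0, 1, 2), (-6, 0, 4, 6), (-6, 1, 4, 6), (-3, 2, 3, 6), (-3, 2, 4, 7)]
  else if Nat.beq n 239 = true then [(18, 2, 4, 6)]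
  else if Nat.beq n 247 = true then [(9, 0, 1, 4), (-6, 0, 2, 3), (12, 1, 2, 3), (3, 2, 4, 5), (-3, 3, 4, 6)]
  else if Nat.beq n 302 = true then [(2, 0, 2, 5), (4, 0, 3, 6), (-2, 0, 4, 7), (2, 1, 2, 5), (-2, 1, 3, 6), (4, 1, 4, 7), (4, 2, 3, 7), (10, 4, 5, 6)]
  else if Nat.beq n 303 = true then [(9, 0, 1, 2), (-6, 0, 4, 6), (-6, 1, 4, 6), (-3, 2, 3, 6), (-3, 2, 4, 7)]
  else if Nat.beq n 311 = true then [(9, 0, 1, 3), (-12, 0, 4, 5), (6, 1, 4, 5), (3, 2, 3, 5), (3, 3, 4, 7)]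
  else if Nat.beq n 375 = true then [(18, 2, 3, 4)]
  else []

theorem GN8_swap12 : ∀ a b c : Fin 8, GN8_e b a c = -GN8_e a b c := by decide +kernel

theorem GN8_swap23 : ∀ a b c : Fin 8, GN8_e a c b = -GN8_e a b c := by decide +kernel

theorem GN8_dec : ∀ d e f : Fin 8, d < e → e < f →
    (∀ t ∈ GN8_L (d.val * 64 + e.val * 8 + f.val), t.2.1 < t.2.2.1 ∧ t.2.2.1 < t.2.2.2) ∧
    ∀ x y z : Fin 8, x < y → y < z →
      ((GN8_L (d.val * 64 + e.val * 8 + f.val)).map fun t =>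
        t.1 * GN8_g t.2.1 t.2.2.1 t.2.2.2 x y z).sum =
        if x = d ∧ y = e ∧ z = f then 18 else 0 := by
  decide +kernel

theorem GN8_univ : (Finset.univ : Finset (Equiv.Perm (Fin 3))) =
    {1, Equiv.swap 0 1, Equiv.swap 0 2, Equiv.swap 1 2, Equiv.swap 0 1 * Equiv.swap 1 2,
      Equiv.swap 1 2 * Equiv.swap 0 1} := by
  decide +kernel

theorem GN8_sum (F : ℤ → Fin 3 → Fin 3 → Fin 3 → ℤ) :
    ∑ σ : Equiv.Perm (Fin 3), F (Equiv.Perm.sign σ : ℤ) (σ 0) (σ 1) (σ 2) =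
      F 1 0 1 2 + F (-1) 1 0 2 + F (-1) 2 1 0 + F (-1) 0 2 1 + F 1 1 2 0 + F 1 2 0 1 := by
  rw [GN8_univ, Finset.sum_insert (by decide +kernel), Finset.sum_insert (by decide +kernel),
    Finset.sum_insert (by decide +kernel), Finset.sum_insert (by decide +kernel),
    Finset.sum_insert (by decide +kernel), Finset.sum_singleton]
  have h1 : ((Equiv.Perm.sign (1 : Equiv.Perm (Fin 3)) : ℤˣ) : ℤ) = 1 := by decide +kernel
  have h2 : ((Equiv.Perm.sign (Equiv.swap 0 1 : Equiv.Perm (Fin 3)) : ℤˣ) : ℤ) = -1 := by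
    decide +kernel
  have h3 : ((Equiv.Perm.sign (Equiv.swap 0 2 : Equiv.Perm (Fin 3)) : ℤˣ) : ℤ) = -1 := by
    decide +kernel
  have h4 : ((Equiv.Perm.sign (Equiv.swap 1 2 : Equiv.Perm (Fin 3)) : ℤˣ) : ℤ) = -1 := by
    decide +kernel
  have h5 : ((Equiv.Perm.sign (Equiv.swap 0 1 * Equiv.swap 1 2 : Equiv.Perm (Fin 3)) : ℤˣ) : ℤ)
      = 1 := by decide +kernel
  have h6 : ((Equiv.Perm.sign (Equiv.swap 1 2 * Equiv.swap 0 1 : Equiv.Perm (Fin 3)) : ℤˣ) : ℤ)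
      = 1 := by decide +kernel
  rw [h1, h2, h3, h4, h5, h6]
  have g1 : ∀ i, (1 : Equiv.Perm (Fin 3)) i = i := fun i => rfl
  have e1 : (Equiv.swap 0 1 : Equiv.Perm (Fin 3)) 0 = 1 := by decide
  have e2 : (Equiv.swap 0 1 : Equiv.Perm (Fin 3)) 1 = 0 := by decide
  have e3 : (Equiv.swap 0 1 : Equiv.Perm (Fin 3)) 2 = 2 := by decide
  have e4 : (Equiv.swap 0 2 : Equiv.Perm (Fin 3)) 0 = 2 := by decide
  have e5 : (Equiv.swap 0 2 : Equiv.Perm (Fin 3)) 1 = 1 := by decide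
  have e6 : (Equiv.swap 0 2 : Equiv.Perm (Fin 3)) 2 = 0 := by decide
  have e7 : (Equiv.swap 1 2 : Equiv.Perm (Fin 3)) 0 = 0 := by decide
  have e8 : (Equiv.swap 1 2 : Equiv.Perm (Fin 3)) 1 = 2 := by decide
  have e9 : (Equiv.swap 1 2 : Equiv.Perm (Fin 3)) 2 = 1 := by decide
  simp only [g1, Equiv.Perm.mul_apply, e1, e2, e3, e4, e5, e6, e7, e8, e9]
  ring

theorem GN8_mono (p q r : Fin 8) (h1 : p < q) (h2 : q < r) :
    StrictMono (![p, q, r] : Fin 3 → Fin 8) := by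
  intro i j hij
  have := h1.trans h2
  fin_cases i <;> fin_cases j <;> simp_all

def GN8_I (p q r : Fin 8) (h1 : p < q) (h2 : q < r) : Fin 3 ↪o Fin 8 :=
  OrderEmbedding.ofStrictMono ![p, q, r] (GN8_mono p q r h1 h2)

def GN8_y (I : Fin 3 ↪o Fin 8) : ℤ :=
  (if I = GN8_I 0 2 5 (by decide) (by decide) then (-1 : ℤ) else 0) +
  (if I = GN8_I 0 3 6 (by decide) (by decide) then (-1 : ℤ) else 0) +
  (if I = GN8_I 1 2 5 (by decide) (by decide) then (-1 : ℤ) else 0) +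
  (if I = GN8_I 1 4 7 (by decide) (by decide) then (-1 : ℤ) else 0) +
  (if I = GN8_I 2 3 7 (by decide) (by decide) then (1 : ℤ) else 0) +
  (if I = GN8_I 4 5 6 (by decide) (by decide) then (1 : ℤ) else 0)

def GN8_D (p q r a b c : Fin 8) : ℤ :=
  (if a = p then 1 else 0) * (if b = q then 1 else 0) * (if c = r then 1 else 0) -
    (if a = p then 1 else 0) * (if b = r then 1 else 0) * (if c = q then 1 else 0) -
    (if a = q then 1 else 0) * (if b = p then 1 else 0) * (if c = r then 1 else 0) +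
    (if a = q then 1 else 0) * (if b = r then 1 else 0) * (if c = p then 1 else 0) +
    (if a = r then 1 else 0) * (if b = p then 1 else 0) * (if c = q then 1 else 0) -
    (if a = r then 1 else 0) * (if b = q then 1 else 0) * (if c = p then 1 else 0)

theorem GN8_det (p q r : Fin 8) (h1 : p < q) (h2 : q < r) (a b c : Fin 8) :
    (Matrix.of fun i j : Fin 3 => if ![a, b, c] i = GN8_I p q r h1 h2 j then (1 : ℤ) else 0).det =
      GN8_D p q r a b c := by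
  rw [Matrix.det_fin_three]
  have i0 : GN8_I p q r h1 h2 0 = p := rfl
  have i1 : GN8_I p q r h1 h2 1 = q := rfl
  have i2 : GN8_I p q r h1 h2 2 = r := rfl
  simp only [Matrix.of_apply, i0, i1, i2, Matrix.cons_val_zero, Matrix.cons_val_one,
    Matrix.cons_val, GN8_D]

theorem GN8_ext (a b c : Fin 8) : ext GN8_y ![a, b, c] = GN8_e a b c := by
  have h1 : ext GN8_y ![a, b, c] =
      GN8_D 0 2 5 a b c * (-1 : ℤ) +
      GN8_D 0 3 6 a b c * (-1 : ℤ) +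
      GN8_D 1 2 5 a b c * (-1 : ℤ) +
      GN8_D 1 4 7 a b c * (-1 : ℤ) +
      GN8_D 2 3 7 a b c * (1 : ℤ) +
      GN8_D 4 5 6 a b c * (1 : ℤ) := by
    unfold ext GN8_y
    simp only [mul_add, Finset.sum_add_distrib, mul_ite, mul_zero, Finset.sum_ite_eq',
      Finset.mem_univ, if_true, GN8_det]
  rw [h1]
  clear h1
  revert a b c
  decide +kernel

theorem p_GN8 : Stmt_GN8 := by
  refine ⟨GN8_y, ?_⟩
  set G : Matrix (Fin 3 ↪o Fin 8) (Fin 3 ↪o Fin 8) ℤ :=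
    Matrix.of fun I J : Fin 3 ↪o Fin 8 => ∑ σ : Equiv.Perm (Fin 3),
      ∑ τ : Equiv.Perm (Fin 3), ((Equiv.Perm.sign σ : ℤ)) * ((Equiv.Perm.sign τ : ℤ)) *
        ext GN8_y ![I (σ 0), I (σ 1), J (τ 0)] * ext GN8_y ![I (σ 2), J (τ 1), J (τ 2)] with hG
  have hGv : ∀ I J, G I J = 4 * GN8_g (I 0) (I 1) (I 2) (J 0) (J 1) (J 2) := by
    intro I J
    have h2 : G I J = ∑ σ : Equiv.Perm (Fin 3), ∑ τ : Equiv.Perm (Fin 3),
        (Equiv.Perm.sign σ : ℤ) * (Equiv.Perm.sign τ : ℤ) *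
          GN8_e (I (σ 0)) (I (σ 1)) (J (τ 0)) * GN8_e (I (σ 2)) (J (τ 1)) (J (τ 2)) := by
      simp only [hG, Matrix.of_apply, GN8_ext]
    have h3 : ∀ (s : ℤ) (p q r : Fin 3), ∑ τ : Equiv.Perm (Fin 3),
        s * (Equiv.Perm.sign τ : ℤ) * GN8_e (I p) (I q) (J (τ 0)) * GN8_e (I r) (J (τ 1)) (J (τ 2))
          = s * (2 * GN8_h (I p) (I q) (I r) (J 0) (J 1) (J 2)) := by
      intro s p q r
      refine (GN8_sum fun t x y z => s * t * GN8_e (I p) (I q) (J x) *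
        GN8_e (I r) (J y) (J z)).trans ?_
      rw [GN8_swap23 (I r) (J 2) (J 0), GN8_swap23 (I r) (J 0) (J 1),
        GN8_swap23 (I r) (J 1) (J 2)]
      unfold GN8_h
      ring
    have h4 : ∀ a b c x y z : Fin 8, GN8_h b a c x y z = -GN8_h a b c x y z := by
      intro a b c x y z
      unfold GN8_h
      rw [GN8_swap12 a b x, GN8_swap12 a b y, GN8_swap12 a b z]
      ring
    rw [h2]
    refine (Finset.sum_congr rfl fun σ _ => h3 (Equiv.Perm.sign σ : ℤ) (σ 0) (σ 1) (σ 2)).trans ?_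
    refine (GN8_sum fun s p q r => s * (2 * GN8_h (I p) (I q) (I r) (J 0) (J 1) (J 2))).trans ?_
    rw [h4 (I 0) (I 1) (I 2), h4 (I 1) (I 2) (I 0), h4 (I 2) (I 0) (I 1)]
    unfold GN8_g
    ring
  intro h0
  obtain ⟨v, hv, hGv0⟩ := Matrix.exists_mulVec_eq_zero_iff.2 h0
  apply hv
  funext J₀
  have hlt : ∀ J : Fin 3 ↪o Fin 8, J 0 < J 1 ∧ J 1 < J 2 := fun J =>
    ⟨J.strictMono (by decide), J.strictMono (by decide)⟩
  -- every row
  have hrow : ∀ a b c : Fin 8, a < b → b < c →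
      ∑ J : Fin 3 ↪o Fin 8, GN8_g a b c (J 0) (J 1) (J 2) * v J = 0 := by
    intro a b c hab hbc
    have h3 := congrFun hGv0 (GN8_I a b c hab hbc)
    rw [Matrix.mulVec, dotProduct] at h3
    have i0 : GN8_I a b c hab hbc 0 = a := rfl
    have i1 : GN8_I a b c hab hbc 1 = b := rfl
    have i2 : GN8_I a b c hab hbc 2 = c := rfl
    have h4 : (4 : ℤ) * ∑ J : Fin 3 ↪o Fin 8, GN8_g a b c (J 0) (J 1) (J 2) * v J = 0 := by
      rw [Finset.mul_sum]
      refine (Finset.sum_congr rfl fun J _ => ?_).trans h3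
      rw [hGv, i0, i1, i2]
      ring
    rcases mul_eq_zero.1 h4 with h5 | h5
    · norm_num at h5
    · exact h5
  obtain ⟨hd1, hd2⟩ := GN8_dec (J₀ 0) (J₀ 1) (J₀ 2) (hlt J₀).1 (hlt J₀).2
  generalize GN8_L ((J₀ 0).val * 64 + (J₀ 1).val * 8 + (J₀ 2).val) = L at hd1 hd2
  have hlist : ∀ L : List (ℤ × Fin 8 × Fin 8 × Fin 8),
      (∀ t ∈ L, t.2.1 < t.2.2.1 ∧ t.2.2.1 < t.2.2.2) →
      ∑ J : Fin 3 ↪o Fin 8, (L.map fun t => t.1 * GN8_g t.2.1 t.2.2.1 t.2.2.2 (J 0) (J 1) (J 2)).sum *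
        v J = 0 := by
    intro L
    induction L with
    | nil => intro _; simp
    | cons t L ih =>
      intro hL
      have h1 := ih fun t ht => hL t (List.mem_cons_of_mem _ ht)
      have h2 := hL t (List.mem_cons_self ..)
      have h3 := hrow _ _ _ h2.1 h2.2
      simp only [List.map_cons, List.sum_cons, add_mul, Finset.sum_add_distrib]
      rw [h1, add_zero]
      have h5 : t.1 * ∑ J : Fin 3 ↪o Fin 8, GN8_g t.2.1 t.2.2.1 t.2.2.2 (J 0) (J 1) (J 2) * v J =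
          0 := by rw [h3, mul_zero]
      rw [Finset.mul_sum] at h5
      refine (Finset.sum_congr rfl fun J _ => ?_).trans h5
      ring
  have h6 := hlist L hd1
  have h7 : ∑ J : Fin 3 ↪o Fin 8, (L.map fun t =>
      t.1 * GN8_g t.2.1 t.2.2.1 t.2.2.2 (J 0) (J 1) (J 2)).sum * v J = 18 * v J₀ := by
    rw [Finset.sum_eq_single J₀]
    · rw [hd2 _ _ _ (hlt J₀).1 (hlt J₀).2, if_pos ⟨rfl, rfl, rfl⟩]
    · intro J _ hJ
      rw [hd2 _ _ _ (hlt J).1 (hlt J).2, if_neg, zero_mul]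
      rintro ⟨e0, e1, e2⟩
      apply hJ
      ext i
      fin_cases i
      · exact congrArg Fin.val e0
      · exact congrArg Fin.val e1
      · exact congrArg Fin.val e2
    · intro h
      exact absurd (Finset.mem_univ _) h
  rw [h7] at h6
  rcases mul_eq_zero.1 h6 with h8 | h8
  · norm_num at h8
  · exact h8

end Pool.SF
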