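import Pool.Agent.Work.MP_bf99ce_sf.Interface

/-! # Block GRL: the Gram matrix of the bilinear form on 3-covectors -/

set_option autoImplicit false

open AlgebraicGeometry CategoryTheory

noncomputable section

namespace Pool.SF

/-- the Gram matrix -/
def GRL_G {B : Type} [CommRing B] {d : ℕ} (x : (Fin 3 → Fin d) → B) (I J : Fin 3 → Fin d) : B :=
  ∑ σ : Equiv.Perm (Fin 3), ∑ τ : Equiv.Perm (Fin 3), ((Equiv.Perm.sign σ : ℤ) : B) *
    ((Equiv.Perm.sign τ : ℤ) : B) * x ![I (σ 0), I (σ 1), J (τ 0)] * x ![I (σ 2), J (τ 1), J (τ 2)]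

theorem GRL_map {B B' : Type} [CommRing B] [CommRing B'] (ρ : B →+* B') {d : ℕ}
    (x : (Fin 3 → Fin d) → B) (I J : Fin 3 → Fin d) :
    ρ (GRL_G x I J) = GRL_G (fun a => ρ (x a)) I J := by
  simp only [GRL_G, map_sum, map_mul, map_intCast]

theorem GRL_sq {B : Type} [CommRing B] (s : Equiv.Perm (Fin 3)) :
    ((Equiv.Perm.sign s : ℤ) : B) * ((Equiv.Perm.sign s : ℤ) : B) = 1 := by
  rcases Int.units_eq_one_or (Equiv.Perm.sign s) with h | h
  · rw [h]; simp
  · rw [h]; simp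

theorem GRL_swl {B : Type} [CommRing B] {d : ℕ} (x : (Fin 3 → Fin d) → B) (I J : Fin 3 → Fin d)
    (s : Equiv.Perm (Fin 3)) :
    GRL_G x (I ∘ s) J = ((Equiv.Perm.sign s : ℤ) : B) * GRL_G x I J := by
  unfold GRL_G
  rw [Finset.mul_sum]
  refine Fintype.sum_equiv (Equiv.mulLeft s) _ _ fun σ => ?_
  rw [Finset.mul_sum]
  refine Finset.sum_congr rfl fun τ _ => ?_
  simp only [Equiv.coe_mulLeft, Equiv.Perm.sign_mul, Units.val_mul, Int.cast_mul, Equiv.Perm.mul_apply,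
    Function.comp_apply]
  have h := GRL_sq (B := B) s
  linear_combination (-(((Equiv.Perm.sign σ : ℤ) : B) * ((Equiv.Perm.sign τ : ℤ) : B) *
    x ![I (s (σ 0)), I (s (σ 1)), J (τ 0)] * x ![I (s (σ 2)), J (τ 1), J (τ 2)])) * h

theorem GRL_swr {B : Type} [CommRing B] {d : ℕ} (x : (Fin 3 → Fin d) → B) (I J : Fin 3 → Fin d)
    (s : Equiv.Perm (Fin 3)) :
    GRL_G x I (J ∘ s) = ((Equiv.Perm.sign s : ℤ) : B) * GRL_G x I J := by
  unfold GRL_G
  rw [Finset.mul_sum]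
  refine Finset.sum_congr rfl fun σ _ => ?_
  rw [Finset.mul_sum]
  refine Fintype.sum_equiv (Equiv.mulLeft s) _ _ fun τ => ?_
  simp only [Equiv.coe_mulLeft, Equiv.Perm.sign_mul, Units.val_mul, Int.cast_mul, Equiv.Perm.mul_apply,
    Function.comp_apply]
  have h := GRL_sq (B := B) s
  linear_combination (-(((Equiv.Perm.sign σ : ℤ) : B) * ((Equiv.Perm.sign τ : ℤ) : B) *
    x ![I (σ 0), I (σ 1), J (s (τ 0))] * x ![I (σ 2), J (s (τ 1)), J (s (τ 2))])) * h

theorem GRL_alt {k : Type} [Field k] [CharZero k] {d : ℕ} (H : (Fin 3 → Fin d) → k)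
    (h : ∀ (I : Fin 3 → Fin d) (s : Equiv.Perm (Fin 3)),
      H (I ∘ s) = ((Equiv.Perm.sign s : ℤ) : k) * H I) : Alt H := by
  refine ⟨fun a i j hij ha => ?_, h⟩
  have h1 := h a (Equiv.swap i j)
  have h2 : a ∘ Equiv.swap i j = a := by
    funext t
    by_cases hi : t = i
    · rw [hi, Function.comp_apply, Equiv.swap_apply_left, ha]
    · by_cases hj : t = j
      · rw [hj, Function.comp_apply, Equiv.swap_apply_right, ha]
      · rw [Function.comp_apply, Equiv.swap_apply_of_ne_of_ne hi hj]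
  rw [h2, Equiv.Perm.sign_swap hij] at h1
  simp only [Units.val_neg, Units.val_one, Int.cast_neg, Int.cast_one, neg_mul, one_mul] at h1
  exact self_eq_neg.1 h1

/-- exchange of two entries -/
def GRL_ex {D : Type} (p : (Fin 3 → D) × (Fin 3 → D)) : (Fin 3 → D) × (Fin 3 → D) :=
  (![p.1 0, p.1 1, p.2 0], ![p.1 2, p.2 1, p.2 2])

theorem GRL_ex_ex {D : Type} (p : (Fin 3 → D) × (Fin 3 → D)) : GRL_ex (GRL_ex p) = p := by
  refine Prod.ext ?_ ?_
  · funext t
    fin_cases t <;> rfl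
  · funext t
    fin_cases t <;> rfl

theorem GRL_vec {D : Type} (e : Fin 3 → D) : ![e 0, e 1, e 2] = e := by
  funext t
  fin_cases t <;> rfl

theorem GRL_exp1 {B : Type} [CommRing B] {d d' : ℕ} (g : Matrix (Fin d) (Fin d') B)
    (x : (Fin 3 → Fin d') → B) (I J : Fin 3 → Fin d) :
    act g x ![I 0, I 1, J 0] * act g x ![I 2, J 1, J 2] =
      ∑ c : Fin 3 → Fin d', ∑ c' : Fin 3 → Fin d', (∏ i, g (I i) (c i)) * (∏ i, g (J i) (c' i)) *
        (x ![c 0, c 1, c' 0] * x ![c 2, c' 1, c' 2]) := by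
  unfold act
  rw [Finset.sum_mul_sum, ← Fintype.sum_prod_type', ← Fintype.sum_prod_type']
  refine Fintype.sum_equiv ⟨GRL_ex, GRL_ex, GRL_ex_ex, GRL_ex_ex⟩ _ _ fun p => ?_
  obtain ⟨e, e'⟩ := p
  simp only [Equiv.coe_fn_mk, GRL_ex, Fin.prod_univ_three]
  have h1 : (![![e 0, e 1, e' 0] 0, ![e 0, e 1, e' 0] 1, ![e 2, e' 1, e' 2] 0] : Fin 3 → Fin d') = e :=
    GRL_vec e
  have h2 : (![![e 0, e 1, e' 0] 2, ![e 2, e' 1, e' 2] 1, ![e 2, e' 1, e' 2] 2] : Fin 3 → Fin d') = e' :=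
    GRL_vec e'
  rw [h1, h2]
  change g (I 0) (e 0) * g (I 1) (e 1) * g (J 0) (e 2) * x e *
    (g (I 2) (e' 0) * g (J 1) (e' 1) * g (J 2) (e' 2) * x e') =
    g (I 0) (e 0) * g (I 1) (e 1) * g (I 2) (e' 0) *
    (g (J 0) (e 2) * g (J 1) (e' 1) * g (J 2) (e' 2)) * (x e * x e')
  ring

theorem GRL_exp {B : Type} [CommRing B] {d d' : ℕ} (g : Matrix (Fin d) (Fin d') B)
    (x : (Fin 3 → Fin d') → B) (I J : Fin 3 → Fin d) :
    GRL_G (act g x) I J = ∑ c : Fin 3 → Fin d', ∑ c' : Fin 3 → Fin d',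
      (∏ i, g (I i) (c i)) * (∏ i, g (J i) (c' i)) * GRL_G x c c' := by
  have h1 : ∀ σ τ : Equiv.Perm (Fin 3),
      act g x ![I (σ 0), I (σ 1), J (τ 0)] * act g x ![I (σ 2), J (τ 1), J (τ 2)] =
      ∑ c : Fin 3 → Fin d', ∑ c' : Fin 3 → Fin d', (∏ i, g (I i) (c i)) * (∏ i, g (J i) (c' i)) *
        (x ![c (σ 0), c (σ 1), c' (τ 0)] * x ![c (σ 2), c' (τ 1), c' (τ 2)]) := by
    intro σ τ
    have h := GRL_exp1 g x (I ∘ σ) (J ∘ τ)
    simp only [Function.comp_apply] at h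
    rw [h]
    symm
    refine Fintype.sum_equiv (Equiv.arrowCongr σ.symm (Equiv.refl (Fin d'))) _ _ fun c => ?_
    refine Fintype.sum_equiv (Equiv.arrowCongr τ.symm (Equiv.refl (Fin d'))) _ _ fun c' => ?_
    have e1 : ∏ i, g (I (σ i)) ((Equiv.arrowCongr σ.symm (Equiv.refl (Fin d')) c) i) =
        ∏ i, g (I i) (c i) := by
      refine Fintype.prod_equiv σ _ _ fun i => ?_
      rfl
    have e2 : ∏ i, g (J (τ i)) ((Equiv.arrowCongr τ.symm (Equiv.refl (Fin d')) c') i) =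
        ∏ i, g (J i) (c' i) := by
      refine Fintype.prod_equiv τ _ _ fun i => ?_
      rfl
    rw [e1, e2]
    rfl
  have h2 : GRL_G (act g x) I J = ∑ σ : Equiv.Perm (Fin 3), ∑ τ : Equiv.Perm (Fin 3),
      ∑ c : Fin 3 → Fin d', ∑ c' : Fin 3 → Fin d', (∏ i, g (I i) (c i)) * (∏ i, g (J i) (c' i)) *
        (((Equiv.Perm.sign σ : ℤ) : B) * ((Equiv.Perm.sign τ : ℤ) : B) *
        x ![c (σ 0), c (σ 1), c' (τ 0)] * x ![c (σ 2), c' (τ 1), c' (τ 2)]) := by
    unfold GRL_G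
    refine Finset.sum_congr rfl fun σ _ => Finset.sum_congr rfl fun τ _ => ?_
    rw [mul_assoc, h1, Finset.mul_sum]
    refine Finset.sum_congr rfl fun c _ => ?_
    rw [Finset.mul_sum]
    refine Finset.sum_congr rfl fun c' _ => ?_
    ring
  have h3 : ∀ c c' : Fin 3 → Fin d', (∏ i, g (I i) (c i)) * (∏ i, g (J i) (c' i)) * GRL_G x c c' =
      ∑ σ : Equiv.Perm (Fin 3), ∑ τ : Equiv.Perm (Fin 3), (∏ i, g (I i) (c i)) *
        (∏ i, g (J i) (c' i)) * (((Equiv.Perm.sign σ : ℤ) : B) * ((Equiv.Perm.sign τ : ℤ) : B) *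
        x ![c (σ 0), c (σ 1), c' (τ 0)] * x ![c (σ 2), c' (τ 1), c' (τ 2)]) := by
    intro c c'
    unfold GRL_G
    simp only [Finset.mul_sum]
  rw [h2]
  simp only [h3]
  calc _ = ∑ σ : Equiv.Perm (Fin 3), ∑ c : Fin 3 → Fin d', ∑ τ : Equiv.Perm (Fin 3),
      ∑ c' : Fin 3 → Fin d', (∏ i, g (I i) (c i)) * (∏ i, g (J i) (c' i)) *
        (((Equiv.Perm.sign σ : ℤ) : B) * ((Equiv.Perm.sign τ : ℤ) : B) *
        x ![c (σ 0), c (σ 1), c' (τ 0)] * x ![c (σ 2), c' (τ 1), c' (τ 2)]) :=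
        Finset.sum_congr rfl fun σ _ => Finset.sum_comm
    _ = ∑ c : Fin 3 → Fin d', ∑ σ : Equiv.Perm (Fin 3), ∑ τ : Equiv.Perm (Fin 3),
      ∑ c' : Fin 3 → Fin d', (∏ i, g (I i) (c i)) * (∏ i, g (J i) (c' i)) *
        (((Equiv.Perm.sign σ : ℤ) : B) * ((Equiv.Perm.sign τ : ℤ) : B) *
        x ![c (σ 0), c (σ 1), c' (τ 0)] * x ![c (σ 2), c' (τ 1), c' (τ 2)]) := Finset.sum_comm
    _ = _ := by
      refine Finset.sum_congr rfl fun c _ => ?_
      rw [Finset.sum_congr rfl fun σ _ => Finset.sum_comm, Finset.sum_comm]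

/-- determinant of a product of rectangular matrices -/
theorem GRL_det {B : Type} [CommRing B] {d : ℕ} (A : Matrix (Fin 3) (Fin d) B)
    (C : Matrix (Fin d) (Fin 3) B) :
    (Matrix.of fun i j => ∑ a, A i a * C a j).det =
      ∑ c : Fin 3 → Fin d, (∏ i, A i (c i)) * (Matrix.of fun i j => C (c i) j).det := by
  have h1 : (Matrix.of fun i j => ∑ a, A i a * C a j).det =
      Matrix.detRowAlternating fun i => ∑ a, A i a • C a := by
    show Matrix.detRowAlternating _ = _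
    congr 1
    funext i j
    simp [Finset.sum_apply]
  rw [h1]
  have h2 := (Matrix.detRowAlternating (n := Fin 3) (R := B)).toMultilinearMap.map_sum
    (fun i (a : Fin d) => A i a • C a)
  refine h2.trans ?_
  refine Finset.sum_congr rfl fun c _ => ?_
  exact (Matrix.detRowAlternating (n := Fin 3) (R := B)).toMultilinearMap.map_smul_univ
    (fun i => A i (c i)) (fun i => C (c i))

/-- the matrix of the exterior power -/
def GRL_L {B : Type} [CommRing B] {d : ℕ} (g : Matrix (Fin d) (Fin d) B) :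
    Matrix (Fin 3 ↪o Fin d) (Fin 3 ↪o Fin d) B :=
  Matrix.of fun I K => (Matrix.of fun i j => g (I i) (K j)).det

theorem GRL_sum (hUAR : Stmt_UAR) {k : Type} [Field k] [CharZero k] {d : ℕ}
    (g : Matrix (Fin d) (Fin d) k) (H : (Fin 3 → Fin d) → k)
    (h : ∀ (I : Fin 3 → Fin d) (s : Equiv.Perm (Fin 3)),
      H (I ∘ s) = ((Equiv.Perm.sign s : ℤ) : k) * H I) (I : Fin 3 ↪o Fin d) :
    ∑ c : Fin 3 → Fin d, (∏ i, g (I i) (c i)) * H c = ∑ K : Fin 3 ↪o Fin d, GRL_L g I K * H K := by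
  have h1 := (hUAR k).2.2.1 d 3 H (GRL_alt H h)
  have h2 : ∀ c : Fin 3 → Fin d, H c = ∑ K : Fin 3 ↪o Fin d,
      (Matrix.of fun i j : Fin 3 => if c i = K j then (1 : k) else 0).det * H K :=
    fun c => (congrFun h1 c).symm
  have h3 : ∀ K : Fin 3 ↪o Fin d, GRL_L g I K = ∑ c : Fin 3 → Fin d, (∏ i, g (I i) (c i)) *
      (Matrix.of fun i j : Fin 3 => if c i = K j then (1 : k) else 0).det := by
    intro K
    have h4 := GRL_det (Matrix.of fun i a => g (I i) a) (Matrix.of fun a j => if a = K j then (1 : k) else 0)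
    simp only [Matrix.of_apply] at h4
    rw [← h4]
    show (Matrix.of fun i j => g (I i) (K j)).det = _
    congr 1
    ext i j
    simp
  calc ∑ c : Fin 3 → Fin d, (∏ i, g (I i) (c i)) * H c =
      ∑ c : Fin 3 → Fin d, ∑ K : Fin 3 ↪o Fin d, (∏ i, g (I i) (c i)) *
      ((Matrix.of fun i j : Fin 3 => if c i = K j then (1 : k) else 0).det * H K) := by
        refine Finset.sum_congr rfl fun c _ => ?_
        rw [← Finset.mul_sum, ← h2]
    _ = ∑ K : Fin 3 ↪o Fin d, ∑ c : Fin 3 → Fin d, (∏ i, g (I i) (c i)) *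
      ((Matrix.of fun i j : Fin 3 => if c i = K j then (1 : k) else 0).det * H K) := Finset.sum_comm
    _ = _ := by
        refine Finset.sum_congr rfl fun K _ => ?_
        rw [h3 K, Finset.sum_mul]
        refine Finset.sum_congr rfl fun c _ => ?_
        ring

/-- the Gram matrix at the increasing tuples -/
def GRL_M {B : Type} [CommRing B] {d : ℕ} (x : (Fin 3 → Fin d) → B) :
    Matrix (Fin 3 ↪o Fin d) (Fin 3 ↪o Fin d) B := Matrix.of fun I J => GRL_G x I J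

theorem GRL_mul (hUAR : Stmt_UAR) {k : Type} [Field k] [CharZero k] {d : ℕ}
    (g : Matrix (Fin d) (Fin d) k) (x : (Fin 3 → Fin d) → k) :
    GRL_M (act g x) = GRL_L g * GRL_M x * (GRL_L g).transpose := by
  ext I J
  have h1 : GRL_M (act g x) I J = ∑ c : Fin 3 → Fin d, (∏ i, g (I i) (c i)) *
      ∑ L : Fin 3 ↪o Fin d, GRL_L g J L * GRL_G x c L := by
    show GRL_G (act g x) I J = _
    rw [GRL_exp]
    refine Finset.sum_congr rfl fun c _ => ?_
    rw [← GRL_sum hUAR g (fun c' => GRL_G x c c') (fun I' s => GRL_swr x c I' s) J, Finset.mul_sum]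
    refine Finset.sum_congr rfl fun c' _ => ?_
    ring
  rw [h1, GRL_sum hUAR g (fun c => ∑ L : Fin 3 ↪o Fin d, GRL_L g J L * GRL_G x c L) (by
    intro I' s
    simp only [GRL_swl x I' _ s, Finset.mul_sum]
    refine Finset.sum_congr rfl fun L _ => ?_
    ring) I, Matrix.mul_apply]
  simp only [Matrix.mul_apply, Matrix.transpose_apply, Finset.mul_sum, Finset.sum_mul]
  rw [Finset.sum_comm]
  refine Finset.sum_congr rfl fun L _ => Finset.sum_congr rfl fun K _ => ?_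
  show GRL_L g I K * (GRL_L g J L * GRL_G x K L) = GRL_L g I K * GRL_G x K L * GRL_L g J L
  ring

/-- the polynomial -/
def GRL_f (k : Type) [Field k] (d : ℕ) : MvPolynomial (Fin 3 ↪o Fin d) k :=
  (GRL_M (ext (MvPolynomial.X : (Fin 3 ↪o Fin d) → MvPolynomial (Fin 3 ↪o Fin d) k))).det

theorem GRL_eval (hUAR : Stmt_UAR) (k : Type) [Field k] (d : ℕ) (z : (Fin 3 ↪o Fin d) → k) :
    MvPolynomial.eval z (GRL_f k d) = (GRL_M (ext z)).det := by
  unfold GRL_f
  rw [RingHom.map_det]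
  congr 1
  ext I J
  have h := (hUAR (MvPolynomial (Fin 3 ↪o Fin d) k)).2.2.2 k (MvPolynomial.eval z) d 3
    MvPolynomial.X
  simp only [MvPolynomial.eval_X] at h
  show MvPolynomial.eval z (GRL_G (ext MvPolynomial.X) I J) = GRL_G (ext z) I J
  rw [GRL_map, h]

theorem GRL_hom1 (k : Type) [Field k] (d : ℕ) (a : Fin 3 → Fin d) :
    (ext (MvPolynomial.X : (Fin 3 ↪o Fin d) → MvPolynomial (Fin 3 ↪o Fin d) k) a).IsHomogeneous 1 := by
  unfold ext
  refine MvPolynomial.IsHomogeneous.sum _ _ _ fun I _ => ?_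
  have h1 : (Matrix.of fun i' j' : Fin 3 => if a i' = I j' then
      (1 : MvPolynomial (Fin 3 ↪o Fin d) k) else 0).det =
      MvPolynomial.C (Matrix.of fun i' j' : Fin 3 => if a i' = I j' then (1 : k) else 0).det := by
    rw [RingHom.map_det]
    congr 1
    ext i' j' : 2
    simp only [Matrix.of_apply, RingHom.mapMatrix_apply, Matrix.map_apply]
    split_ifs <;> simp
  rw [h1]
  have h2 := (MvPolynomial.isHomogeneous_C (Fin 3 ↪o Fin d)
    (Matrix.of fun i' j' : Fin 3 => if a i' = I j' then (1 : k) else 0).det).mul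
    (MvPolynomial.isHomogeneous_X k I)
  simpa using h2

theorem GRL_hom2 (k : Type) [Field k] (d : ℕ) (I J : Fin 3 → Fin d) :
    (GRL_G (ext (MvPolynomial.X : (Fin 3 ↪o Fin d) → MvPolynomial (Fin 3 ↪o Fin d) k)) I
      J).IsHomogeneous 2 := by
  unfold GRL_G
  refine MvPolynomial.IsHomogeneous.sum _ _ _ fun σ _ => MvPolynomial.IsHomogeneous.sum _ _ _ fun τ _ => ?_
  have h1 : ∀ s : Equiv.Perm (Fin 3),
      (((Equiv.Perm.sign s : ℤ) : MvPolynomial (Fin 3 ↪o Fin d) k)).IsHomogeneous 0 := by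
    intro s
    have : (((Equiv.Perm.sign s : ℤ) : MvPolynomial (Fin 3 ↪o Fin d) k)) =
        MvPolynomial.C (((Equiv.Perm.sign s : ℤ) : k)) := by simp
    rw [this]
    exact MvPolynomial.isHomogeneous_C _ _
  have h2 := (((h1 σ).mul (h1 τ)).mul (GRL_hom1 k d ![I (σ 0), I (σ 1), J (τ 0)])).mul
    (GRL_hom1 k d ![I (σ 2), J (τ 1), J (τ 2)])
  simpa using h2

theorem GRL_hom (k : Type) [Field k] (d : ℕ) :
    (GRL_f k d).IsHomogeneous (Fintype.card (Fin 3 ↪o Fin d) * 2) := by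
  unfold GRL_f
  rw [Matrix.det_apply]
  refine MvPolynomial.IsHomogeneous.sum _ _ _ fun σ _ => ?_
  have hprod : (∏ i, GRL_M (ext (MvPolynomial.X : (Fin 3 ↪o Fin d) →
      MvPolynomial (Fin 3 ↪o Fin d) k)) (σ i) i).IsHomogeneous
      (Fintype.card (Fin 3 ↪o Fin d) * 2) := by
    have h := MvPolynomial.IsHomogeneous.prod (Finset.univ : Finset (Fin 3 ↪o Fin d))
      (fun i => GRL_M (ext (MvPolynomial.X : (Fin 3 ↪o Fin d) →
      MvPolynomial (Fin 3 ↪o Fin d) k)) (σ i) i) (fun _ => 2) (fun i _ => GRL_hom2 k d _ _)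
    simpa using h
  rcases Int.units_eq_one_or (Equiv.Perm.sign σ) with h | h
  · rw [h, one_smul]
    exact hprod
  · rw [h, Units.neg_smul, one_smul]
    exact hprod.neg

theorem p_GRL (hACT : Stmt_ACT) (hUAR : Stmt_UAR) : Stmt_GRL := by
  intro k _ _ d hd hy
  obtain ⟨y, hy⟩ := hy
  refine ⟨Fintype.card (Fin 3 ↪o Fin d) * 2, GRL_f k d, ?_, ?_, GRL_hom k d, ?_⟩
  · have : 0 < Fintype.card (Fin 3 ↪o Fin d) := Fintype.card_pos_iff.2 ⟨Fin.castLEOrderEmb hd⟩
    omega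
  · intro h0
    apply hy
    have h1 := GRL_eval hUAR k d (fun I => ((y I : ℤ) : k))
    rw [h0, map_zero] at h1
    have h2 := (hUAR ℤ).2.2.2 k (Int.castRingHom k) d 3 y
    have h3 : (Int.castRingHom k) (GRL_M (ext y)).det =
        (GRL_M (ext (fun I => ((y I : ℤ) : k)))).det := by
      rw [RingHom.map_det]
      congr 1
      ext I J
      show (Int.castRingHom k) (GRL_G (ext y) I J) = GRL_G (ext fun I => ((y I : ℤ) : k)) I J
      rw [GRL_map, h2]
      rfl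
    rw [← h1] at h3
    have h4 : (GRL_M (ext y)).det = 0 := by
      have h5 : (((GRL_M (ext y)).det : ℤ) : k) = 0 := h3
      exact_mod_cast h5
    rw [← h4]
    congr 1
  · intro g _
    refine ⟨(GRL_L g).det ^ 2, fun z => ?_⟩
    rw [GRL_eval hUAR, GRL_eval hUAR]
    have h1 : ext (fun I : Fin 3 ↪o Fin d => act g (ext z) I) = act g (ext z) :=
      (hUAR k).2.2.1 d 3 _ ((hACT k).2.2.1 d d 3 g _ ((hUAR k).1 d 3 z))
    rw [h1, GRL_mul hUAR, Matrix.det_mul, Matrix.det_mul, Matrix.det_transpose]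
    ring

end Pool.SF
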