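import Pool.Agent.Work.MP_bf99ce_sf.Interface2

/-!
# Block INJ: base change of differentials in characteristic zero preserves linear independence
-/

set_option autoImplicit false

open AlgebraicGeometry CategoryTheory
open scoped TensorProduct

noncomputable section

namespace Pool.SF

theorem INJ_fs (K L : Type) [Field K] [CharZero K] [Field L] [Algebra K L] :
    Algebra.FormallySmooth K L := by
  obtain ⟨s, hs⟩ := exists_isTranscendenceBasis K L
  have h1 : Algebra.IsAlgebraic (IntermediateField.adjoin K (Set.range ((↑) : s → L))) L :=
    hs.isAlgebraic_field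
  have : CharZero (IntermediateField.adjoin K (Set.range ((↑) : s → L))) :=
    charZero_of_injective_algebraMap
      (algebraMap K (IntermediateField.adjoin K (Set.range ((↑) : s → L)))).injective
  have : Algebra.IsSeparable (IntermediateField.adjoin K (Set.range ((↑) : s → L))) L :=
    inferInstance
  exact Algebra.FormallySmooth.of_algebraicIndependent_of_isSeparable hs.1

theorem p_INJ : Stmt_INJ := by
  intro k K L _ _ _ _ _ _ _ _ d w hw
  have : CharZero K := charZero_of_injective_algebraMap (algebraMap k K).injective
  have := INJ_fs K L
  have hinj : Function.Injective (KaehlerDifferential.mapBaseChange k K L) := by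
    rw [injective_iff_map_eq_zero]
    intro x hx
    obtain ⟨x, rfl⟩ := (Algebra.H1Cotangent.exact_δ_mapBaseChange k K L x).mp hx
    have : Subsingleton (Algebra.H1Cotangent K L) :=
      Algebra.FormallySmooth.subsingleton_h1Cotangent
    rw [Subsingleton.elim x 0, map_zero]
  have h1 : LinearIndependent L (fun i => (1 : L) ⊗ₜ[K] w i) :=
    Module.Flat.linearIndependent_one_tmul hw
  have h2 := h1.map' (KaehlerDifferential.mapBaseChange k K L) (LinearMap.ker_eq_bot.mpr hinj)
  have h3 : (fun i => KaehlerDifferential.map k k K L (w i)) =
      (KaehlerDifferential.mapBaseChange k K L) ∘ (fun i => (1 : L) ⊗ₜ[K] w i) := by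
    funext i
    simp [KaehlerDifferential.mapBaseChange_tmul]
  rw [h3]
  exact h2

end Pool.SF
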