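import Pool.Agent.Work.MP_bf99ce_sf.Interface

/-!
# Block INT of THEOREM SF: coefficients in an integrally closed ring
-/

set_option autoImplicit false

noncomputable section

namespace Pool.SF

open MvPolynomial

/-- the isomorphism with the polynomial ring -/
def INT_phi {K W : Type} [Field K] [AddCommGroup W] [Module K W] {n : ℕ} (q : ℕ) (e : Module.Basis (Fin n) K W) :
    SA K W q ≃ₐ[K] MvPolynomial (Set.powersetCard (Fin n) q) K :=
  SymmetricAlgebra.equivMvPolynomial (e.exteriorPower q)

/-- the wedge products of basis vectors are `0` or `±` variables -/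
lemma INT_wdg {K W : Type} [Field K] [AddCommGroup W] [Module K W] {n : ℕ} (q : ℕ) (e : Module.Basis (Fin n) K W)
    (a : Fin q → Fin n) :
    INT_phi q e (wdg K q (e ∘ a)) = 0 ∨ ∃ s, INT_phi q e (wdg K q (e ∘ a)) = X s ∨
      INT_phi q e (wdg K q (e ∘ a)) = - X s := by
  classical
  by_cases ha : Function.Injective a
  swap
  · left
    have h0 : exteriorPower.ιMulti K q (e ∘ a) = 0 :=
      AlternatingMap.map_eq_zero_of_not_injective _ _ (fun h => ha (Function.Injective.of_comp h))
    unfold wdg
    rw [h0, map_zero, map_zero]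
  · right
    have hcard : (Finset.image a Finset.univ).card = q :=
      (Finset.card_image_of_injective Finset.univ ha).trans (Finset.card_fin q)
    let s : Set.powersetCard (Fin n) q := ⟨Finset.image a Finset.univ, hcard⟩
    let σ : Equiv.Perm (Fin q) := (Finset.orderIsoOfFin (Finset.image a Finset.univ) hcard).toEquiv.trans
      ((Equiv.setCongr Fintype.coe_image_univ).trans (Equiv.ofInjective a ha).symm)
    have hσ : (e ∘ a) ∘ σ = e ∘ (Set.powersetCard.ofFinEmbEquiv.symm s) := by
      rw [Function.comp_assoc]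
      congr 1
      ext i
      simp [σ, Equiv.apply_ofInjective_symm]
      rfl
    have h1 : (e.exteriorPower q) s = (Equiv.Perm.sign σ) • exteriorPower.ιMulti K q (e ∘ a) := by
      rw [exteriorPower.basis_apply]
      unfold exteriorPower.ιMulti_family
      rw [← hσ, AlternatingMap.map_perm]
    have h2 : INT_phi q e (SymmetricAlgebra.ι K _ ((e.exteriorPower q) s)) = X s :=
      SymmetricAlgebra.equivMvPolynomial_ι_apply _ _
    refine ⟨s, ?_⟩
    rcases Int.units_eq_one_or (Equiv.Perm.sign σ) with h | h
    · left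
      rw [h, one_smul] at h1
      unfold wdg
      rw [← h1, h2]
    · right
      rw [h, Units.neg_smul, one_smul] at h1
      unfold wdg
      rw [← h2, h1, map_neg, map_neg, neg_neg]

/-- elements of the lattice have coefficients in the subring and are homogeneous -/
lemma INT_fwd {K W : Type} [Field K] [AddCommGroup W] [Module K W] {n : ℕ} (q m : ℕ) (e : Module.Basis (Fin n) K W)
    (R : Subring K) (z : SA K W q) (hz : z ∈ Lat K R (Set.range e) q m) :
    (∃ p : MvPolynomial (Set.powersetCard (Fin n) q) R, MvPolynomial.map R.subtype p = INT_phi q e z) ∧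
      (INT_phi q e z).IsHomogeneous m := by
  unfold Lat at hz
  induction hz using Submodule.span_induction with
  | mem x hx =>
    obtain ⟨w, hw, rfl⟩ := hx
    have hw2 : ∀ j : Fin m, ∃ a : Fin q → Fin n, w j = e ∘ a := by
      intro j
      choose a ha using hw j
      exact ⟨a, funext fun i => (ha i).symm⟩
    choose a ha using hw2
    rw [map_prod]
    have h1 : ∀ j, ∃ p : MvPolynomial (Set.powersetCard (Fin n) q) R,
        MvPolynomial.map R.subtype p = INT_phi q e (wdg K q (w j)) := by
      intro j
      rw [ha j]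
      rcases INT_wdg q e (a j) with h | ⟨s, h | h⟩
      · exact ⟨0, by rw [h, map_zero]⟩
      · exact ⟨X s, by rw [h, map_X]⟩
      · exact ⟨-X s, by rw [h, map_neg, map_X]⟩
    have h2 : ∀ j, (INT_phi q e (wdg K q (w j))).IsHomogeneous 1 := by
      intro j
      rw [ha j]
      rcases INT_wdg q e (a j) with h | ⟨s, h | h⟩
      · rw [h]; exact isHomogeneous_zero _ _ _
      · rw [h]; exact isHomogeneous_X _ _
      · rw [h]; exact (isHomogeneous_X _ _).neg
    choose p hp using h1
    refine ⟨⟨∏ j, p j, ?_⟩, ?_⟩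
    · rw [map_prod]
      exact Finset.prod_congr rfl fun j _ => hp j
    · have := IsHomogeneous.prod Finset.univ (fun j => INT_phi q e (wdg K q (w j))) (fun _ => 1) (fun j _ => h2 j)
      simpa using this
  | zero => exact ⟨⟨0, by rw [map_zero, map_zero]⟩, by rw [map_zero]; exact isHomogeneous_zero _ _ _⟩
  | add x y _ _ hx hy =>
    obtain ⟨⟨p, hp⟩, hp2⟩ := hx
    obtain ⟨⟨p', hp'⟩, hp2'⟩ := hy
    refine ⟨⟨p + p', by rw [map_add, map_add, hp, hp']⟩, ?_⟩
    rw [map_add]
    exact hp2.add hp2'
  | smul r x _ hx =>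
    obtain ⟨⟨p, hp⟩, hp2⟩ := hx
    have h3 : INT_phi q e (r • x) = (r : K) • INT_phi q e x := by
      rw [show r • x = (r : K) • x from rfl, map_smul]
    rw [h3]
    refine ⟨⟨C r * p, ?_⟩, ?_⟩
    · rw [map_mul, hp, map_C, smul_eq_C_mul]
      rfl
    · rw [smul_eq_C_mul]
      have := (isHomogeneous_C (Set.powersetCard (Fin n) q) (r : K)).mul hp2
      rwa [zero_add] at this

/-- a monomial of degree `m` is a product of `m` variables -/
lemma INT_mono {K σ : Type} [Field K] (t : σ →₀ ℕ) (m : ℕ) (ht : t.degree = m) :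
    ∃ f : Fin m → σ, monomial t (1 : K) = ∏ i, X (f i) := by
  classical
  subst ht
  have hl : t.toMultiset.toList.length = t.degree := by
    rw [Multiset.length_toList, Finsupp.card_toMultiset]
    rfl
  refine ⟨fun i => t.toMultiset.toList.get (Fin.cast hl.symm i), ?_⟩
  have h1 : (t.toMultiset.toList.map (fun s => (X s : MvPolynomial σ K))).prod = monomial t (1 : K) := by
    have h2 : (t.toMultiset.map (fun s => (X s : MvPolynomial σ K))).prod = monomial t (1 : K) := by
      rw [Finsupp.toMultiset_map, Finsupp.prod_toMultiset, monomial_eq, C_1, one_mul]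
      rw [Finsupp.prod_mapDomain_index]
      · intro b; rw [pow_zero]
      · intro b m1 m2; rw [pow_add]
    rw [← h2, ← Multiset.prod_coe, ← Multiset.map_coe, Multiset.coe_toList]
  rw [← h1, ← Fin.prod_univ_getElem]
  have hl2 : (t.toMultiset.toList.map (fun s => (X s : MvPolynomial σ K))).length = t.degree := by
    rw [List.length_map, hl]
  refine Fintype.prod_equiv (finCongr hl2) _ _ ?_
  intro i
  simp

/-- a homogeneous polynomial with coefficients in `R` gives an element of the lattice -/
lemma INT_bwd {K W : Type} [Field K] [AddCommGroup W] [Module K W] {n : ℕ} (q m : ℕ) (e : Module.Basis (Fin n) K W)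
    (R : Subring K) (z : SA K W q) (hz : ∀ t, coeff t (INT_phi q e z) ∈ R) (hm : (INT_phi q e z).IsHomogeneous m) :
    z ∈ Lat K R (Set.range e) q m := by
  classical
  have h1 : z = ∑ t ∈ (INT_phi q e z).support, (coeff t (INT_phi q e z)) • (INT_phi q e).symm (monomial t 1) := by
    apply (INT_phi q e).injective
    rw [map_sum]
    conv_lhs => rw [(INT_phi q e z).as_sum]
    refine Finset.sum_congr rfl fun t _ => ?_
    rw [map_smul, AlgEquiv.apply_symm_apply, smul_monomial, smul_eq_mul, mul_one]
  rw [h1]
  unfold Lat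
  refine Submodule.sum_mem _ fun t ht => ?_
  have h2 : (coeff t (INT_phi q e z)) • (INT_phi q e).symm (monomial t 1) =
      (⟨coeff t (INT_phi q e z), hz t⟩ : R) • (INT_phi q e).symm (monomial t 1) := rfl
  rw [h2]
  refine Submodule.smul_mem _ _ (Submodule.subset_span ?_)
  have h3 : t.degree = m := by
    have := hm (mem_support_iff.1 ht)
    rw [← this]
    rw [Finsupp.degree_eq_weight_one]
    rfl
  obtain ⟨f, hf⟩ := INT_mono (K := K) t m h3
  refine ⟨fun j => e ∘ (Set.powersetCard.ofFinEmbEquiv.symm (f j)), fun j i => ⟨_, rfl⟩, ?_⟩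
  rw [hf, map_prod]
  refine Finset.prod_congr rfl fun j _ => ?_
  have h4 : (INT_phi q e).symm (X (f j)) = SymmetricAlgebra.ι K _ ((e.exteriorPower q) (f j)) :=
    SymmetricAlgebra.equivMvPolynomial_symm_X _ _
  rw [h4, exteriorPower.basis_apply]
  rfl

theorem p_INT : Stmt_INT := by
  intro K W _ _ _ n q m e R hR τ hτ
  have htop : τ ∈ Lat K (⊤ : ValuationSubring K).toSubring (Set.range e) q m := hτ ⊤ (fun x _ => trivial)
  refine INT_bwd q m e R τ ?_ (INT_fwd q m e _ τ htop).2
  intro t
  by_contra hx
  have : IsIntegrallyClosedIn R K := by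
    rw [Subring.isIntegrallyClosedIn_iff]
    intro z hz
    exact hR z hz
  obtain ⟨V, hV, hxV⟩ := Subring.exists_le_valuationSubring_of_isIntegrallyClosedIn hx
  obtain ⟨⟨p, hp⟩, -⟩ := INT_fwd q m e V.toSubring τ (hτ V hV)
  apply hxV
  rw [← hp, coeff_map]
  exact (coeff t p).2

end Pool.SF
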