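import Pool.Agent.Work.MP_bf99ce_sf.Interface

set_option autoImplicit false

open AlgebraicGeometry CategoryTheory

noncomputable section

namespace Pool.SF

theorem p_LOA : Stmt_LOA := by
  intro k S K _ _ _ _ _ _ _ _ _ n hS
  classical
  obtain ⟨ι, σ, hσ, hι, P, hP⟩ := hS.out
  have hcard : Nat.card ((Set.range P.map)ᶜ : Set ι) = n := by
    let _ := Fintype.ofFinite ι
    let _ := Fintype.ofFinite σ
    rw [← hP]
    simp only [Algebra.Presentation.dimension, Nat.card_eq_fintype_card, Fintype.card_compl_set,
      Set.card_range_of_injective P.map_inj]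
  have : Finite ((Set.range P.map)ᶜ : Set ι) := inferInstance
  let e : ((Set.range P.map)ᶜ : Set ι) ≃ Fin n := Finite.equivFinOfCardEq hcard
  let b1 : Module.Basis (Fin n) S (Ω[S⁄k]) := P.basisKaehler.reindex e
  have hb1 : ∀ i, b1 i = KaehlerDifferential.D k S (P.val (e.symm i)) := by
    intro i
    simp [b1]
  let b : Module.Basis (Fin n) K (Ω[K⁄k]) :=
    b1.ofIsLocalizedModule K (nonZeroDivisors S) (KaehlerDifferential.map k k S K)
  have hb : ∀ i, b i = KaehlerDifferential.map k k S K (b1 i) := by
    intro i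
    exact Module.Basis.ofIsLocalizedModule_apply K (nonZeroDivisors S)
      (KaehlerDifferential.map k k S K) b1 i
  refine ⟨b, fun i => ⟨P.val (e.symm i), ?_⟩, fun s => ⟨fun i => b1.repr (KaehlerDifferential.D k S s) i, ?_⟩⟩
  · rw [hb, hb1, KaehlerDifferential.map_D]
  · have h := b1.sum_repr (KaehlerDifferential.D k S s)
    have h2 := congrArg (KaehlerDifferential.map k k S K) h
    rw [KaehlerDifferential.map_D, map_sum] at h2
    rw [← h2]
    refine Finset.sum_congr rfl fun i _ => ?_
    rw [map_smul, hb, algebraMap_smul]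

end Pool.SF
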