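import Pool.Agent.Work.MP_bf99ce_sf.Interface

/-!
# Block LOC (helper16): the differentials of a local ring of a smooth scheme
-/

set_option autoImplicit false

open AlgebraicGeometry CategoryTheory

namespace Pool.SF

theorem p_LOC (hSCH : Stmt_SCH) (hLOA : Stmt_LOA) : Stmt_LOC := by
  intro k _ X f _ n _ x
  obtain ⟨S, _, _, _, _, _, _, P, hP, hst, hS⟩ := hSCH k X f n x
  obtain ⟨b, hb, hc⟩ := hLOA k S (FF f) n
  have h1 : (1 : S) ∉ P := fun h => hP.ne_top ((Ideal.eq_top_iff_one P).2 h)
  have hmem : ∀ s : S, algebraMap S (FF f) s ∈ stR f x := fun s =>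
    (hS _).2 ⟨s, 1, h1, by rw [map_one, div_one]⟩
  refine ⟨b, fun i => ?_, fun w hw => ?_, fun c => ?_⟩
  · obtain ⟨t, ht⟩ := hb i
    exact ⟨algebraMap S (FF f) t, hmem t, ht⟩
  · obtain ⟨r, hr, rfl⟩ := hw
    obtain ⟨a, d, hd, rfl⟩ := (hS r).1 hr
    obtain ⟨ca, hca⟩ := hc a
    obtain ⟨cd, hcd⟩ := hc d
    have hd0 : algebraMap S (FF f) d ≠ 0 := by
      intro h0
      have : d = 0 := (IsFractionRing.injective S (FF f)) (by rw [h0, map_zero])
      exact hd (this ▸ P.zero_mem)
    have hco : ∀ i, (algebraMap S (FF f) (d * ca i - a * cd i)) / (algebraMap S (FF f) (d * d)) ∈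
        stR f x := fun i => (hS _).2 ⟨_, d * d, fun h => (hP.mem_or_mem h).elim hd hd, rfl⟩
    have hD : KaehlerDifferential.D k (FF f) (algebraMap S (FF f) a / algebraMap S (FF f) d) =
        ∑ i, ((algebraMap S (FF f) (d * ca i - a * cd i)) / (algebraMap S (FF f) (d * d))) • b i := by
      rw [Derivation.leibniz_div, hca, hcd, Finset.smul_sum, Finset.smul_sum,
        ← Finset.sum_sub_distrib, Finset.smul_sum]
      refine Finset.sum_congr rfl fun i _ => ?_
      rw [smul_smul, smul_smul, ← sub_smul, smul_smul]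
      congr 1
      rw [map_sub, map_mul, map_mul, map_mul]
      field_simp
    rw [hD]
    refine Submodule.sum_mem _ fun i _ => ?_
    exact Submodule.smul_mem (Submodule.span (stR f x) (Set.range b))
      (⟨_, hco i⟩ : stR f x) (Submodule.subset_span ⟨i, rfl⟩)
  · rw [IsScalarTower.algebraMap_apply k S (FF f)]
    exact hmem _

end Pool.SF
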