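import Pool.Agent.Work.MP_bf99ce_sf.Interface

/-! # THEOREM SF (MP_bf99ce_ag), block LSP: monotonicity of the lattices -/

set_option autoImplicit false

open AlgebraicGeometry CategoryTheory

noncomputable section

namespace Pool.SF

theorem LSP_multi {ι R' M N : Type} [Fintype ι] [DecidableEq ι] [Ring R'] [AddCommGroup M]
    [Module R' M] [AddCommGroup N] [Module R' N] (f : (ι → M) → N)
    (h0 : ∀ u i, f (Function.update u i 0) = 0)
    (hadd : ∀ u i x y, f (Function.update u i (x + y)) =
      f (Function.update u i x) + f (Function.update u i y))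
    (hsmul : ∀ u i (r : R') x, f (Function.update u i (r • x)) = r • f (Function.update u i x))
    (X : Set M) (u : ι → M) (hu : ∀ i, u i ∈ Submodule.span R' X) :
    f u ∈ Submodule.span R' {y | ∃ v : ι → M, (∀ i, v i ∈ X) ∧ y = f v} := by
  have key : ∀ s : Finset ι, ∀ u : ι → M, (∀ i, i ∈ s → u i ∈ Submodule.span R' X) →
      (∀ i, i ∉ s → u i ∈ X) →
      f u ∈ Submodule.span R' {y | ∃ v : ι → M, (∀ i, v i ∈ X) ∧ y = f v} := by
    intro s
    induction s using Finset.induction_on with
    | empty =>
      intro u _ h
      exact Submodule.subset_span ⟨u, fun i => h i (Finset.notMem_empty i), rfl⟩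
    | insert i s hi ih =>
      intro u h1 h2
      have h3 : ∀ x ∈ Submodule.span R' X, f (Function.update u i x) ∈
          Submodule.span R' {y | ∃ v : ι → M, (∀ i, v i ∈ X) ∧ y = f v} := by
        intro x hx
        induction hx using Submodule.span_induction with
        | mem x hx =>
          apply ih
          · intro j hj
            have hji : j ≠ i := fun h => hi (h ▸ hj)
            rw [Function.update_of_ne hji]
            exact h1 j (Finset.mem_insert_of_mem hj)
          · intro j hj
            by_cases hji : j = i
            · subst hji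
              rw [Function.update_self]
              exact hx
            · rw [Function.update_of_ne hji]
              exact h2 j (by
                rw [Finset.mem_insert, not_or]
                exact ⟨hji, hj⟩)
        | zero =>
          rw [h0]
          exact zero_mem _
        | add x y _ _ hx hy =>
          rw [hadd]
          exact add_mem hx hy
        | smul r x _ hx =>
          rw [hsmul]
          exact Submodule.smul_mem _ r hx
      have h4 := h3 (u i) (h1 i (Finset.mem_insert_self i s))
      rw [Function.update_eq_self] at h4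
      exact h4
  exact key Finset.univ u (fun i _ => hu i) (fun i hi => absurd (Finset.mem_univ i) hi)

theorem LSP_wdg (K W : Type) [Field K] [AddCommGroup W] [Module K W] (R' : Subring K) (q : ℕ)
    (T : Set W) (w : Fin q → W) (hw : ∀ i, w i ∈ Submodule.span R' T) :
    wdg K q w ∈ Submodule.span R' {y | ∃ v : Fin q → W, (∀ i, v i ∈ T) ∧ y = wdg K q v} := by
  refine LSP_multi (wdg K q) ?_ ?_ ?_ T w hw
  · intro u i
    unfold wdg
    rw [AlternatingMap.map_update_zero, map_zero]
  · intro u i x y
    unfold wdg
    rw [AlternatingMap.map_update_add, map_add]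
  · intro u i r x
    change wdg K q (Function.update u i ((r : K) • x)) = (r : K) • wdg K q (Function.update u i x)
    unfold wdg
    rw [AlternatingMap.map_update_smul, map_smul]

theorem LSP_prod (K A : Type) [Field K] [CommRing A] [Algebra K A] (R' : Subring K) (m : ℕ)
    (X : Set A) (y : Fin m → A) (hy : ∀ i, y i ∈ Submodule.span R' X) :
    ∏ j, y j ∈ Submodule.span R' {z | ∃ v : Fin m → A, (∀ i, v i ∈ X) ∧ z = ∏ j, v j} := by
  refine LSP_multi (fun y : Fin m → A => ∏ j, y j) ?_ ?_ ?_ X y hy
  · intro u i
    change ∏ j, Function.update u i 0 j = 0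
    rw [Finset.prod_update_of_mem (Finset.mem_univ i), zero_mul]
  · intro u i x y
    change ∏ j, Function.update u i (x + y) j =
      ∏ j, Function.update u i x j + ∏ j, Function.update u i y j
    rw [Finset.prod_update_of_mem (Finset.mem_univ i), Finset.prod_update_of_mem
      (Finset.mem_univ i), Finset.prod_update_of_mem (Finset.mem_univ i), add_mul]
  · intro u i r x
    change ∏ j, Function.update u i ((r : K) • x) j = (r : K) • ∏ j, Function.update u i x j
    rw [Finset.prod_update_of_mem (Finset.mem_univ i), Finset.prod_update_of_mem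
      (Finset.mem_univ i), smul_mul_assoc]

theorem p_LSP : Stmt_LSP := by
  intro K W _ _ _ R R' S T q m hR hS z hz
  have hgen : ∀ w : Fin m → Fin q → W, (∀ j i, w j i ∈ S) →
      ∏ j, wdg K q (w j) ∈ Lat K R' T q m := by
    intro w hw
    have h1 : ∀ j, wdg K q (w j) ∈
        Submodule.span R' {y | ∃ v : Fin q → W, (∀ i, v i ∈ T) ∧ y = wdg K q v} := fun j =>
      LSP_wdg K W R' q T (w j) fun i => hS _ (hw j i)
    have h2 := LSP_prod K (SA K W q) R' m _ (fun j => wdg K q (w j)) h1
    refine Submodule.span_mono ?_ h2
    rintro y ⟨v, hv, rfl⟩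
    choose w' hw' using hv
    exact ⟨w', fun j i => (hw' j).1 i, Finset.prod_congr rfl fun j _ => (hw' j).2⟩
  unfold Lat at hz
  induction hz using Submodule.span_induction with
  | mem x hx =>
    obtain ⟨w, hw, rfl⟩ := hx
    exact hgen w hw
  | zero => exact zero_mem _
  | add x y _ _ hx hy => exact add_mem hx hy
  | smul r x _ hx =>
    have h1 : r • x = (⟨(r : K), hR r.2⟩ : R') • x := rfl
    rw [h1]
    exact Submodule.smul_mem _ _ hx

end Pool.SF
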