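import Pool.Agent.Work.MP_bf99ce_sf.Interface

/-! # Block NOA: a smooth algebra over a field which is a domain is integrally closed
(MP_bf99ce, THEOREM SF; typed by helper55) -/

set_option autoImplicit false

noncomputable section

namespace Pool.SF

open TensorProduct

/-- An etale domain over an integrally closed domain is integrally closed. -/
theorem NOA_etale (P S : Type) [CommRing P] [IsDomain P] [IsIntegrallyClosed P] [CommRing S]
    [IsDomain S] [Algebra P S] [Algebra.Etale P S] : IsIntegrallyClosed S := by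
  have hflat : Module.Flat P S := inferInstance
  have hinj : Function.Injective (algebraMap P S) := by
    rw [injective_iff_map_eq_zero]
    intro p hp
    by_contra hne
    have h1 : IsSMulRegular S p :=
      Module.Flat.isSMulRegular_of_nonZeroDivisors (mem_nonZeroDivisors_of_ne_zero hne)
    have h3 := h1 (a₁ := (1 : S)) (a₂ := 0) (by
      simp only [Algebra.smul_def, hp, zero_mul])
    exact one_ne_zero h3
  set F := FractionRing P with hF
  set M := Algebra.algebraMapSubmonoid S (nonZeroDivisors P) with hM
  have hloc : IsLocalization M (S ⊗[P] F) := inferInstance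
  have hMle : M ≤ nonZeroDivisors S := by
    rintro _ ⟨p, hp, rfl⟩
    rw [mem_nonZeroDivisors_iff_ne_zero]
    intro h0
    exact nonZeroDivisors.ne_zero hp (hinj (by simpa using h0))
  have hdom : IsDomain (S ⊗[P] F) := IsLocalization.isDomain_of_le_nonZeroDivisors _ hMle
  have e : (F ⊗[P] S) ≃ₐ[P] (S ⊗[P] F) := Algebra.TensorProduct.comm P F S
  have hdom' : IsDomain (F ⊗[P] S) := e.toMulEquiv.isDomain (S ⊗[P] F)
  have het : Algebra.Etale F (F ⊗[P] S) := inferInstance
  have hfin : Module.Finite F (F ⊗[P] S) := Algebra.FormallyUnramified.finite_of_free F (F ⊗[P] S)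
  have hfield' : IsField (F ⊗[P] S) :=
    isField_of_isIntegral_of_isField' (R := F) (Field.toIsField F)
  have hfield : IsField (S ⊗[P] F) := MulEquiv.isField hfield' e.symm.toMulEquiv
  have hinjS : Function.Injective (algebraMap S (S ⊗[P] F)) :=
    IsLocalization.injective (S ⊗[P] F) hMle
  have hfrac : IsFractionRing S (S ⊗[P] F) := by
    refine IsLocalization.of_le M (nonZeroDivisors S) hMle ?_
    intro r hr
    have hr0 : algebraMap S (S ⊗[P] F) r ≠ 0 := by
      intro h0
      exact nonZeroDivisors.ne_zero hr (hinjS (h0.trans (map_zero _).symm))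
    obtain ⟨b, hb⟩ := hfield.mul_inv_cancel hr0
    exact IsUnit.of_mul_eq_one _ hb
  have hbij := TensorProduct.toIntegralClosure_bijective_of_smooth (R := P) (S := S) (B := F)
  have hbot : integralClosure P F = ⊥ := IsIntegrallyClosed.integralClosure_eq_bot P F
  rw [isIntegrallyClosed_iff (S ⊗[P] F)]
  intro x hx
  obtain ⟨y, hy⟩ := hbij.2 ⟨x, hx⟩
  have hy' : (Algebra.TensorProduct.map (AlgHom.id S S) (integralClosure P F).val) y = x :=
    congrArg Subtype.val hy
  rw [← hy']
  clear hy hy' hx
  induction y with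
  | zero => exact ⟨0, by simp⟩
  | add a b ha hb =>
    obtain ⟨u, hu⟩ := ha
    obtain ⟨v, hv⟩ := hb
    exact ⟨u + v, by rw [map_add, map_add, hu, hv]⟩
  | tmul s f =>
    have hf : (f : F) ∈ (⊥ : Subalgebra P F) := hbot ▸ f.2
    obtain ⟨p, hp⟩ := Algebra.mem_bot.1 hf
    refine ⟨p • s, ?_⟩
    simp only [Algebra.TensorProduct.map_tmul, AlgHom.coe_id, id_eq, Subalgebra.coe_val, ← hp]
    change (p • s) ⊗ₜ[P] (1 : F) = _
    rw [Algebra.algebraMap_eq_smul_one (R := P) (A := F), TensorProduct.smul_tmul]

theorem p_NOA : Stmt_NOA := by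
  intro k S _ _ _ _ n _
  obtain ⟨g, hg⟩ := Algebra.IsStandardSmoothOfRelativeDimension.exists_etale_mvPolynomial n k S
  algebraize [g.toRingHom]
  exact NOA_etale (MvPolynomial (Fin n) k) S

end Pool.SF
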