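import Pool.Agent.Work.MP_bf99ce_sf.Interface

/-!
# Block NOR: the local rings of a smooth scheme are integrally closed
-/

set_option autoImplicit false

open AlgebraicGeometry CategoryTheory

noncomputable section

namespace Pool.SF

theorem NOR_alg {S K : Type} [CommRing S] [IsDomain S] [Field K] [Algebra S K]
    [IsFractionRing S K] [IsIntegrallyClosed S] (P : Ideal S) [P.IsPrime] (R : Subring K)
    (hR : ∀ z : K, z ∈ R ↔ ∃ a b : S, b ∉ P ∧ z = algebraMap S K a / algebraMap S K b)
    (z : K) (hz : IsIntegral R z) : z ∈ R := by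
  have hM : P.primeCompl ≤ nonZeroDivisors S := P.primeCompl_le_nonZeroDivisors
  have hT : R = (Localization.subalgebra.ofField K P.primeCompl hM).toSubring := by
    ext w
    rw [hR]
    constructor
    · rintro ⟨a, b, hb, rfl⟩
      exact ⟨a, b, hb, by rw [div_eq_mul_inv]⟩
    · rintro ⟨a, b, hb, h⟩
      exact ⟨a, b, hb, by rw [div_eq_mul_inv]; exact h⟩
  subst hT
  have hIC : IsIntegrallyClosed (Localization.subalgebra.ofField K P.primeCompl hM) :=
    isIntegrallyClosed_of_isLocalization _ P.primeCompl hM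
  have h2 : IsIntegral (Localization.subalgebra.ofField K P.primeCompl hM) z := hz
  obtain ⟨y, hy⟩ := (isIntegrallyClosed_iff K).1 hIC h2
  rw [← hy]
  exact y.2

theorem p_NOR (hSCH : Stmt_SCH) (hNOA : Stmt_NOA) : Stmt_NOR := by
  intro k _ X f _ n _ x z hz
  obtain ⟨S, _, _, _, _, _, _, P, hP, hsm, hS⟩ := hSCH k X f n x
  have := hNOA k S n
  exact NOR_alg P (stR f x) hS z hz

end Pool.SF
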