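import Pool.Agent.Work.MP_bf99ce_sf.Interface

set_option autoImplicit false

open AlgebraicGeometry CategoryTheory

noncomputable section

namespace Pool.SF

/-- the alternating form with prescribed values -/
def NZR_alt {K W : Type} [Field K] [AddCommGroup W] [Module K W] {d q : ℕ} (g : W →ₗ[K] (Fin d → K))
    (y : (Fin q ↪o Fin d) → K) : W [⋀^Fin q]→ₗ[K] K :=
  ∑ I : Fin q ↪o Fin d, y I • (Matrix.detRowAlternating (R := K) (n := Fin q)).compLinearMap
    (LinearMap.pi fun j : Fin q => (LinearMap.proj (I j)).comp g)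

theorem NZR_alt_apply {K W : Type} [Field K] [AddCommGroup W] [Module K W] {d q : ℕ} (g : W →ₗ[K] (Fin d → K))
    (y : (Fin q ↪o Fin d) → K) (ω : Fin d → W) (hg : ∀ i, g (ω i) = Pi.single i 1) (a : Fin q → Fin d) :
    NZR_alt g y (fun i => ω (a i)) = ext y a := by
  unfold NZR_alt ext
  have hs : ∀ v : Fin q → W, (∑ I : Fin q ↪o Fin d, y I • (Matrix.detRowAlternating (R := K) (n := Fin q)).compLinearMap
      (LinearMap.pi fun j : Fin q => (LinearMap.proj (I j)).comp g)) v = ∑ I : Fin q ↪o Fin d, (y I •
      (Matrix.detRowAlternating (R := K) (n := Fin q)).compLinearMap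
      (LinearMap.pi fun j : Fin q => (LinearMap.proj (I j)).comp g)) v := by
    intro v
    exact map_sum (⟨⟨fun F : W [⋀^Fin q]→ₗ[K] K => F v, rfl⟩, fun _ _ => rfl⟩ : (W [⋀^Fin q]→ₗ[K] K) →+ K) _ _
  rw [hs]
  refine Finset.sum_congr rfl fun I _ => ?_
  rw [AlternatingMap.smul_apply, AlternatingMap.compLinearMap_apply, smul_eq_mul, mul_comm]
  congr 1
  change Matrix.det _ = Matrix.det _
  congr 1
  ext i j
  simp only [LinearMap.pi_apply, LinearMap.comp_apply, LinearMap.proj_apply, hg, Matrix.of_apply]
  rw [Pi.single_apply]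
  simp only [eq_comm]

theorem p_NZR (hUAR : Stmt_UAR) : Stmt_NZR := by
  intro k K W _ _ _ _ _ _ d q f hf ω hω hval
  obtain ⟨y, hy⟩ : ∃ y : (Fin q ↪o Fin d) → k, MvPolynomial.eval y f ≠ 0 := by
    by_contra hcon
    push Not at hcon
    exact hf (MvPolynomial.funext fun x => by rw [hcon x, map_zero])
  -- the dual forms
  have hinj : LinearMap.ker (Fintype.linearCombination K ω) = ⊥ := by
    rw [LinearMap.ker_eq_bot]
    exact linearIndependent_iff_injective_fintypeLinearCombination.mp hω
  obtain ⟨g, hg⟩ := LinearMap.exists_leftInverse_of_injective _ hinj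
  have hg' : ∀ i, g (ω i) = Pi.single i 1 := by
    intro i
    have h1 := LinearMap.congr_fun hg (Pi.single i 1)
    simp only [LinearMap.comp_apply, LinearMap.id_apply] at h1
    rw [← h1]
    congr 1
    rw [Fintype.linearCombination_apply]
    simp [Pi.single_apply]
  set A := NZR_alt g (fun I : Fin q ↪o Fin d => algebraMap k K (y I)) with hA
  set L : SA K W q →ₐ[K] K := SymmetricAlgebra.lift (exteriorPower.alternatingMapLinearEquiv A) with hL
  have hLw : ∀ a : Fin q → Fin d, L (wdg K q (fun i => ω (a i))) =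
      ext (fun I : Fin q ↪o Fin d => algebraMap k K (y I)) a := by
    intro a
    unfold wdg
    rw [hL, SymmetricAlgebra.lift_ι_apply, exteriorPower.alternatingMapLinearEquiv_apply_ιMulti]
    exact NZR_alt_apply g _ ω hg' a
  have h2 : L (val K f ω) = algebraMap k K (MvPolynomial.eval y f) := by
    unfold val
    rw [← RingHom.coe_coe L, MvPolynomial.hom_eval₂]
    have h3 : ((L : SA K W q →+* K).comp ((algebraMap K (SA K W q)).comp (algebraMap k K))) = algebraMap k K := by
      ext x
      simp
    have h4 : (fun I : Fin q ↪o Fin d => (L : SA K W q →+* K) (wdg K q (fun i => ω (I i)))) =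
        fun I : Fin q ↪o Fin d => algebraMap k K (y I) := by
      funext I
      have := hLw I
      rw [(hUAR K).2.1] at this
      exact this
    change MvPolynomial.eval₂ _ (fun I : Fin q ↪o Fin d => (L : SA K W q →+* K) (wdg K q (fun i => ω (I i)))) f = _
    rw [h3, h4]
    rw [MvPolynomial.eval, MvPolynomial.coe_eval₂Hom, MvPolynomial.hom_eval₂]
    rfl
  rw [hval, map_zero] at h2
  exact hy ((map_eq_zero _).mp h2.symm)

end Pool.SF
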