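import Pool.Agent.Work.MP_bf99ce_sf.Interface

/-! # Block POL: homogeneous polynomials in elements of `Lat K R S q 1` -/

set_option autoImplicit false

noncomputable section

namespace Pool.SF

theorem POL_one (K W : Type) [Field K] [AddCommGroup W] [Module K W] (R : Subring K) (S : Set W)
    (q : ℕ) : (1 : SA K W q) ∈ Lat K R S q 0 := by
  refine Submodule.subset_span ⟨fun j => j.elim0, fun j => j.elim0, ?_⟩
  simp

theorem POL_mul (K W : Type) [Field K] [AddCommGroup W] [Module K W] (R : Subring K) (S : Set W)
    (q m m' : ℕ) (z z' : SA K W q) (hz : z ∈ Lat K R S q m) (hz' : z' ∈ Lat K R S q m') :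
    z * z' ∈ Lat K R S q (m + m') := by
  unfold Lat at hz
  induction hz using Submodule.span_induction with
  | mem z h =>
    obtain ⟨w, hw, rfl⟩ := h
    unfold Lat at hz'
    induction hz' using Submodule.span_induction with
    | mem z' h' =>
      obtain ⟨w', hw', rfl⟩ := h'
      refine Submodule.subset_span ⟨Fin.append w w', ?_, ?_⟩
      · intro j i
        refine Fin.addCases (fun a => ?_) (fun a => ?_) j
        · rw [Fin.append_left]; exact hw a i
        · rw [Fin.append_right]; exact hw' a i
      · rw [Fin.prod_univ_add]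
        congr 1
        · refine Finset.prod_congr rfl fun j _ => ?_
          rw [Fin.append_left]
        · refine Finset.prod_congr rfl fun j _ => ?_
          rw [Fin.append_right]
    | zero => rw [mul_zero]; exact Submodule.zero_mem _
    | add x y _ _ hx hy => rw [mul_add]; exact Submodule.add_mem _ hx hy
    | smul a x _ hx =>
      have h : (∏ j, wdg K q (w j)) * (a • x) = a • ((∏ j, wdg K q (w j)) * x) :=
        mul_smul_comm (a : K) _ x
      rw [h]
      exact Submodule.smul_mem _ a hx
  | zero => rw [zero_mul]; exact Submodule.zero_mem _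
  | add x y _ _ hx hy => rw [add_mul]; exact Submodule.add_mem _ hx hy
  | smul a x _ hx =>
    have h : (a • x) * z' = a • (x * z') := smul_mul_assoc (a : K) x z'
    rw [h]
    exact Submodule.smul_mem _ a hx

theorem POL_pow (K W : Type) [Field K] [AddCommGroup W] [Module K W] (R : Subring K) (S : Set W)
    (q m p : ℕ) (z : SA K W q) (hz : z ∈ Lat K R S q m) : z ^ p ∈ Lat K R S q (m * p) := by
  induction p with
  | zero => rw [pow_zero, Nat.mul_zero]; exact POL_one K W R S q
  | succ p ih => rw [pow_succ, Nat.mul_succ]; exact POL_mul K W R S q _ _ _ _ ih hz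

theorem POL_prod (K W : Type) [Field K] [AddCommGroup W] [Module K W] (R : Subring K) (S : Set W)
    (q : ℕ) (I : Type) (z : I → SA K W q) (hz : ∀ i, z i ∈ Lat K R S q 1) (s : Finset I)
    (e : I → ℕ) : (∏ i ∈ s, z i ^ e i) ∈ Lat K R S q (∑ i ∈ s, e i) := by
  classical
  induction s using Finset.induction_on with
  | empty => rw [Finset.prod_empty, Finset.sum_empty]; exact POL_one K W R S q
  | insert a s ha ih =>
    rw [Finset.prod_insert ha, Finset.sum_insert ha]
    refine POL_mul K W R S q _ _ _ _ ?_ ih
    have h := POL_pow K W R S q 1 (e a) (z a) (hz a)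
    rwa [Nat.one_mul] at h

theorem p_POL (_ : Stmt_LSP) : Stmt_POL := by
  intro k K W _ _ _ _ _ R S q hR
  refine ⟨?_, fun m p z hz => POL_pow K W R S q m p z hz⟩
  intro I f m z hf hz
  rw [MvPolynomial.eval₂_eq]
  refine Submodule.sum_mem _ fun d hd => ?_
  have h1 : (∑ i ∈ d.support, d i) = m := by
    have h2 := hf (MvPolynomial.mem_support_iff.1 hd)
    rw [← h2]
    simp [Finsupp.weight_apply, Finsupp.sum]
  have h3 := POL_prod K W R S q I z hz d.support d
  rw [h1] at h3
  have h4 : ((algebraMap K (SA K W q)).comp (algebraMap k K)) (MvPolynomial.coeff d f) *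
      (∏ i ∈ d.support, z i ^ d i) =
      (⟨algebraMap k K (MvPolynomial.coeff d f), hR _⟩ : R) • (∏ i ∈ d.support, z i ^ d i) := by
    rw [RingHom.comp_apply]
    exact (Algebra.smul_def _ _).symm
  rw [h4]
  exact Submodule.smul_mem _ _ h3

end Pool.SF
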