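import Pool.Agent.Work.MP_bf99ce_sf.Interface

/-! # THEOREM SF (MP_bf99ce_ag): block RA1 (a nonconstant rational invariant) -/

set_option autoImplicit false

open AlgebraicGeometry CategoryTheory

noncomputable section

namespace Pool.SF

section RA1

variable {k : Type} [Field k] {d q : ℕ}

/-- the polynomial ring -/
abbrev RA1_P (k : Type) [Field k] (d q : ℕ) : Type := MvPolynomial (Fin q ↪o Fin d) k

/-- its fraction field -/
abbrev RA1_K (k : Type) [Field k] (d q : ℕ) : Type := FractionRing (RA1_P k d q)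

/-- the image of the variables -/
def RA1_xi (k : Type) [Field k] (d q : ℕ) : (Fin q ↪o Fin d) → RA1_K k d q := fun I =>
  algebraMap (RA1_P k d q) (RA1_K k d q) (MvPolynomial.X I)

/-- the values -/
def RA1_v (k : Type) [Field k] (d q : ℕ) (h : Matrix (Fin d) (Fin d) k) : (Fin q → Fin d) → RA1_K k d q :=
  act (h.map (algebraMap k (RA1_K k d q))) (ext (RA1_xi k d q))

theorem RA1_alg (c : k) : algebraMap k (RA1_K k d q) c =
    algebraMap (RA1_P k d q) (RA1_K k d q) (MvPolynomial.C c) := by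
  rw [IsScalarTower.algebraMap_apply k (RA1_P k d q) (RA1_K k d q), MvPolynomial.algebraMap_eq]

/-- `al g` on the extended array of the variables -/
theorem RA1_alX (hACT : Stmt_ACT) (hUAR : Stmt_UAR) (g : Matrix (Fin d) (Fin d) k) :
    (fun a => al g (ext (MvPolynomial.X : (Fin q ↪o Fin d) → RA1_P k d q) a)) =
      act (g.map MvPolynomial.C) (ext MvPolynomial.X) := by
  have h4 := (hUAR (RA1_P k d q)).2.2.2 (RA1_P k d q) ((al g : RA1_P k d q →ₐ[k] RA1_P k d q) : RA1_P k d q →+* RA1_P k d q) d q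
    (MvPolynomial.X : (Fin q ↪o Fin d) → RA1_P k d q)
  have h3 := (hUAR (RA1_P k d q)).2.2.1 d q
    (act (g.map MvPolynomial.C) (ext (MvPolynomial.X : (Fin q ↪o Fin d) → RA1_P k d q)))
    ((hACT (RA1_P k d q)).2.2.1 d d q _ _ ((hUAR (RA1_P k d q)).1 d q _))
  have h5 : (fun I : Fin q ↪o Fin d =>
        ((al g : RA1_P k d q →ₐ[k] RA1_P k d q) : RA1_P k d q →+* RA1_P k d q)
          (MvPolynomial.X I)) =
      fun I : Fin q ↪o Fin d => act (g.map MvPolynomial.C) (ext MvPolynomial.X) I := by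
    funext I
    simp [al]
  rw [h5, h3] at h4
  exact h4

theorem RA1_extxi (hUAR : Stmt_UAR) :
    (fun a => algebraMap (RA1_P k d q) (RA1_K k d q)
      (ext (MvPolynomial.X : (Fin q ↪o Fin d) → RA1_P k d q) a)) = ext (RA1_xi k d q) :=
  (hUAR (RA1_P k d q)).2.2.2 (RA1_K k d q) (algebraMap (RA1_P k d q) (RA1_K k d q)) d q _

theorem RA1_inj (hALP : Stmt_ALP) (g : Matrix (Fin d) (Fin d) k) (hg : g.det ≠ 0) :
    Function.Injective ((al g : RA1_P k d q →ₐ[k] RA1_P k d q) : RA1_P k d q →+* RA1_P k d q) := by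
  intro a b hab
  have h1 := (hALP k d q).1 g⁻¹ g a
  have h2 := (hALP k d q).1 g⁻¹ g b
  have h3 : g * g⁻¹ = 1 := Matrix.mul_nonsing_inv g (isUnit_iff_ne_zero.2 hg)
  rw [h3, (hALP k d q).2.1] at h1 h2
  have h4 : al g a = al g b := hab
  rw [← h1, ← h2, h4]

/-- the extension of `al g` to the fraction field -/
def RA1_A (hALP : Stmt_ALP) (g : Matrix (Fin d) (Fin d) k) (hg : g.det ≠ 0) :
    RA1_K k d q →+* RA1_K k d q :=
  IsFractionRing.map (A := RA1_P k d q) (B := RA1_P k d q) (K := RA1_K k d q) (L := RA1_K k d q)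
    (RA1_inj (q := q) hALP g hg)

theorem RA1_A_alg (hALP : Stmt_ALP) (g : Matrix (Fin d) (Fin d) k) (hg : g.det ≠ 0)
    (a : RA1_P k d q) : RA1_A hALP g hg (algebraMap (RA1_P k d q) (RA1_K k d q) a) =
      algebraMap (RA1_P k d q) (RA1_K k d q) (al g a) := by
  unfold RA1_A IsFractionRing.map
  rw [IsLocalization.map_eq]
  rfl

theorem RA1_A_k (hALP : Stmt_ALP) (g : Matrix (Fin d) (Fin d) k) (hg : g.det ≠ 0)
    (c : k) : RA1_A hALP g hg (algebraMap k (RA1_K k d q) c) = algebraMap k (RA1_K k d q) c := by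
  rw [RA1_alg, RA1_A_alg]
  congr 1
  simp [al]

theorem RA1_A_xi (hACT : Stmt_ACT) (hUAR : Stmt_UAR) (hALP : Stmt_ALP)
    (g : Matrix (Fin d) (Fin d) k) (hg : g.det ≠ 0) (a : Fin q → Fin d) :
    RA1_A hALP g hg (ext (RA1_xi k d q) a) =
      act (g.map (algebraMap k (RA1_K k d q))) (ext (RA1_xi k d q)) a := by
  have h1 := congrFun (RA1_extxi (k := k) (d := d) (q := q) hUAR) a
  rw [← h1, RA1_A_alg, congrFun (RA1_alX hACT hUAR g) a]
  have h2 := congrFun ((hACT (RA1_P k d q)).2.2.2 (RA1_K k d q)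
    (algebraMap (RA1_P k d q) (RA1_K k d q)) d d q (g.map MvPolynomial.C)
    (ext (MvPolynomial.X : (Fin q ↪o Fin d) → RA1_P k d q))) a
  rw [RA1_extxi hUAR] at h2
  have h3 : (g.map MvPolynomial.C).map (algebraMap (RA1_P k d q) (RA1_K k d q)) =
      g.map (algebraMap k (RA1_K k d q)) := by
    ext i j
    simp only [Matrix.map_apply]
    exact (RA1_alg _).symm
  rw [h3] at h2
  exact h2

theorem RA1_A_v (hACT : Stmt_ACT) (hUAR : Stmt_UAR) (hALP : Stmt_ALP)
    (g : Matrix (Fin d) (Fin d) k) (hg : g.det ≠ 0) (h : Matrix (Fin d) (Fin d) k)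
    (a : Fin q → Fin d) :
    RA1_A hALP g hg (RA1_v k d q h a) = RA1_v k d q (h * g) a := by
  have h2 := congrFun ((hACT (RA1_K k d q)).2.2.2 (RA1_K k d q) (RA1_A hALP g hg) d d q
    (h.map (algebraMap k (RA1_K k d q))) (ext (RA1_xi k d q))) a
  unfold RA1_v
  refine h2.trans ?_
  have h3 : (h.map (algebraMap k (RA1_K k d q))).map (RA1_A hALP g hg) =
      h.map (algebraMap k (RA1_K k d q)) := by
    ext i j
    simp only [Matrix.map_apply]
    exact RA1_A_k hALP g hg _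
  have h4 : (fun a => RA1_A hALP g hg (ext (RA1_xi k d q) a)) =
      act (g.map (algebraMap k (RA1_K k d q))) (ext (RA1_xi k d q)) := by
    funext a
    exact RA1_A_xi hACT hUAR hALP g hg a
  rw [h3, h4, (hACT (RA1_K k d q)).1, Matrix.map_mul]

theorem RA1_v_one (hACT : Stmt_ACT) (hUAR : Stmt_UAR) (I : Fin q ↪o Fin d) :
    RA1_v k d q 1 I = RA1_xi k d q I := by
  unfold RA1_v
  rw [Matrix.map_one _ (map_zero _) (map_one _), (hACT (RA1_K k d q)).2.1,
    (hUAR (RA1_K k d q)).2.1]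

/-- the relations -/
def RA1_S (k : Type) [Field k] (d q : ℕ) (Φ : MvPolynomial (Fin q ↪o Fin d) (RA1_K k d q)) : Prop :=
  ∀ h : Matrix (Fin d) (Fin d) k, h.det ≠ 0 →
    MvPolynomial.eval (fun I : Fin q ↪o Fin d => RA1_v k d q h I) Φ = 0

theorem RA1_exists (hACT : Stmt_ACT) (hUAR : Stmt_UAR) (hTRD : Stmt_TRD)
    (hcard : d ^ 2 < Fintype.card (Fin q ↪o Fin d)) :
    ∃ Φ : MvPolynomial (Fin q ↪o Fin d) (RA1_K k d q), Φ ≠ 0 ∧ RA1_S k d q Φ := by
  set G : Matrix (Fin d) (Fin d) (MvPolynomial (Fin d × Fin d) (RA1_K k d q)) :=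
    Matrix.of fun i j => MvPolynomial.X (i, j) with hG
  set Y : (Fin q ↪o Fin d) → MvPolynomial (Fin d × Fin d) (RA1_K k d q) := fun I =>
    act G (ext fun I => MvPolynomial.C (RA1_xi k d q I)) I with hY
  obtain ⟨Φ, hΦ, hΦ0⟩ := hTRD (RA1_K k d q) (Fin q ↪o Fin d) (Fin d × Fin d) Y (by
    rw [Fintype.card_prod, Fintype.card_fin, ← sq]
    exact hcard)
  refine ⟨Φ, hΦ, fun h hh => ?_⟩
  set ev : MvPolynomial (Fin d × Fin d) (RA1_K k d q) →ₐ[RA1_K k d q] RA1_K k d q :=
    MvPolynomial.aeval (fun p : Fin d × Fin d => algebraMap k (RA1_K k d q) (h p.1 p.2)) with hev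
  have h1 : ∀ I : Fin q ↪o Fin d, ev (Y I) = RA1_v k d q h I := by
    intro I
    have h2 := congrFun ((hACT _).2.2.2 (RA1_K k d q)
      (ev : MvPolynomial (Fin d × Fin d) (RA1_K k d q) →+* RA1_K k d q) d d q G
      (ext fun I => MvPolynomial.C (RA1_xi k d q I))) I
    have h3 := (hUAR _).2.2.2 (RA1_K k d q)
      (ev : MvPolynomial (Fin d × Fin d) (RA1_K k d q) →+* RA1_K k d q) d q
      (fun I => MvPolynomial.C (RA1_xi k d q I))
    have h4 : (fun I : Fin q ↪o Fin d =>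
        (ev : MvPolynomial (Fin d × Fin d) (RA1_K k d q) →+* RA1_K k d q)
          (MvPolynomial.C (RA1_xi k d q I))) = RA1_xi k d q := by
      funext I
      simp [hev]
    have h5 : G.map (ev : MvPolynomial (Fin d × Fin d) (RA1_K k d q) →+* RA1_K k d q) =
        h.map (algebraMap k (RA1_K k d q)) := by
      ext i j
      simp [hG, hev]
    rw [h4] at h3
    rw [h3, h5] at h2
    exact h2
  have h6 : ev (MvPolynomial.aeval Y Φ) = 0 := by rw [hΦ0, map_zero]
  have h7 : ev (MvPolynomial.aeval Y Φ) = MvPolynomial.aeval (fun I => ev (Y I)) Φ := by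
    rw [← MvPolynomial.comp_aeval]
    rfl
  rw [h7] at h6
  have h8 : (fun I => ev (Y I)) = fun I : Fin q ↪o Fin d => RA1_v k d q h I := funext h1
  rw [h8] at h6
  rw [← h6]
  rfl

theorem RA1_map (hACT : Stmt_ACT) (hUAR : Stmt_UAR) (hALP : Stmt_ALP)
    (g : Matrix (Fin d) (Fin d) k) (hg : g.det ≠ 0)
    (Φ : MvPolynomial (Fin q ↪o Fin d) (RA1_K k d q)) (hΦ : RA1_S k d q Φ) :
    RA1_S k d q (MvPolynomial.map (RA1_A hALP g hg) Φ) := by
  intro h hh
  have h1 : g⁻¹ * g = 1 := Matrix.nonsing_inv_mul g (isUnit_iff_ne_zero.2 hg)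
  have h2 : (h * g⁻¹) * g = h := by rw [Matrix.mul_assoc, h1, Matrix.mul_one]
  have h3 : (h * g⁻¹).det ≠ 0 := by
    intro h0
    have h4 : ((h * g⁻¹) * g).det = 0 := by rw [Matrix.det_mul, h0, zero_mul]
    rw [h2] at h4
    exact hh h4
  have h5 := hΦ _ h3
  have h6 : (fun I : Fin q ↪o Fin d => RA1_v k d q h I) =
      fun I : Fin q ↪o Fin d => RA1_A hALP g hg (RA1_v k d q (h * g⁻¹) I) := by
    funext I
    rw [RA1_A_v hACT hUAR hALP, h2]
  rw [h6, MvPolynomial.eval_map]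
  have h7 := congrArg (RA1_A hALP g hg) h5
  rw [map_zero] at h7
  rw [← h7]
  rw [MvPolynomial.eval, MvPolynomial.coe_eval₂Hom, MvPolynomial.eval₂_comp_left]
  rfl

end RA1

theorem p_RA1 (hACT : Stmt_ACT) (hUAR : Stmt_UAR) (hALP : Stmt_ALP) (hTRD : Stmt_TRD) :
    Stmt_RA1 := by
  intro k _ _ d q hcard
  classical
  -- a relation with the least number of monomials
  obtain ⟨Φ₁, hΦ₁, hS₁⟩ := RA1_exists (k := k) hACT hUAR hTRD hcard
  have hex : ∃ n : ℕ, ∃ Φ : MvPolynomial (Fin q ↪o Fin d) (RA1_K k d q), Φ ≠ 0 ∧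
      RA1_S k d q Φ ∧ Φ.support.card = n := ⟨_, Φ₁, hΦ₁, hS₁, rfl⟩
  obtain ⟨Φ₂, hΦ₂, hS₂, hn⟩ := Nat.find_spec hex
  have hmin : ∀ Ψ : MvPolynomial (Fin q ↪o Fin d) (RA1_K k d q), RA1_S k d q Ψ →
      Ψ.support.card < Φ₂.support.card → Ψ = 0 := by
    intro Ψ hΨ hlt
    by_contra hne
    rw [hn] at hlt
    exact Nat.find_min hex hlt ⟨Ψ, hne, hΨ, rfl⟩
  obtain ⟨m, hm⟩ : Φ₂.support.Nonempty := by
    rw [Finset.nonempty_iff_ne_empty]
    intro h0
    exact hΦ₂ (MvPolynomial.support_eq_empty.1 h0)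
  have hc1 : MvPolynomial.coeff m Φ₂ ≠ 0 := MvPolynomial.mem_support_iff.1 hm
  set Φ : MvPolynomial (Fin q ↪o Fin d) (RA1_K k d q) :=
    MvPolynomial.C (MvPolynomial.coeff m Φ₂)⁻¹ * Φ₂ with hΦdef
  have hcoef : ∀ m', MvPolynomial.coeff m' Φ =
      (MvPolynomial.coeff m Φ₂)⁻¹ * MvPolynomial.coeff m' Φ₂ := by
    intro m'
    rw [hΦdef, MvPolynomial.coeff_C_mul]
  have hcm : MvPolynomial.coeff m Φ = 1 := by
    rw [hcoef, inv_mul_cancel₀ hc1]
  have hΦ0 : Φ ≠ 0 := by
    intro h0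
    rw [h0, MvPolynomial.coeff_zero] at hcm
    exact zero_ne_one hcm
  have hsub : ∀ m', m' ∉ Φ₂.support → MvPolynomial.coeff m' Φ = 0 := by
    intro m' hm'
    rw [hcoef, MvPolynomial.notMem_support_iff.1 hm', mul_zero]
  have hS : RA1_S k d q Φ := by
    intro h hh
    rw [hΦdef, map_mul, hS₂ h hh, mul_zero]
  -- the coefficients are invariant
  have hinv : ∀ (g : Matrix (Fin d) (Fin d) k) (hg : g.det ≠ 0) (m' : (Fin q ↪o Fin d) →₀ ℕ),
      RA1_A hALP g hg (MvPolynomial.coeff m' Φ) = MvPolynomial.coeff m' Φ := by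
    intro g hg m'
    have hΨ0 : MvPolynomial.map (RA1_A hALP g hg) Φ - Φ = 0 := by
      apply hmin
      · intro h hh
        rw [map_sub, RA1_map hACT hUAR hALP g hg Φ hS h hh, hS h hh, sub_zero]
      · apply Finset.card_lt_card
        refine ⟨?_, ?_⟩
        · intro m'' hm''
          by_contra hno
          rw [MvPolynomial.mem_support_iff] at hm''
          apply hm''
          rw [MvPolynomial.coeff_sub, MvPolynomial.coeff_map, hsub _ hno, map_zero, sub_zero]
        · intro hle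
          have h2 := hle hm
          rw [MvPolynomial.mem_support_iff] at h2
          apply h2
          rw [MvPolynomial.coeff_sub, MvPolynomial.coeff_map, hcm, map_one, sub_self]
    have h3 := congrArg (MvPolynomial.coeff m') hΨ0
    rw [MvPolynomial.coeff_sub, MvPolynomial.coeff_map, MvPolynomial.coeff_zero] at h3
    exact sub_eq_zero.1 h3
  -- some coefficient is not a constant
  have hnc : ∃ m', MvPolynomial.coeff m' Φ ∉ (algebraMap k (RA1_K k d q)).range := by
    by_contra hno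
    push Not at hno
    have hsubs : (Φ.coeffs : Set (RA1_K k d q)) ⊆ Set.range (algebraMap k (RA1_K k d q)) := by
      intro c hc
      obtain ⟨n, -, hn⟩ := MvPolynomial.mem_coeffs_iff.1 (Finset.mem_coe.1 hc)
      obtain ⟨z, hz⟩ := hno n
      exact ⟨z, by rw [hz, hn]⟩
    obtain ⟨Φ₀, hΦ₀⟩ := MvPolynomial.mem_range_map_iff_coeffs_subset.2 hsubs
    have h1 := hS 1 (by rw [Matrix.det_one]; exact one_ne_zero)
    have h2 : (fun I : Fin q ↪o Fin d => RA1_v k d q 1 I) = RA1_xi k d q := by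
      funext I
      exact RA1_v_one hACT hUAR I
    rw [h2, ← hΦ₀, MvPolynomial.eval_map] at h1
    have h3 : MvPolynomial.eval₂ (algebraMap k (RA1_K k d q)) (RA1_xi k d q) Φ₀ =
        algebraMap (RA1_P k d q) (RA1_K k d q) Φ₀ := by
      have h4 : algebraMap (RA1_P k d q) (RA1_K k d q)
          (MvPolynomial.eval₂ MvPolynomial.C MvPolynomial.X Φ₀) =
          MvPolynomial.eval₂ ((algebraMap (RA1_P k d q) (RA1_K k d q)).comp MvPolynomial.C)
            (fun I => algebraMap (RA1_P k d q) (RA1_K k d q) (MvPolynomial.X I)) Φ₀ :=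
        MvPolynomial.eval₂_comp_left _ _ _ _
      rw [MvPolynomial.eval₂_eta] at h4
      rw [h4]
      have h6 : algebraMap k (RA1_K k d q) =
          (algebraMap (RA1_P k d q) (RA1_K k d q)).comp MvPolynomial.C := by
        ext c
        exact RA1_alg c
      rw [h6]
      rfl
    rw [h3] at h1
    have h5 : Φ₀ = 0 :=
      (IsFractionRing.injective (RA1_P k d q) (RA1_K k d q)) (by rw [h1, map_zero])
    apply hΦ0
    rw [← hΦ₀, h5, map_zero]
  obtain ⟨m', hm'⟩ := hnc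
  obtain ⟨a, b, hb, hab⟩ := IsFractionRing.div_surjective (A := RA1_P k d q)
    (MvPolynomial.coeff m' Φ)
  have hb0 : b ≠ 0 := nonZeroDivisors.ne_zero hb
  have hbK : algebraMap (RA1_P k d q) (RA1_K k d q) b ≠ 0 := by
    intro h0
    exact hb0 ((IsFractionRing.injective (RA1_P k d q) (RA1_K k d q)) (by rw [h0, map_zero]))
  refine ⟨a, b, hb0, ?_, ?_⟩
  · intro z hz
    apply hm'
    refine ⟨z, ?_⟩
    rw [← hab, hz, map_mul, mul_div_cancel_right₀ _ hbK, RA1_alg]
  · intro g hg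
    have h1 := hinv g hg m'
    rw [← hab, map_div₀, RA1_A_alg, RA1_A_alg] at h1
    have h2 : algebraMap (RA1_P k d q) (RA1_K k d q) (al g b) ≠ 0 := by
      intro h0
      have h3 : al g b = 0 :=
        (IsFractionRing.injective (RA1_P k d q) (RA1_K k d q)) (by rw [h0, map_zero])
      exact hb0 (RA1_inj hALP g hg (by
        change al g b = al g 0
        rw [h3, map_zero]))
    rw [div_eq_div_iff h2 hbK, ← map_mul, ← map_mul] at h1
    exact IsFractionRing.injective (RA1_P k d q) (RA1_K k d q) h1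

end Pool.SF
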