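import Pool.Agent.Work.MP_bf99ce_sf.Interface

/-!
# THEOREM SF (MP_bf99ce_ag), block RA2
-/

set_option autoImplicit false

open AlgebraicGeometry CategoryTheory

noncomputable section

namespace Pool.SF

theorem RA2_top {σ k : Type} [Field k] (f : MvPolynomial σ k) (hf : f ≠ 0) :
    MvPolynomial.homogeneousComponent f.totalDegree f ≠ 0 := by
  classical
  obtain ⟨s, hs, he⟩ := Finset.exists_mem_eq_sup f.support
    (MvPolynomial.support_nonempty.2 hf) (fun s : σ →₀ ℕ => s.sum fun _ e => e)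
  intro h0
  have h1 : MvPolynomial.coeff s (MvPolynomial.homogeneousComponent f.totalDegree f) = 0 := by
    rw [h0, MvPolynomial.coeff_zero]
  rw [MvPolynomial.coeff_homogeneousComponent, if_pos] at h1
  · exact (MvPolynomial.mem_support_iff.1 hs) h1
  · rw [MvPolynomial.totalDegree, he]
    rfl

theorem RA2_core (hALP : Stmt_ALP) (k : Type) [Field k] (d q : ℕ)
    (f : MvPolynomial (Fin q ↪o Fin d) k) (hf : f ≠ 0) (hd : 1 ≤ f.totalDegree)
    (hdv : ∀ g : Matrix (Fin d) (Fin d) k, g.det ≠ 0 → f ∣ al g f) :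
    ∃ (m : ℕ) (f : MvPolynomial (Fin q ↪o Fin d) k), 1 ≤ m ∧ f ≠ 0 ∧ f.IsHomogeneous m ∧
      ∀ g : Matrix (Fin d) (Fin d) k, g.det ≠ 0 → ∃ u : k, al g f = MvPolynomial.C u * f := by
  obtain ⟨-, -, h3, h4, -⟩ := hALP k d q
  refine ⟨f.totalDegree, MvPolynomial.homogeneousComponent f.totalDegree f, hd, RA2_top f hf,
    MvPolynomial.homogeneousComponent_isHomogeneous _ _, fun g hg => ?_⟩
  obtain ⟨w, hw⟩ := hdv g hg
  have hex : ∃ u : k, al g f = MvPolynomial.C u * f := by
    by_cases hw0 : w = 0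
    · exact ⟨0, by rw [hw, hw0]; simp⟩
    · have h5 := h3 g f
      rw [hw, MvPolynomial.totalDegree_mul_of_isDomain hf hw0] at h5
      have h6 : w.totalDegree = 0 := by omega
      rw [MvPolynomial.totalDegree_eq_zero_iff_eq_C] at h6
      exact ⟨MvPolynomial.coeff 0 w, by rw [hw, mul_comm, ← h6]⟩
  obtain ⟨u, hu⟩ := hex
  refine ⟨u, ?_⟩
  rw [← h4, hu, MvPolynomial.homogeneousComponent_C_mul]

theorem p_RA2 (hALP : Stmt_ALP) : Stmt_RA2 := by
  intro k _ _ d q a b hb hab hinv
  obtain ⟨h1, h2, h3, h4, -⟩ := hALP k d q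
  obtain ⟨a', b', c, hrel, ha', hb'⟩ := UniqueFactorizationMonoid.exists_reduced_factors' a b hb
  have hc : c ≠ 0 := by
    rintro rfl
    exact hb (by rw [← hb', zero_mul])
  have hb0 : b' ≠ 0 := by
    rintro rfl
    exact hb (by rw [← hb', mul_zero])
  have hinj : ∀ g : Matrix (Fin d) (Fin d) k, g.det ≠ 0 → al g c ≠ 0 := by
    intro g hg h0
    have h5 := h1 g⁻¹ g c
    rw [h0, map_zero, Matrix.mul_nonsing_inv g (Ne.isUnit hg), h2] at h5
    exact hc h5.symm
  have hinv' : ∀ g : Matrix (Fin d) (Fin d) k, g.det ≠ 0 → al g a' * b' = a' * al g b' := by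
    intro g hg
    have h5 := hinv g hg
    rw [← ha', ← hb', map_mul, map_mul] at h5
    have h6 : (al g c * c) * (al g a' * b') = (al g c * c) * (a' * al g b') := by
      linear_combination h5
    exact mul_left_cancel₀ (mul_ne_zero (hinj g hg) hc) h6
  by_cases hbd : 1 ≤ b'.totalDegree
  · refine RA2_core hALP k d q b' hb0 hbd fun g hg => ?_
    refine hrel.symm.dvd_of_dvd_mul_left (z := al g b') ?_
    rw [← hinv' g hg]
    exact dvd_mul_left _ _
  · by_cases had : 1 ≤ a'.totalDegree
    · have ha0 : a' ≠ 0 := by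
        rintro rfl
        simp at had
      refine RA2_core hALP k d q a' ha0 had fun g hg => ?_
      refine hrel.dvd_of_dvd_mul_right (y := al g a') ?_
      rw [hinv' g hg]
      exact dvd_mul_right _ _
    · exfalso
      have e1 : a' = MvPolynomial.C (MvPolynomial.coeff 0 a') :=
        MvPolynomial.totalDegree_eq_zero_iff_eq_C.1 (by omega)
      have e2 : b' = MvPolynomial.C (MvPolynomial.coeff 0 b') :=
        MvPolynomial.totalDegree_eq_zero_iff_eq_C.1 (by omega)
      have hy : MvPolynomial.coeff 0 b' ≠ 0 := by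
        intro h0
        rw [h0, map_zero] at e2
        exact hb0 e2
      apply hab (MvPolynomial.coeff 0 a' / MvPolynomial.coeff 0 b')
      rw [← ha', ← hb']
      have h7 : a' = MvPolynomial.C (MvPolynomial.coeff 0 a' / MvPolynomial.coeff 0 b') * b' := by
        conv_rhs => rw [e2]
        rw [← MvPolynomial.C_mul]
        simp only [MvPolynomial.coeff_C, if_true]
        rw [div_mul_cancel₀ _ hy, ← e1]
      conv_lhs => rw [h7]
      ring

end Pool.SF
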