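import Pool.Agent.Work.MP_bf99ce_sf.Interface

/-!
# THEOREM SF (MP_bf99ce_ag): block RAT
-/

set_option autoImplicit false

open AlgebraicGeometry CategoryTheory

noncomputable section

namespace Pool.SF

theorem p_RAT (hALP : Stmt_ALP) (hRA1 : Stmt_RA1) (hRA2 : Stmt_RA2) : Stmt_RAT := by
  intro k _ _ d q hd
  obtain ⟨a, b, hb, hab, hinv⟩ := hRA1 k d q hd
  obtain ⟨m, f, hm, hf, hhom, hg⟩ := hRA2 k d q a b hb hab hinv
  refine ⟨m, f, hm, hf, hhom, fun g hdet => ?_⟩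
  obtain ⟨u, hu⟩ := hg g hdet
  refine ⟨u, fun y => ?_⟩
  rw [← (hALP k d q).2.2.2.2 g f y, hu, map_mul, MvPolynomial.eval_C]

end Pool.SF
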