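import Pool.Agent.Work.MP_bf99ce_sf.Interface

/-! # Block SEM: semi-invariants in all good cases (helper78) -/

set_option autoImplicit false

open AlgebraicGeometry CategoryTheory

noncomputable section

namespace Pool.SF

theorem p_SEM (hCRD : Stmt_CRD) (hBIN : Stmt_BIN) (hRAT : Stmt_RAT) (hTOP : Stmt_TOP) (hTWO : Stmt_TWO)
    (hGRL : Stmt_GRL) (hGN6 : Stmt_GN6) (hGN7 : Stmt_GN7) (hGN8 : Stmt_GN8) (hDUA : Stmt_DUA) :
    Stmt_SEM := by
  intro k _ _ d q hg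
  obtain ⟨h1, hqd, h | ⟨h3, hd⟩ | ⟨he, h2⟩⟩ := hg
  · subst h
    exact hTOP k q
  · by_cases hbig : 9 ≤ d ∨ (d = 8 ∧ q = 4)
    · refine hRAT k d q ?_
      rw [hCRD]
      exact hBIN d q h3 hd hbig
    · have h6 : Sem k 6 3 := hGRL k 6 (by norm_num) hGN6
      have h7 : Sem k 7 3 := hGRL k 7 (by norm_num) hGN7
      have h8 : Sem k 8 3 := hGRL k 8 (by norm_num) hGN8
      have hcases : (d = 6 ∧ q = 3) ∨ (d = 7 ∧ q = 3) ∨ (d = 8 ∧ q = 3) ∨ (d = 7 ∧ q = 4) ∨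
          (d = 8 ∧ q = 5) := by omega
      rcases hcases with ⟨rfl, rfl⟩ | ⟨rfl, rfl⟩ | ⟨rfl, rfl⟩ | ⟨rfl, rfl⟩ | ⟨rfl, rfl⟩
      · exact h6
      · exact h7
      · exact h8
      · exact hDUA k 7 3 4 (by norm_num) h7
      · exact hDUA k 8 3 5 (by norm_num) h8
  · have hd : 1 ≤ d := h1.trans hqd
    have h := hTWO k d hd he
    rcases h2 with rfl | h2
    · exact h
    · exact hDUA k d 2 q (by omega) h

end Pool.SF
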