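import Pool.Agent.Work.MP_bf99ce_sf.Interface

/-!
# Block TOP: the semi-invariant in top degree
-/

set_option autoImplicit false

open AlgebraicGeometry CategoryTheory

noncomputable section

namespace Pool.SF

theorem TOP_sub {d : ℕ} (I J : Fin d ↪o Fin d) : I = J := by
  have h : ∀ K : Fin d ↪o Fin d, Set.range K = Set.univ := fun K =>
    (Finite.injective_iff_surjective.1 K.injective).range_eq
  exact OrderEmbedding.range_inj.1 (by rw [h I, h J])

theorem p_TOP (_hUAR : Stmt_UAR) : Stmt_TOP := by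
  intro k _ _ d
  let I0 : Fin d ↪o Fin d := RelEmbedding.refl _
  refine ⟨1, MvPolynomial.X I0, le_rfl, MvPolynomial.X_ne_zero _, MvPolynomial.isHomogeneous_X _ _,
    fun g _ => ⟨∑ c : Fin d → Fin d, (∏ i, g (I0 i) (c i)) * ∑ I : Fin d ↪o Fin d,
      (Matrix.of fun i j : Fin d => if c i = I j then (1 : k) else 0).det, fun y => ?_⟩⟩
  rw [MvPolynomial.eval_X, MvPolynomial.eval_X]
  simp only [act, ext]
  rw [Finset.sum_mul]
  refine Finset.sum_congr rfl fun c _ => ?_
  rw [mul_assoc, Finset.sum_mul]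
  congr 1
  refine Finset.sum_congr rfl fun I _ => ?_
  rw [TOP_sub I I0]

end Pool.SF
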