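import Pool.Agent.Work.MP_bf99ce_sf.Interface

/-! # THEOREM SF, block TPD: sections in top degree are decomposable (helper79) -/

set_option autoImplicit false

noncomputable section

namespace Pool.SF

theorem p_TPD (hWDG : Stmt_WDG) : Stmt_TPD := by
  intro K W _ _ _ n p e R S σ hσ
  obtain ⟨-, -, -, h4⟩ := hWDG K W
  unfold Lat at hσ
  induction hσ using Submodule.span_induction with
  | mem z hz =>
    obtain ⟨w, -, rfl⟩ := hz
    choose c hc using fun j => h4 n e (w j)
    refine ⟨∏ j, c j, ?_⟩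
    calc ∏ j, wdg K n (w j) = ∏ j, c j • wdg K n e := Finset.prod_congr rfl fun j _ => hc j
      _ = (∏ j, c j) • wdg K n e ^ p := by
        rw [Finset.prod_smul, Finset.prod_const, Finset.card_univ, Fintype.card_fin]
  | zero => exact ⟨0, by rw [zero_smul]⟩
  | add x y _ _ hx hy =>
    obtain ⟨a, ha⟩ := hx
    obtain ⟨b, hb⟩ := hy
    exact ⟨a + b, by rw [ha, hb, add_smul]⟩
  | smul r x _ hx =>
    obtain ⟨a, ha⟩ := hx
    refine ⟨(r : K) * a, ?_⟩
    rw [ha, mul_smul]
    rfl

end Pool.SF
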