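import Pool.Agent.Work.MP_bf99ce_sf.Interface

set_option autoImplicit false

noncomputable section

namespace Pool.SF

theorem p_TRD : Stmt_TRD := by
  intro K _ I σ _ _ Y hlt
  by_contra hcon
  push Not at hcon
  have hai : AlgebraicIndependent K Y := by
    rw [algebraicIndependent_iff]
    intro p hp
    by_contra hne
    exact hcon p hne hp
  have h1 := hai.cardinalMk_le_trdeg
  rw [MvPolynomial.trdeg_of_isDomain, Cardinal.mk_fintype, Cardinal.mk_fintype] at h1
  simp only [Cardinal.lift_natCast, Nat.cast_le] at h1
  omega

end Pool.SF
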