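import Pool.Agent.Work.MP_bf99ce_sf.Interface

/-! # Block TWO -/

set_option autoImplicit false

open AlgebraicGeometry CategoryTheory

noncomputable section

namespace Pool.SF

/-- the matrix of a 2-vector -/
def TWO_M {B : Type} [CommRing B] {d : ℕ} (x : (Fin 2 → Fin d) → B) : Matrix (Fin d) (Fin d) B :=
  Matrix.of fun i j => x ![i, j]

theorem TWO_act {B : Type} [CommRing B] {d : ℕ} (g : Matrix (Fin d) (Fin d) B)
    (x : (Fin 2 → Fin d) → B) : TWO_M (act g x) = g * TWO_M x * g.transpose := by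
  ext i j
  have h1 : TWO_M (act g x) i j = ∑ c : Fin 2 → Fin d, (g i (c 0) * g j (c 1)) * x c := by
    change act g x ![i, j] = _
    unfold act
    refine Finset.sum_congr rfl fun c _ => ?_
    rw [Fin.prod_univ_two]
    rfl
  have h2 : ∑ c : Fin 2 → Fin d, (g i (c 0) * g j (c 1)) * x c =
      ∑ p : Fin d × Fin d, (g i p.1 * g j p.2) * x ![p.1, p.2] := by
    refine Fintype.sum_equiv (finTwoArrowEquiv (Fin d)) _ _ fun c => ?_
    have h3 : x c = x ![c 0, c 1] := by
      congr 1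
      ext t
      fin_cases t <;> rfl
    rw [h3]
    rfl
  rw [h1, h2, Fintype.sum_prod_type, Matrix.mul_apply, Finset.sum_comm]
  refine Finset.sum_congr rfl fun b _ => ?_
  rw [Matrix.mul_apply, Matrix.transpose_apply, Finset.sum_mul]
  refine Finset.sum_congr rfl fun a _ => ?_
  change g i a * g j b * x ![a, b] = g i a * x ![a, b] * g j b
  ring

/-- the polynomial -/
def TWO_f (k : Type) [Field k] (d : ℕ) : MvPolynomial (Fin 2 ↪o Fin d) k :=
  (TWO_M (ext (MvPolynomial.X : (Fin 2 ↪o Fin d) → MvPolynomial (Fin 2 ↪o Fin d) k))).det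

theorem TWO_eval (hUAR : Stmt_UAR) (k : Type) [Field k] (d : ℕ) (z : (Fin 2 ↪o Fin d) → k) :
    MvPolynomial.eval z (TWO_f k d) = (TWO_M (ext z)).det := by
  unfold TWO_f
  rw [RingHom.map_det]
  congr 1
  ext i j
  have h := congrFun ((hUAR (MvPolynomial (Fin 2 ↪o Fin d) k)).2.2.2 k (MvPolynomial.eval z) d 2
    MvPolynomial.X) ![i, j]
  simp only [MvPolynomial.eval_X] at h
  exact h

theorem TWO_hom (k : Type) [Field k] (d : ℕ) : (TWO_f k d).IsHomogeneous d := by
  unfold TWO_f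
  rw [Matrix.det_apply]
  refine MvPolynomial.IsHomogeneous.sum _ _ _ fun σ _ => ?_
  have hM : ∀ i j, (TWO_M (ext (MvPolynomial.X : (Fin 2 ↪o Fin d) →
      MvPolynomial (Fin 2 ↪o Fin d) k)) i j).IsHomogeneous 1 := by
    intro i j
    change (ext (MvPolynomial.X : (Fin 2 ↪o Fin d) →
      MvPolynomial (Fin 2 ↪o Fin d) k) ![i, j]).IsHomogeneous 1
    unfold ext
    refine MvPolynomial.IsHomogeneous.sum _ _ _ fun I _ => ?_
    have h1 : (Matrix.of fun i' j' : Fin 2 => if (![i, j] : Fin 2 → Fin d) i' = I j' then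
        (1 : MvPolynomial (Fin 2 ↪o Fin d) k) else 0).det =
        MvPolynomial.C (Matrix.of fun i' j' : Fin 2 => if (![i, j] : Fin 2 → Fin d) i' = I j' then
        (1 : k) else 0).det := by
      rw [RingHom.map_det]
      congr 1
      ext i' j' : 2
      simp only [Matrix.of_apply, RingHom.mapMatrix_apply, Matrix.map_apply]
      split_ifs <;> simp
    rw [h1]
    have h2 := (MvPolynomial.isHomogeneous_C (Fin 2 ↪o Fin d)
      (Matrix.of fun i' j' : Fin 2 => if (![i, j] : Fin 2 → Fin d) i' = I j' then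
        (1 : k) else 0).det).mul (MvPolynomial.isHomogeneous_X k I)
    simpa using h2
  have hprod : (∏ i : Fin d, TWO_M (ext (MvPolynomial.X : (Fin 2 ↪o Fin d) →
      MvPolynomial (Fin 2 ↪o Fin d) k)) (σ i) i).IsHomogeneous d := by
    have h := MvPolynomial.IsHomogeneous.prod (Finset.univ : Finset (Fin d))
      (fun i => TWO_M (ext (MvPolynomial.X : (Fin 2 ↪o Fin d) →
      MvPolynomial (Fin 2 ↪o Fin d) k)) (σ i) i) (fun _ => 1) (fun i _ => hM _ _)
    simpa using h
  rcases Int.units_eq_one_or (Equiv.Perm.sign σ) with h | h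
  · rw [h, one_smul]
    exact hprod
  · rw [h, Units.neg_smul, one_smul]
    exact hprod.neg

/-- the partner of a number -/
def TWO_s {d : ℕ} (hd : Even d) (i : Fin d) : Fin d :=
  if h : Even (i : ℕ) then ⟨(i : ℕ) + 1, by
    obtain ⟨a, ha⟩ := hd
    obtain ⟨b, hb⟩ := h
    have := i.2
    omega⟩ else ⟨(i : ℕ) - 1, by
    have := i.2
    omega⟩

theorem TWO_s_val {d : ℕ} (hd : Even d) (i : Fin d) :
    ((TWO_s hd i : Fin d) : ℕ) = if Even (i : ℕ) then (i : ℕ) + 1 else (i : ℕ) - 1 := by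
  unfold TWO_s
  split_ifs <;> rfl

theorem TWO_s_ne {d : ℕ} (hd : Even d) (i : Fin d) : TWO_s hd i ≠ i := by
  intro h
  have h1 := congrArg Fin.val h
  rw [TWO_s_val] at h1
  split_ifs at h1 with h2
  · omega
  · rw [Nat.even_iff] at h2
    omega

theorem TWO_s_even {d : ℕ} (hd : Even d) (i : Fin d) :
    Even ((TWO_s hd i : Fin d) : ℕ) ↔ ¬ Even (i : ℕ) := by
  rw [TWO_s_val]
  split_ifs with h
  · simp only [Nat.even_iff] at h ⊢
    omega
  · simp only [Nat.even_iff] at h ⊢
    omega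

theorem TWO_s_s {d : ℕ} (hd : Even d) (i : Fin d) : TWO_s hd (TWO_s hd i) = i := by
  apply Fin.ext
  rw [TWO_s_val]
  by_cases h : Even (i : ℕ)
  · rw [if_neg (fun h' => (TWO_s_even hd i).1 h' h), TWO_s_val, if_pos h]
    omega
  · rw [if_pos ((TWO_s_even hd i).2 h), TWO_s_val, if_neg h]
    rw [Nat.even_iff] at h
    omega

/-- the sign of a number -/
def TWO_e (k : Type) [Field k] {d : ℕ} (i : Fin d) : k := if Even (i : ℕ) then 1 else -1

theorem TWO_e_s (k : Type) [Field k] {d : ℕ} (hd : Even d) (i : Fin d) :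
    TWO_e k (TWO_s hd i) = - TWO_e k i := by
  unfold TWO_e
  by_cases h : Even (i : ℕ)
  · rw [if_neg (fun h' => (TWO_s_even hd i).1 h' h), if_pos h]
  · rw [if_pos ((TWO_s_even hd i).2 h), if_neg h, neg_neg]

theorem TWO_e_sq (k : Type) [Field k] {d : ℕ} (i : Fin d) : TWO_e k i * TWO_e k i = 1 := by
  unfold TWO_e
  split_ifs <;> ring

/-- the standard alternating matrix -/
def TWO_J (k : Type) [Field k] {d : ℕ} (hd : Even d) : Matrix (Fin d) (Fin d) k :=
  Matrix.of fun i j => if j = TWO_s hd i then TWO_e k i else 0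

theorem TWO_J_self (k : Type) [Field k] {d : ℕ} (hd : Even d) (i : Fin d) :
    TWO_J k hd i i = 0 := if_neg (TWO_s_ne hd i).symm

theorem TWO_J_swap (k : Type) [Field k] {d : ℕ} (hd : Even d) (i j : Fin d) :
    TWO_J k hd j i = - TWO_J k hd i j := by
  change (if i = TWO_s hd j then TWO_e k j else 0) = -(if j = TWO_s hd i then TWO_e k i else 0)
  by_cases h : j = TWO_s hd i
  · rw [if_pos h, if_pos (by rw [h, TWO_s_s]), h, TWO_e_s]
  · rw [if_neg h, if_neg (fun h' => h (by rw [h', TWO_s_s])), neg_zero]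

theorem TWO_J_mul (k : Type) [Field k] {d : ℕ} (hd : Even d) :
    TWO_J k hd * TWO_J k hd = -1 := by
  ext i l
  rw [Matrix.mul_apply, Finset.sum_eq_single (TWO_s hd i)]
  · change (if TWO_s hd i = TWO_s hd i then TWO_e k i else 0) *
      (if l = TWO_s hd (TWO_s hd i) then TWO_e k (TWO_s hd i) else 0) = _
    rw [if_pos rfl, TWO_s_s, Matrix.neg_apply, Matrix.one_apply, TWO_e_s]
    by_cases h : i = l
    · rw [if_pos h.symm, if_pos h, mul_neg, TWO_e_sq]
    · rw [if_neg (fun h' => h h'.symm), if_neg h, mul_zero, neg_zero]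
  · intro j _ hj
    change (if j = TWO_s hd i then TWO_e k i else 0) * _ = 0
    rw [if_neg hj, zero_mul]
  · intro h
    exact absurd (Finset.mem_univ _) h

theorem TWO_J_det (k : Type) [Field k] {d : ℕ} (hd : Even d) : (TWO_J k hd).det ≠ 0 := by
  intro h
  have h1 := congrArg Matrix.det (TWO_J_mul k hd)
  rw [Matrix.det_mul, h, zero_mul, Matrix.det_neg, Matrix.det_one, mul_one, Fintype.card_fin,
    hd.neg_one_pow] at h1
  exact zero_ne_one h1

theorem TWO_J_alt (k : Type) [Field k] {d : ℕ} (hd : Even d) :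
    Alt (fun a : Fin 2 → Fin d => TWO_J k hd (a 0) (a 1)) := by
  refine ⟨?_, ?_⟩
  · intro a i j hij h
    have h1 : a 0 = a 1 := by
      fin_cases i <;> fin_cases j
      · exact absurd rfl hij
      · exact h
      · exact h.symm
      · exact absurd rfl hij
    change TWO_J k hd (a 0) (a 1) = 0
    rw [h1, TWO_J_self]
  · intro a s
    obtain rfl | rfl : s = 1 ∨ s = Equiv.swap 0 1 := by
      revert s
      decide
    · simp
    · rw [Equiv.Perm.sign_swap (by decide)]
      change TWO_J k hd (a (Equiv.swap 0 1 0)) (a (Equiv.swap 0 1 1)) = _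
      rw [Equiv.swap_apply_left, Equiv.swap_apply_right, TWO_J_swap]
      simp

theorem p_TWO (hACT : Stmt_ACT) (hUAR : Stmt_UAR) : Stmt_TWO := by
  intro k _ _ d hd1 hd
  refine ⟨d, TWO_f k d, hd1, ?_, TWO_hom k d, ?_⟩
  · intro h
    have h1 := TWO_eval hUAR k d (fun I => TWO_J k hd (I 0) (I 1))
    have h2 := (hUAR k).2.2.1 d 2 (fun a : Fin 2 → Fin d => TWO_J k hd (a 0) (a 1))
      (TWO_J_alt k hd)
    rw [h2, h, map_zero] at h1
    exact TWO_J_det k hd h1.symm
  · intro g _
    refine ⟨g.det ^ 2, fun y => ?_⟩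
    rw [TWO_eval hUAR, TWO_eval hUAR]
    have h1 : Alt (act g (ext y)) := (hACT k).2.2.1 d d 2 g (ext y) ((hUAR k).1 d 2 y)
    rw [(hUAR k).2.2.1 d 2 (act g (ext y)) h1, TWO_act, Matrix.det_mul, Matrix.det_mul,
      Matrix.det_transpose]
    ring

end Pool.SF
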