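import Pool.Agent.Work.MP_bf99ce_sf.Interface

/-! Block UAR of THEOREM SF (helper24). -/

set_option autoImplicit false

noncomputable section

namespace Pool.SF

section

variable {B : Type} [CommRing B] {d q : ℕ}

theorem UAR_alt (y : (Fin q ↪o Fin d) → B) : Alt (ext y) where
  zero := by
    intro a i j hij ha
    unfold ext
    apply Finset.sum_eq_zero
    intro I _
    rw [Matrix.det_zero_of_row_eq hij, zero_mul]
    funext k
    simp only [Matrix.of_apply, ha]
  swap := by
    intro a s
    unfold ext
    rw [Finset.mul_sum]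
    apply Finset.sum_congr rfl
    intro I _
    have h := Matrix.det_permute s (Matrix.of fun i j : Fin q => if a i = I j then (1 : B) else 0)
    have e : (Matrix.of fun i j : Fin q => if (a ∘ s) i = I j then (1 : B) else 0) =
        (Matrix.of fun i j : Fin q => if a i = I j then (1 : B) else 0).submatrix s id := by
      ext i j
      rfl
    rw [e, h, mul_assoc]

theorem UAR_inj {I J : Fin q ↪o Fin d} (h : ∀ i, ∃ j, I i = J j) : I = J := by
  have h1 : Finset.univ.image I ⊆ Finset.univ.image J := by
    intro x hx
    obtain ⟨i, -, rfl⟩ := Finset.mem_image.1 hx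
    obtain ⟨j, hj⟩ := h i
    exact Finset.mem_image.2 ⟨j, Finset.mem_univ _, hj.symm⟩
  have h2 : (Finset.univ.image J).card ≤ (Finset.univ.image I).card := by
    rw [Finset.card_image_of_injective _ J.injective, Finset.card_image_of_injective _ I.injective]
  have h3 := Finset.eq_of_subset_of_card_le h1 h2
  have h4 : Set.range I = Set.range J := by
    have := congrArg (fun s : Finset (Fin d) => (s : Set (Fin d))) h3
    simpa using this
  have h5 := (StrictMono.range_inj I.strictMono J.strictMono).1 h4
  exact DFunLike.coe_injective h5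

theorem UAR_inc (y : (Fin q ↪o Fin d) → B) (I : Fin q ↪o Fin d) : ext y I = y I := by
  unfold ext
  rw [Finset.sum_eq_single I]
  · have e : (Matrix.of fun i j : Fin q => if I i = I j then (1 : B) else 0) = 1 := by
      ext i j
      rw [Matrix.of_apply, Matrix.one_apply]
      by_cases h : i = j
      · rw [if_pos h, if_pos (congrArg I h)]
      · rw [if_neg h, if_neg fun h' => h (I.injective h')]
    rw [e, Matrix.det_one, one_mul]
  · intro J _ hJ
    have h : ¬ ∀ i, ∃ j, I i = J j := fun h => hJ (UAR_inj h).symm
    push Not at h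
    obtain ⟨i, hi⟩ := h
    rw [Matrix.det_eq_zero_of_row_eq_zero i, zero_mul]
    intro j
    rw [Matrix.of_apply, if_neg (hi j)]
  · intro h
    exact absurd (Finset.mem_univ I) h

theorem UAR_eq (x : (Fin q → Fin d) → B) (hx : Alt x) : ext (fun I : Fin q ↪o Fin d => x I) = x := by
  funext a
  have hA := UAR_alt (fun I : Fin q ↪o Fin d => x I)
  by_cases ha : Function.Injective a
  · have hm := Tuple.monotone_sort a
    have hs : StrictMono (a ∘ Tuple.sort a) :=
      hm.strictMono_of_injective (ha.comp (Tuple.sort a).injective)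
    let I : Fin q ↪o Fin d := OrderEmbedding.ofStrictMono _ hs
    have e : a = (I : Fin q → Fin d) ∘ ((Tuple.sort a)⁻¹ : Equiv.Perm (Fin q)) := by
      funext i
      change a i = a ((Tuple.sort a) ((Tuple.sort a).symm i))
      rw [Equiv.apply_symm_apply]
    rw [e, hA.swap, hx.swap, UAR_inc]
  · have h : ∃ i j, a i = a j ∧ i ≠ j := by
      by_contra hcon
      push Not at hcon
      exact ha fun i j hij => hcon i j hij
    obtain ⟨i, j, hij, hne⟩ := h
    rw [hA.zero a i j hne hij, hx.zero a i j hne hij]

theorem UAR_map {B' : Type} [CommRing B'] (ρ : B →+* B') (y : (Fin q ↪o Fin d) → B) :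
    (fun a => ρ (ext y a)) = ext (fun I => ρ (y I)) := by
  funext a
  unfold ext
  rw [map_sum]
  apply Finset.sum_congr rfl
  intro I _
  rw [map_mul, RingHom.map_det]
  congr 2
  ext i j
  rw [RingHom.mapMatrix_apply, Matrix.map_apply, Matrix.of_apply, Matrix.of_apply]
  split_ifs
  · exact map_one ρ
  · exact map_zero ρ

end

theorem p_UAR : Stmt_UAR := fun _ _ =>
  ⟨fun _ _ y => UAR_alt y, fun _ _ y I => UAR_inc y I, fun _ _ x hx => UAR_eq x hx,
    fun _ _ ρ _ _ y => UAR_map ρ y⟩

end Pool.SF
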