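import Pool.Agent.Work.MP_bf99ce_sf.Interface

/-!
# THEOREM SF (MP_bf99ce_ag): block VAL
-/

set_option autoImplicit false

noncomputable section

namespace Pool.SF

/-- semi-invariance for tuples of vectors -/
theorem VAL_val_eq (hWDG : Stmt_WDG) {k K W : Type} [Field k] [Field K] [Algebra k K] [AddCommGroup W] [Module K W]
    {d q m p' : ℕ} {f : MvPolynomial (Fin q ↪o Fin d) k} (hf : SI k d q m p' f)
    (g : Matrix (Fin d) (Fin d) K) (ω η : Fin d → W) (h : ∀ i, ω i = ∑ l, g i l • η l) :
    val K f ω = algebraMap K (SA K W q) (g.det ^ p') * val K f η := by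
  obtain ⟨w1, w2, w3, w4⟩ := hWDG K W
  have key := hf.inv (SA K W q) ((algebraMap K (SA K W q)).comp (algebraMap k K))
    (fun a => wdg K q (fun i => η (a i))) (w1 d q η) (g.map (algebraMap K (SA K W q)))
  have hact := w2 d d q g η
  rw [← hact] at key
  have h1 : (g.map (algebraMap K (SA K W q))).det = algebraMap K (SA K W q) g.det := by
    have := RingHom.map_det (algebraMap K (SA K W q)) g
    rw [this]; rfl
  have h2 : ∀ I : Fin q ↪o Fin d, (fun i => ∑ j, g (I i) j • η j) = fun i => ω (I i) := by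
    intro I; funext i; rw [h]
  rw [h1] at key
  simp only [h2] at key
  unfold val
  rw [map_pow]
  exact key

theorem p_VAL (_hACT : Stmt_ACT) (hWDG : Stmt_WDG) (hLSP : Stmt_LSP) (hPOL : Stmt_POL) (hEVC : Stmt_EVC)
    (hCRM : Stmt_CRM) : Stmt_VAL := by
  intro k K W _ _ _ _ _ n d q m p p' f hf e O hk φ ω hω hφ
  set A : Matrix (Fin d) (Fin n) K := Matrix.of fun i j => e.repr (ω i) j with hA
  have hrow : LinearIndependent K A.row := by
    have h1 : A.row = (e.equivFun : W →ₗ[K] (Fin n → K)) ∘ ω := by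
      funext i j
      simp [hA, Matrix.row, Module.Basis.equivFun_apply]
    rw [h1]
    exact hω.map' _ (LinearEquiv.ker e.equivFun)
  obtain ⟨c, U, hdet, hAU, hU⟩ := hCRM K O d n A hrow
  set g : Matrix (Fin d) (Fin d) K := Matrix.of fun i j => A i (c j) with hg
  obtain ⟨h, hh1, hh2⟩ := hEVC K W n d e c
  have hO : φ * g.det ^ p ∈ O := by
    have h3 := hh2 O.toSubring p _ hφ
    rw [map_smul, map_pow, hh1] at h3
    exact h3
  set η : Fin d → W := fun i => ∑ j, U i j • e j with hη
  have hωη : ∀ i, ω i = ∑ l, g i l • η l := by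
    intro i
    apply e.repr.injective
    ext j
    have h1 : e.repr (ω i) j = (g * U) i j := by rw [← hAU]; rfl
    rw [h1, Matrix.mul_apply, map_sum, Finsupp.finsetSum_apply]
    refine Finset.sum_congr rfl fun l _ => ?_
    rw [map_smul, Finsupp.smul_apply, smul_eq_mul]
    congr 1
    simp only [hη]
    rw [Module.Basis.repr_sum_self]
  have hval := VAL_val_eq hWDG hf g ω η hωη
  -- the value at the reduced tuple
  have hspan : ∀ s ∈ Set.range η, s ∈ Submodule.span O.toSubring (Set.range e) := by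
    rintro s ⟨i, rfl⟩
    simp only [hη]
    refine Submodule.sum_mem _ fun j _ => ?_
    have h1 : U i j • e j = (⟨U i j, hU i j⟩ : O.toSubring) • e j := rfl
    rw [h1]
    exact Submodule.smul_mem _ _ (Submodule.subset_span ⟨j, rfl⟩)
  have hwd : ∀ I : Fin q ↪o Fin d, wdg K q (fun i => η (I i)) ∈ Lat K O.toSubring (Set.range e) q 1 := by
    intro I
    refine hLSP K W O.toSubring O.toSubring (Set.range η) (Set.range e) q 1 le_rfl hspan _ ?_
    refine Submodule.subset_span ⟨fun _ i => η (I i), fun _ i => ⟨I i, rfl⟩, ?_⟩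
    simp
  obtain ⟨hp1, hp2⟩ := hPOL k K W O.toSubring (Set.range e) q hk
  have h5 : val K f η ∈ Lat K O.toSubring (Set.range e) q m := hp1 _ f m _ hf.hom hwd
  have h6 := hp2 m p _ h5
  have h7 : φ ^ p' • val K f ω ^ p = ((⟨φ * g.det ^ p, hO⟩ : O.toSubring) ^ p') • (val K f η ^ p) := by
    have h8 : ((⟨φ * g.det ^ p, hO⟩ : O.toSubring) ^ p') • (val K f η ^ p) = ((φ * g.det ^ p) ^ p') • (val K f η ^ p) := rfl
    rw [h8, hval, mul_pow, ← map_pow, ← Algebra.smul_def, smul_smul]
    congr 1
    ring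
  rw [h7]
  exact Submodule.smul_mem _ _ h6

end Pool.SF
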