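import Pool.Agent.Work.MP_bf99ce_sf.Interface

/-!
# Block WDG: properties of `w_1 ∧ … ∧ w_q`
-/

set_option autoImplicit false

open AlgebraicGeometry CategoryTheory

noncomputable section

namespace Pool.SF

theorem WDG_alt (K W : Type) [Field K] [AddCommGroup W] [Module K W] (d q : ℕ) (ω : Fin d → W) :
    Alt (fun a : Fin q → Fin d => wdg K q (fun i => ω (a i))) := by
  refine ⟨?_, ?_⟩
  · intro a i j hij h
    unfold wdg
    have h1 : exteriorPower.ιMulti K q (fun i => ω (a i)) = 0 :=
      AlternatingMap.map_eq_zero_of_eq _ _ (show ω (a i) = ω (a j) by rw [h]) hij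
    rw [h1, map_zero]
  · intro a s
    unfold wdg
    have h1 : exteriorPower.ιMulti K q ((fun i => ω (a i)) ∘ s) =
        Equiv.Perm.sign s • exteriorPower.ιMulti K q (fun i => ω (a i)) :=
      AlternatingMap.map_perm _ _ _
    have h2 : (fun i => ω ((a ∘ s) i)) = (fun i => ω (a i)) ∘ s := rfl
    rw [h2, h1, Units.smul_def, map_zsmul, zsmul_eq_mul]

theorem WDG_exp (K W : Type) [Field K] [AddCommGroup W] [Module K W] (d d' q : ℕ)
    (A : Matrix (Fin d) (Fin d') K) (e : Fin d' → W) :
    (fun a : Fin q → Fin d => wdg K q (fun i => ∑ j, A (a i) j • e j)) =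
      act (A.map (algebraMap K (SA K W q))) (fun c : Fin q → Fin d' => wdg K q (fun i => e (c i))) := by
  funext a
  unfold act wdg
  have h1 : exteriorPower.ιMulti K q (fun i => ∑ j, A (a i) j • e j) =
      ∑ c : Fin q → Fin d', (∏ i, A (a i) (c i)) • exteriorPower.ιMulti K q (fun i => e (c i)) := by
    have h := MultilinearMap.map_sum (exteriorPower.ιMulti K q (M := W)).toMultilinearMap
      (fun (i : Fin q) (j : Fin d') => A (a i) j • e j)
    refine h.trans (Finset.sum_congr rfl fun c _ => ?_)
    exact MultilinearMap.map_smul_univ (exteriorPower.ιMulti K q (M := W)).toMultilinearMap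
      (fun i => A (a i) (c i)) (fun i => e (c i))
  rw [h1, map_sum]
  refine Finset.sum_congr rfl fun c _ => ?_
  rw [map_smul, Algebra.smul_def, map_prod]
  rfl

theorem WDG_ind (K W : Type) [Field K] [AddCommGroup W] [Module K W] (d : ℕ) (ω : Fin d → W)
    (h : wdg K d ω ≠ 0) : LinearIndependent K ω := by
  by_contra h1
  apply h
  unfold wdg
  rw [AlternatingMap.map_linearDependent _ _ h1, map_zero]

theorem WDG_top (K W : Type) [Field K] [AddCommGroup W] [Module K W] (n : ℕ)
    (e : Module.Basis (Fin n) K W) (w : Fin n → W) : ∃ c : K, wdg K n w = c • wdg K n e := by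
  classical
  refine ⟨e.det w, ?_⟩
  have key : exteriorPower.ιMulti K n (M := W) =
      (LinearMap.toSpanSingleton K _ (exteriorPower.ιMulti K n e)).compAlternatingMap e.det := by
    refine Module.Basis.ext_alternating e ?_
    intro v hv
    let σ : Equiv.Perm (Fin n) := Equiv.ofBijective v (Finite.injective_iff_bijective.mp hv)
    have e1 : (fun i => e (v i)) = (fun i => e i) ∘ σ := rfl
    rw [e1, AlternatingMap.map_perm, AlternatingMap.map_perm]
    congr 1
    rw [LinearMap.compAlternatingMap_apply, LinearMap.toSpanSingleton_apply]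
    have e2 : e.det (fun i => e i) = 1 := e.det_self
    rw [e2, one_smul]
  have h1 : exteriorPower.ιMulti K n w = e.det w • exteriorPower.ιMulti K n e := by
    have h := congrArg (fun f : W [⋀^Fin n]→ₗ[K] (⋀[K]^n W) => f w) key
    exact h
  unfold wdg
  rw [h1, map_smul]

theorem p_WDG : Stmt_WDG := fun K W _ _ _ =>
  ⟨fun d q ω => WDG_alt K W d q ω, fun d d' q A e => WDG_exp K W d d' q A e,
    fun d ω h => WDG_ind K W d ω h, fun n e w => WDG_top K W n e w⟩

end Pool.SF
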