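import Mathlib

/-!
# THEOREM SF (MP_bf99ce_ag): definitions

Symmetric powers of exterior powers of the cotangent bundle of a smooth scheme over a field, read in the function field.
-/

set_option autoImplicit false

open AlgebraicGeometry CategoryTheory

noncomputable section

namespace Pool.SF

/-- the pairs `(d, q)` for which some symmetric power of `Λ^q` of a `d`-dimensional space contains a positive power of the determinant -/
def Good (d q : ℕ) : Prop := 1 ≤ q ∧ q ≤ d ∧ (q = d ∨ (3 ≤ q ∧ q + 3 ≤ d) ∨ (Even d ∧ (q = 2 ∨ q + 2 = d)))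

/-! ### Alternating arrays and semi-invariants -/

/-- alternating arrays -/
structure Alt {B : Type} [CommRing B] {d q : ℕ} (x : (Fin q → Fin d) → B) : Prop where
  zero : ∀ (a : Fin q → Fin d) (i j : Fin q), i ≠ j → a i = a j → x a = 0
  swap : ∀ (a : Fin q → Fin d) (s : Equiv.Perm (Fin q)), x (a ∘ s) = ((Equiv.Perm.sign s : ℤ) : B) * x a

/-- the action of matrices on arrays -/
def act {B : Type} [CommRing B] {d d' q : ℕ} (g : Matrix (Fin d) (Fin d') B) (x : (Fin q → Fin d') → B) :
    (Fin q → Fin d) → B := fun a => ∑ c : Fin q → Fin d', (∏ i, g (a i) (c i)) * x c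

/-- the alternating array with given entries at the increasing tuples -/
def ext {B : Type} [CommRing B] {d q : ℕ} (y : (Fin q ↪o Fin d) → B) : (Fin q → Fin d) → B := fun a =>
  ∑ I : Fin q ↪o Fin d, (Matrix.of fun i j : Fin q => if a i = I j then (1 : B) else 0).det * y I

/-- the substitution of `g` in polynomials in the coordinates of an alternating array -/
def al {k : Type} [CommRing k] {d q : ℕ} (g : Matrix (Fin d) (Fin d) k) :
    MvPolynomial (Fin q ↪o Fin d) k →ₐ[k] MvPolynomial (Fin q ↪o Fin d) k :=
  MvPolynomial.aeval fun I => act (g.map MvPolynomial.C) (ext MvPolynomial.X) I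

/-- there is a homogeneous semi-invariant of positive degree of `q`-vectors in dimension `d` -/
def Sem (k : Type) [Field k] (d q : ℕ) : Prop :=
  ∃ (m : ℕ) (f : MvPolynomial (Fin q ↪o Fin d) k), 1 ≤ m ∧ f ≠ 0 ∧ f.IsHomogeneous m ∧
    ∀ g : Matrix (Fin d) (Fin d) k, g.det ≠ 0 → ∃ u : k, ∀ y : (Fin q ↪o Fin d) → k,
      MvPolynomial.eval (fun I : Fin q ↪o Fin d => act g (ext y) I) f = u * MvPolynomial.eval y f

/-- `f` is a semi-invariant of degree `m` and weight `det ^ p` -/
structure SI (k : Type) [Field k] (d q m p : ℕ) (f : MvPolynomial (Fin q ↪o Fin d) k) : Prop where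
  ne : f ≠ 0
  hom : f.IsHomogeneous m
  inv : ∀ (B : Type) [CommRing B] (ρ : k →+* B) (x : (Fin q → Fin d) → B), Alt x →
    ∀ g : Matrix (Fin d) (Fin d) B,
      MvPolynomial.eval₂ ρ (fun I : Fin q ↪o Fin d => act g x I) f =
        g.det ^ p * MvPolynomial.eval₂ ρ (fun I : Fin q ↪o Fin d => x I) f

/-! ### Symmetric powers of exterior powers -/

/-- the symmetric algebra of `Λ^q W` -/
abbrev SA (K W : Type) [Field K] [AddCommGroup W] [Module K W] (q : ℕ) : Type :=
  SymmetricAlgebra K (⋀[K]^q W)

/-- `w_1 ∧ … ∧ w_q`, in the symmetric algebra -/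
def wdg (K : Type) {W : Type} [Field K] [AddCommGroup W] [Module K W] (q : ℕ) (w : Fin q → W) :
    SA K W q := SymmetricAlgebra.ι K (⋀[K]^q W) (exteriorPower.ιMulti K q w)

/-- the span over the subring `R` of the products of `m` elements `w_1 ∧ … ∧ w_q` with `w_i ∈ S` -/
def Lat (K : Type) {W : Type} [Field K] [AddCommGroup W] [Module K W] (R : Subring K) (S : Set W)
    (q m : ℕ) : Submodule R (SA K W q) :=
  Submodule.span R {z | ∃ w : Fin m → Fin q → W, (∀ j i, w j i ∈ S) ∧ z = ∏ j, wdg K q (w j)}

/-- the value of a polynomial `f` over `k` in the coordinates of a `q`-vector of a `d`-dimensional space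
at the tuple `ω` -/
def val {k : Type} (K : Type) {W : Type} [Field k] [Field K] [Algebra k K] [AddCommGroup W] [Module K W] {d q : ℕ}
    (f : MvPolynomial (Fin q ↪o Fin d) k) (ω : Fin d → W) : SA K W q :=
  MvPolynomial.eval₂ ((algebraMap K (SA K W q)).comp (algebraMap k K))
    (fun I : Fin q ↪o Fin d => wdg K q (fun i => ω (I i))) f

/-! ### Schemes -/

/-- the function field of the integral `k`-scheme `f : X ⟶ Spec k` -/
def FF {k : Type} [Field k] {X : Scheme.{0}} (_f : X ⟶ Spec (CommRingCat.of k)) [IsIntegral X] : Type :=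
  X.functionField

section

variable {k : Type} [Field k] {X : Scheme.{0}} (f : X ⟶ Spec (CommRingCat.of k)) [IsIntegral X]

instance : Field (FF f) := inferInstanceAs (Field X.functionField)

instance : Algebra k (FF f) :=
  ((Scheme.ΓSpecIso (CommRingCat.of k)).inv ≫ f.appTop ≫
    X.presheaf.germ ⊤ (genericPoint X) trivial).hom.toAlgebra

/-- the local ring at the point `x`, a subring of the function field -/
def stR (x : X) : Subring (FF f) := (algebraMap (X.presheaf.stalk x) X.functionField).range

/-- the differentials of the elements of the local ring at `x` -/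
def dff (x : X) : Set (Ω[FF f⁄k]) := {w | ∃ r ∈ stR f x, w = KaehlerDifferential.D k (FF f) r}

/-- `τ` is a global section of `S^m Ω^q_X` -/
def IsSection (q m : ℕ) (τ : SA (FF f) (Ω[FF f⁄k]) q) : Prop :=
  ∀ x : X, τ ∈ Lat (FF f) (stR f x) (dff f x) q m

/-- `S^m Ω^q_X` has a nonzero global section -/
def HasSection (q m : ℕ) : Prop := ∃ τ : SA (FF f) (Ω[FF f⁄k]) q, τ ≠ 0 ∧ IsSection f q m τ

end

attribute [local instance] MvPolynomial.gradedAlgebra

/-- the projective space of dimension `N` over the complex numbers -/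
def PN (N : ℕ) : Scheme.{0} := Proj (MvPolynomial.homogeneousSubmodule (Fin (N + 1)) ℂ)

/-- its structure morphism -/
def PNs (N : ℕ) : PN N ⟶ Spec (CommRingCat.of ℂ) :=
  Proj.toSpecZero (MvPolynomial.homogeneousSubmodule (Fin (N + 1)) ℂ) ≫
    Spec.map (CommRingCat.ofHom (algebraMap ℂ (MvPolynomial.homogeneousSubmodule (Fin (N + 1)) ℂ 0)))

/-- the integral scheme `X` over the complex numbers is a projective manifold of dimension `n`: smooth of relative dimension `n`, and
closed in some projective space -/
structure ProjectiveManifold (n : ℕ) {X : Scheme.{0}} (f : X ⟶ Spec (CommRingCat.of ℂ)) : Prop where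
  smooth : SmoothOfRelativeDimension n f
  projective : ∃ (N : ℕ) (i : X ⟶ PN N), IsClosedImmersion i ∧ i ≫ PNs N = f

end Pool.SF
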