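import Pool.Agent.Work.MP_bf99ce_sf.Stat
import Pool.Agent.Work.MP_bf99ce_sf.Defs

/-! # THEOREM SF: the two forms of the definitions agree -/

set_option autoImplicit false

open AlgebraicGeometry CategoryTheory

noncomputable section

namespace Pool.SFR

section linear

variable (K : Type) {W : Type} [Field K] [AddCommGroup W] [Module K W]

/-- `Sym(Λ^q W)` in `Sym(Λ W)`. -/
def Phi (q : ℕ) : Pool.SF.SA K W q →ₐ[K] SymmetricAlgebra K (ExteriorAlgebra K W) :=
  SymmetricAlgebra.lift ((SymmetricAlgebra.ι K (ExteriorAlgebra K W)).comp (⋀[K]^q W).subtype)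

theorem Phi_wdg (q : ℕ) (w : Fin q → W) : Phi K q (Pool.SF.wdg K q w) =
    SymmetricAlgebra.ι K (ExteriorAlgebra K W) (ExteriorAlgebra.ιMulti K q w) := by
  rw [Phi, Pool.SF.wdg, SymmetricAlgebra.lift_ι_apply]
  rfl

theorem Phi_inj (q : ℕ) : Function.Injective (Phi K (W := W) q) := by
  obtain ⟨p, hp⟩ := LinearMap.exists_leftInverse_of_injective (⋀[K]^q W).subtype
    (LinearMap.ker_eq_bot.2 (Submodule.injective_subtype _))
  have h1 : ((SymmetricAlgebra.lift ((SymmetricAlgebra.ι K (⋀[K]^q W)).comp p)).comp (Phi K (W := W) q)) =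
      AlgHom.id K _ := by
    refine SymmetricAlgebra.algHom_ext (LinearMap.ext fun y => ?_)
    have h2 : p ((⋀[K]^q W).subtype y) = y := LinearMap.congr_fun hp y
    have h3 : Phi K q (SymmetricAlgebra.ι K (⋀[K]^q W) y) =
        SymmetricAlgebra.ι K (ExteriorAlgebra K W) ((⋀[K]^q W).subtype y) := by
      rw [Phi, SymmetricAlgebra.lift_ι_apply]
      rfl
    have h4 : SymmetricAlgebra.lift ((SymmetricAlgebra.ι K (⋀[K]^q W)).comp p)
        (SymmetricAlgebra.ι K (ExteriorAlgebra K W) ((⋀[K]^q W).subtype y)) =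
        SymmetricAlgebra.ι K (⋀[K]^q W) y := by
      rw [SymmetricAlgebra.lift_ι_apply, LinearMap.comp_apply, h2]
    exact (congrArg _ h3).trans h4
  intro a b hab
  have h2 := congrArg (SymmetricAlgebra.lift ((SymmetricAlgebra.ι K (⋀[K]^q W)).comp p)) hab
  have h3 := fun z => congrArg (fun g => g z) h1
  simp only [AlgHom.comp_apply, AlgHom.id_apply] at h3
  rwa [h3, h3] at h2

theorem Phi_prod (q m : ℕ) (w : Fin m → Fin q → W) :
    Phi K q (∏ j, Pool.SF.wdg K q (w j)) = mono K w := by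
  rw [map_prod, mono]
  exact Finset.prod_congr rfl (fun j _ => Phi_wdg K q (w j))

theorem lat_iff {R : Type} [CommRing R] (φ : R →+* K) (δ : K → W) (q m : ℕ) (z : Pool.SF.SA K W q) :
    z ∈ Pool.SF.Lat K φ.range {w | ∃ r ∈ φ.range, w = δ r} q m ↔
      ∃ (N : ℕ) (c : Fin N → R) (a : Fin N → Fin m → Fin q → R),
        z = ∑ t, φ (c t) • ∏ j, Pool.SF.wdg K q (fun i => δ (φ (a t j i))) := by
  constructor
  · intro hz
    rw [Pool.SF.Lat, Submodule.mem_span_set'] at hz
    obtain ⟨N, c, g, hz⟩ := hz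
    have h1 : ∀ t : Fin N, ∃ r : R, φ r = (c t : K) := fun t => (c t).2
    choose c' hc' using h1
    have h2 : ∀ t : Fin N, ∃ a : Fin m → Fin q → R,
        (g t : Pool.SF.SA K W q) = ∏ j, Pool.SF.wdg K q (fun i => δ (φ (a j i))) := by
      intro t
      obtain ⟨w, hw, hgw⟩ := (g t).2
      have h3 : ∀ (j : Fin m) (i : Fin q), ∃ r : R, w j i = δ (φ r) := by
        intro j i
        obtain ⟨s, ⟨r, hr⟩, hs⟩ := hw j i
        exact ⟨r, by rw [hs, hr]⟩
      choose a ha using h3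
      refine ⟨a, ?_⟩
      rw [hgw]
      refine Finset.prod_congr rfl (fun j _ => ?_)
      congr 1
      funext i
      exact ha j i
    choose a ha using h2
    refine ⟨N, c', a, ?_⟩
    rw [← hz]
    refine Finset.sum_congr rfl (fun t _ => ?_)
    rw [← ha t, hc' t]
    rfl
  · rintro ⟨N, c, a, rfl⟩
    refine Submodule.sum_mem _ (fun t _ => ?_)
    have h1 : φ (c t) • ∏ j, Pool.SF.wdg K q (fun i => δ (φ (a t j i))) =
        (⟨φ (c t), ⟨c t, rfl⟩⟩ : φ.range) • ∏ j, Pool.SF.wdg K q (fun i => δ (φ (a t j i))) := rfl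
    rw [h1]
    refine Submodule.smul_mem _ _ (Submodule.subset_span ?_)
    exact ⟨fun j i => δ (φ (a t j i)), fun j i => ⟨_, ⟨a t j i, rfl⟩, rfl⟩, rfl⟩

end linear

theorem reg_iff (k K R : Type) [Field k] [Field K] [Algebra k K] [CommRing R] (φ : R →+* K) (q m : ℕ)
    (z : Pool.SF.SA K (Ω[K⁄k]) q) : Reg k K R φ q m (Phi K q z) ↔
      z ∈ Pool.SF.Lat K φ.range {w | ∃ r ∈ φ.range, w = KaehlerDifferential.D k K r} q m := by
  rw [lat_iff K φ (fun r => KaehlerDifferential.D k K r) q m z]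
  constructor
  · rintro ⟨N, c, a, h⟩
    refine ⟨N, c, a, Phi_inj K q ?_⟩
    rw [h, map_sum]
    refine Finset.sum_congr rfl (fun t _ => ?_)
    rw [map_smul, Phi_prod]
  · rintro ⟨N, c, a, rfl⟩
    refine ⟨N, c, a, ?_⟩
    rw [map_sum]
    refine Finset.sum_congr rfl (fun t _ => ?_)
    rw [map_smul, Phi_prod]

theorem reg_range (k K R : Type) [Field k] [Field K] [Algebra k K] [CommRing R] (φ : R →+* K) (q m : ℕ)
    (τ : SymmetricAlgebra K (ExteriorAlgebra K (Ω[K⁄k]))) (h : Reg k K R φ q m τ) :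
    ∃ z : Pool.SF.SA K (Ω[K⁄k]) q, Phi K q z = τ := by
  obtain ⟨N, c, a, h⟩ := h
  refine ⟨∑ t, φ (c t) • ∏ j, Pool.SF.wdg K q (fun i => KaehlerDifferential.D k K (φ (a t j i))), ?_⟩
  rw [h, map_sum]
  refine Finset.sum_congr rfl (fun t _ => ?_)
  rw [map_smul, Phi_prod]

theorem hasSec_iff (k K P : Type) [Nonempty P] [Field k] [Field K] [Algebra k K] (R : P → Type)
    [∀ x, CommRing (R x)] (φ : ∀ x, R x →+* K) (q m : ℕ) : HasSec k K P R φ q m ↔
      ∃ z : Pool.SF.SA K (Ω[K⁄k]) q, z ≠ 0 ∧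
        ∀ x, z ∈ Pool.SF.Lat K (φ x).range {w | ∃ r ∈ (φ x).range, w = KaehlerDifferential.D k K r} q m := by
  constructor
  · rintro ⟨τ, h0, h⟩
    obtain ⟨x0⟩ := ‹Nonempty P›
    obtain ⟨z, rfl⟩ := reg_range k K (R x0) (φ x0) q m τ (h x0)
    refine ⟨z, ?_, fun x => (reg_iff k K (R x) (φ x) q m z).1 (h x)⟩
    rintro rfl
    exact h0 (map_zero _)
  · rintro ⟨z, h0, h⟩
    refine ⟨Phi K q z, ?_, fun x => (reg_iff k K (R x) (φ x) q m z).2 (h x)⟩
    intro h1
    exact h0 (Phi_inj K q (by rw [h1, map_zero]))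

/-- The old form over an abstract field. -/
def OldHas (k K : Type) [Field k] [Field K] [Algebra k K] (P : Type) (R : P → Subring K) (q m : ℕ) : Prop :=
  ∃ z : Pool.SF.SA K (Ω[K⁄k]) q, z ≠ 0 ∧
    ∀ x, z ∈ Pool.SF.Lat K (R x) {w | ∃ r ∈ R x, w = KaehlerDifferential.D k K r} q m

theorem oldHas_congr (k K : Type) [Field k] (P : Type) (F1 F2 : Field K) (hF : F1 = F2)
    (A1 : @Algebra k K _ (@DivisionSemiring.toSemiring K (@Semifield.toDivisionSemiring K (@Field.toSemifield K F1))))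
    (A2 : @Algebra k K _ (@DivisionSemiring.toSemiring K (@Semifield.toDivisionSemiring K (@Field.toSemifield K F2))))
    (hA : ∀ r : k, (@algebraMap k K _ _ A1) r = (@algebraMap k K _ _ A2) r)
    (R1 : P → @Subring K (@DivisionRing.toRing K (@Field.toDivisionRing K F1)).toNonAssocRing)
    (R2 : P → @Subring K (@DivisionRing.toRing K (@Field.toDivisionRing K F2)).toNonAssocRing)
    (hR : ∀ (x : P) (r : K), r ∈ R1 x ↔ r ∈ R2 x) (q m : ℕ) :
    @OldHas k K _ F1 A1 P R1 q m ↔ @OldHas k K _ F2 A2 P R2 q m := by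
  subst hF
  have h1 : A1 = A2 := Algebra.algebra_ext _ _ hA
  subst h1
  have h2 : R1 = R2 := funext fun x => SetLike.ext (hR x)
  subst h2
  exact Iff.rfl

theorem old_eq {k : Type} [Field k] {X : Scheme.{0}} (f : X ⟶ Spec (CommRingCat.of k)) [IsIntegral X] (q m : ℕ) :
    Pool.SF.HasSection f q m ↔ OldHas k (Pool.SF.FF f) X (Pool.SF.stR f) q m := Iff.rfl

theorem field_eq {k : Type} [Field k] {X : Scheme.{0}} (f : X ⟶ Spec (CommRingCat.of k)) [IsIntegral X] :
    (inferInstance : Field (Pool.SF.FF f)) = (inferInstanceAs (Field X.functionField)) := rfl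

theorem new_eq {k : Type} [Field k] {X : Scheme.{0}} (f : X ⟶ Spec (CommRingCat.of k)) [IsIntegral X] (q m : ℕ) :
    HasSection f q m ↔ @OldHas k X.functionField _ _ (str f).toAlgebra X
      (fun x => (algebraMap (X.presheaf.stalk x) X.functionField).range) q m := by
  have : Nonempty X := ⟨genericPoint X⟩
  exact @hasSec_iff k X.functionField X _ _ _ (str f).toAlgebra (fun x => X.presheaf.stalk x)
    (fun _ => inferInstance) (fun x => algebraMap (X.presheaf.stalk x) X.functionField) q m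

theorem mid_eq {k : Type} [Field k] {X : Scheme.{0}} (f : X ⟶ Spec (CommRingCat.of k)) [IsIntegral X] (q m : ℕ) :
    @OldHas k X.functionField _ _ (str f).toAlgebra X
      (fun x => (algebraMap (X.presheaf.stalk x) X.functionField).range) q m ↔
    @OldHas k (Pool.SF.FF f) _ _ _ X (Pool.SF.stR f) q m :=
  oldHas_congr k (Pool.SF.FF f) X (inferInstanceAs (Field X.functionField)) _ (field_eq f).symm (str f).toAlgebra _
    (fun _ => rfl) (fun x => (algebraMap (X.presheaf.stalk x) X.functionField).range) (Pool.SF.stR f)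
    (fun _ _ => Iff.rfl) q m

/-- The two forms of the definition agree. -/
theorem hasSection_iff {k : Type} [Field k] {X : Scheme.{0}} (f : X ⟶ Spec (CommRingCat.of k)) [IsIntegral X]
    (q m : ℕ) : HasSection f q m ↔ Pool.SF.HasSection f q m :=
  (new_eq f q m).trans ((mid_eq f q m).trans (old_eq f q m).symm)

end Pool.SFR
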