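import Mathlib

/-!
# THEOREM SF (MP_bf99ce_ag): the definitions of the final statement

Global sections of symmetric powers of exterior powers of the cotangent bundle of a smooth integral scheme over a field, read in
the function field.
-/

set_option autoImplicit false

open AlgebraicGeometry CategoryTheory

noncomputable section

namespace Pool.SFR

/-- The pairs `(d, q)` for which some symmetric power of `Λ^q` of a `d`-dimensional space contains a positive power of the
determinant. -/
def Good (d q : ℕ) : Prop := 1 ≤ q ∧ q ≤ d ∧ (q = d ∨ (3 ≤ q ∧ q + 3 ≤ d) ∨ (Even d ∧ (q = 2 ∨ q + 2 = d)))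

/-- The product of the `m` elements `w_j1 ∧ … ∧ w_jq` in the symmetric algebra of the exterior algebra of `W`. (The symmetric power
`S^m Λ^q W` is a subspace of this algebra, spanned by these products.) -/
def mono (K : Type) {W : Type} [Field K] [AddCommGroup W] [Module K W] {q m : ℕ} (w : Fin m → Fin q → W) :
    SymmetricAlgebra K (ExteriorAlgebra K W) :=
  ∏ j, SymmetricAlgebra.ι K (ExteriorAlgebra K W) (ExteriorAlgebra.ιMulti K q (w j))

/-- `R` is a ring with a homomorphism `φ` to the extension field `K` of `k` (in use: a local ring of a scheme with function field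
`K`). `Reg` says that `τ` is a sum of terms `c (da_11 ∧ … ∧ da_1q) … (da_m1 ∧ … ∧ da_mq)` with `c` and all `a_ji` in the image of
`R`, in other words an element of the image of `S^m Ω^q_{R/k}` in `S^m Ω^q_{K/k}`. -/
structure Reg (k K R : Type) [Field k] [Field K] [Algebra k K] [CommRing R] (φ : R →+* K) (q m : ℕ)
    (τ : SymmetricAlgebra K (ExteriorAlgebra K (Ω[K⁄k]))) : Prop where
  reg : ∃ (N : ℕ) (c : Fin N → R) (a : Fin N → Fin m → Fin q → R),
    τ = ∑ t, φ (c t) • mono K (fun j i => KaehlerDifferential.D k K (φ (a t j i)))

/-- Some nonzero `τ` satisfies `Reg` for all the rings `R x`, `x : P`. -/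
structure HasSec (k K P : Type) [Field k] [Field K] [Algebra k K] (R : P → Type) [∀ x, CommRing (R x)]
    (φ : ∀ x, R x →+* K) (q m : ℕ) : Prop where
  ex : ∃ τ : SymmetricAlgebra K (ExteriorAlgebra K (Ω[K⁄k])), τ ≠ 0 ∧ ∀ x, Reg k K (R x) (φ x) q m τ

/-- The homomorphism from `k` to the function field of the integral `k`-scheme `f : X ⟶ Spec k`. -/
def str {k : Type} [Field k] {X : Scheme.{0}} (f : X ⟶ Spec (CommRingCat.of k)) [IsIntegral X] : k →+* X.functionField :=
  ((Scheme.ΓSpecIso (CommRingCat.of k)).inv ≫ f.appTop ≫ X.presheaf.germ ⊤ (genericPoint X) trivial).hom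

/-- `S^m Ω^q_X` has a nonzero global section (`X` smooth over `k`): there is a nonzero `τ` in `S^m Ω^q_{K/k}`, `K` the function
field of `X`, which comes from `S^m Ω^q_{R/k}` for the local ring `R` at every point of `X`. -/
def HasSection {k : Type} [Field k] {X : Scheme.{0}} (f : X ⟶ Spec (CommRingCat.of k)) [IsIntegral X] (q m : ℕ) : Prop :=
  @HasSec k X.functionField X _ _ (str f).toAlgebra (fun x => X.presheaf.stalk x) (fun _ => inferInstance)
    (fun x => algebraMap (X.presheaf.stalk x) X.functionField) q m

end Pool.SFR
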