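import Pool.Agent.Work.MP_bf99ce_sf.Interface

/-! # Block CRD: the number of increasing maps -/

set_option autoImplicit false

open AlgebraicGeometry CategoryTheory

noncomputable section

namespace Pool.SF

theorem p_CRD : Stmt_CRD := by
  intro d q
  rw [← Nat.card_eq_fintype_card, Nat.card_congr Set.powersetCard.ofFinEmbEquiv,
    Set.powersetCard.card, Nat.card_eq_fintype_card, Fintype.card_fin]

end Pool.SF
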