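import Pool.Agent.Work.MP_bf99ce_sf.Interface

set_option autoImplicit false

open AlgebraicGeometry CategoryTheory

noncomputable section

namespace Pool.SF

/-- fractions with denominators outside a prime -/
theorem SCH_frac (S L K : Type) [CommRing S] [IsDomain S] [CommRing L] [Field K] [Algebra S L]
    [Algebra S K] [Algebra L K] [IsScalarTower S L K] [IsFractionRing S K] (P : Ideal S) [P.IsPrime]
    [IsLocalization.AtPrime L P] (z : K) :
    (∃ s : L, algebraMap L K s = z) ↔
      ∃ a b : S, b ∉ P ∧ z = algebraMap S K a / algebraMap S K b := by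
  have hinj : Function.Injective (algebraMap S K) := IsFractionRing.injective S K
  have hb0 : ∀ b : S, b ∉ P → algebraMap S K b ≠ 0 := by
    intro b hb h0
    apply hb
    have : b = 0 := hinj (by rw [h0, map_zero])
    rw [this]
    exact P.zero_mem
  constructor
  · rintro ⟨s, rfl⟩
    obtain ⟨⟨a, b⟩, hab⟩ := IsLocalization.surj P.primeCompl s
    refine ⟨a, b, b.2, ?_⟩
    rw [eq_div_iff (hb0 b b.2)]
    have h2 := congrArg (algebraMap L K) hab
    rw [map_mul, ← IsScalarTower.algebraMap_apply, ← IsScalarTower.algebraMap_apply] at h2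
    exact h2
  · rintro ⟨a, b, hb, rfl⟩
    refine ⟨IsLocalization.mk' L a (⟨b, hb⟩ : P.primeCompl), ?_⟩
    rw [eq_div_iff (hb0 b hb), IsScalarTower.algebraMap_apply S L K b, ← map_mul,
      IsScalarTower.algebraMap_apply S L K a]
    congr 1
    exact IsLocalization.mk'_spec L a (⟨b, hb⟩ : P.primeCompl)

theorem p_SCH : Stmt_SCH := by
  intro k _ X f _ n hf x
  obtain ⟨U, hU, V, hV, hx, e, hs⟩ := hf.exists_isStandardSmoothOfRelativeDimension x
  have hUt : U = ⊤ := by
    rw [eq_top_iff]
    intro y _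
    have hy : y = f x := Subsingleton.elim (α := PrimeSpectrum k) _ _
    rw [hy]
    exact e hx
  subst hUt
  have hne : Nonempty V := ⟨⟨x, hx⟩⟩
  let a1 : Algebra k Γ(X, V) :=
    ((Scheme.ΓSpecIso (CommRingCat.of k)).inv ≫ f.appLE ⊤ V e).hom.toAlgebra
  have hfr := functionField_isFractionRing_of_isAffineOpen X V hV
  refine ⟨Γ(X, V), inferInstance, inferInstance, a1,
    (inferInstance : Algebra Γ(X, V) X.functionField), ?_, hfr,
    (hV.primeIdealOf ⟨x, hx⟩).asIdeal, inferInstance, ?_, ?_⟩
  · refine @IsScalarTower.of_algebraMap_eq' k Γ(X, V) (FF f) _ _ _ a1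
      (inferInstanceAs (Algebra Γ(X, V) X.functionField)) _ ?_
    change ((Scheme.ΓSpecIso (CommRingCat.of k)).inv ≫ f.appTop ≫
      X.presheaf.germ ⊤ (genericPoint X) trivial).hom =
      (X.germToFunctionField V).hom.comp
        ((Scheme.ΓSpecIso (CommRingCat.of k)).inv ≫ f.appLE ⊤ V e).hom
    rw [← CommRingCat.hom_comp, Category.assoc, Scheme.Hom.appLE, Category.assoc,
      Scheme.germToFunctionField, TopCat.Presheaf.germ_res]
    rfl
  · have h2 := (RingHom.isStandardSmoothOfRelativeDimension_respectsIso (n := n)).cancel_left_isIso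
      (Scheme.ΓSpecIso (CommRingCat.of k)).inv (f.appLE ⊤ V e)
    exact h2.2 hs
  · intro z
    have hloc := hV.isLocalization_stalk ⟨x, hx⟩
    have h3 := @SCH_frac Γ(X, V) (X.presheaf.stalk x) X.functionField _ _ _ _
      (TopCat.Presheaf.algebra_section_stalk X.presheaf ⟨x, hx⟩) _ _
      (functionField_isScalarTower X V ⟨x, hx⟩) hfr (hV.primeIdealOf ⟨x, hx⟩).asIdeal _ hloc z
    exact h3

end Pool.SF
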