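import Pool.Agent.Work.MP_bf99ce_sf.Interface

set_option autoImplicit false

open AlgebraicGeometry CategoryTheory

noncomputable section

namespace Pool.SF

/-- the generic matrix -/
def UNI_G (k : Type) [CommRing k] (d q : ℕ) :
    Matrix (Fin d) (Fin d) (MvPolynomial ((Fin q ↪o Fin d) ⊕ (Fin d × Fin d)) k) :=
  Matrix.of fun i j => MvPolynomial.X (Sum.inr (i, j))

/-- the generic coordinates -/
def UNI_X (k : Type) [CommRing k] (d q : ℕ) :
    (Fin q ↪o Fin d) → MvPolynomial ((Fin q ↪o Fin d) ⊕ (Fin d × Fin d)) k :=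
  fun I => MvPolynomial.X (Sum.inl I)

theorem UNI_a (hACT : Stmt_ACT) (hUAR : Stmt_UAR) (k : Type) [CommRing k] (d q : ℕ)
    (B : Type) [CommRing B]
    (θ : MvPolynomial ((Fin q ↪o Fin d) ⊕ (Fin d × Fin d)) k →+* B)
    (f : MvPolynomial (Fin q ↪o Fin d) k) :
    θ (MvPolynomial.eval₂ MvPolynomial.C
        (fun I : Fin q ↪o Fin d => act (UNI_G k d q) (ext (UNI_X k d q)) I) f) =
      MvPolynomial.eval₂ (θ.comp MvPolynomial.C)
        (fun I : Fin q ↪o Fin d =>
          act ((UNI_G k d q).map θ) (ext (fun I => θ (UNI_X k d q I))) I) f := by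
  rw [MvPolynomial.eval₂_comp_left]
  congr 1
  funext I
  have h1 := (hACT (MvPolynomial ((Fin q ↪o Fin d) ⊕ (Fin d × Fin d)) k)).2.2.2 B θ d d q
    (UNI_G k d q) (ext (UNI_X k d q))
  have h2 := (hUAR (MvPolynomial ((Fin q ↪o Fin d) ⊕ (Fin d × Fin d)) k)).2.2.2 B θ d q
    (UNI_X k d q)
  rw [h2] at h1
  exact congrFun h1 I

theorem UNI_b (k : Type) [CommRing k] (d q p : ℕ)
    (B : Type) [CommRing B]
    (θ : MvPolynomial ((Fin q ↪o Fin d) ⊕ (Fin d × Fin d)) k →+* B)
    (f : MvPolynomial (Fin q ↪o Fin d) k) :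
    θ ((UNI_G k d q).det ^ p * MvPolynomial.eval₂ MvPolynomial.C (UNI_X k d q) f) =
      ((UNI_G k d q).map θ).det ^ p *
        MvPolynomial.eval₂ (θ.comp MvPolynomial.C) (fun I => θ (UNI_X k d q I)) f := by
  rw [map_mul, map_pow, RingHom.map_det, MvPolynomial.eval₂_comp_left]
  rfl

theorem p_UNI (hACT : Stmt_ACT) (hUAR : Stmt_UAR) : Stmt_UNI := by
  intro k _ _ d q p f hf B _ ρ x hx g
  set Φ₁ : MvPolynomial ((Fin q ↪o Fin d) ⊕ (Fin d × Fin d)) k :=
    MvPolynomial.eval₂ MvPolynomial.C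
        (fun I : Fin q ↪o Fin d => act (UNI_G k d q) (ext (UNI_X k d q)) I) f with hΦ₁
  set Φ₂ : MvPolynomial ((Fin q ↪o Fin d) ⊕ (Fin d × Fin d)) k :=
    (UNI_G k d q).det ^ p * MvPolynomial.eval₂ MvPolynomial.C (UNI_X k d q) f with hΦ₂
  -- the difference times the determinant vanishes
  have hΨ : (Φ₁ - Φ₂) * (UNI_G k d q).det = 0 := by
    refine MvPolynomial.funext fun e => ?_
    rw [map_zero, map_mul, map_sub]
    have hdet : MvPolynomial.eval e (UNI_G k d q).det =
        ((UNI_G k d q).map (MvPolynomial.eval e)).det := RingHom.map_det _ _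
    rw [hdet]
    by_cases h0 : ((UNI_G k d q).map (MvPolynomial.eval e)).det = 0
    · rw [h0, mul_zero]
    · have hid : (MvPolynomial.eval e).comp MvPolynomial.C = RingHom.id k := by
        ext z
        simp
      have h1 := UNI_a hACT hUAR k d q k (MvPolynomial.eval e) f
      have h2 := UNI_b k d q p k (MvPolynomial.eval e) f
      rw [hid] at h1 h2
      rw [hΦ₁, hΦ₂, h1, h2]
      have h3 := hf _ h0 (fun I => MvPolynomial.eval e (UNI_X k d q I))
      have h4 : MvPolynomial.eval (fun I : Fin q ↪o Fin d =>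
          act ((UNI_G k d q).map (MvPolynomial.eval e))
            (ext fun I => MvPolynomial.eval e (UNI_X k d q I)) I) f =
          MvPolynomial.eval₂ (RingHom.id k) (fun I : Fin q ↪o Fin d =>
          act ((UNI_G k d q).map (MvPolynomial.eval e))
            (ext fun I => MvPolynomial.eval e (UNI_X k d q I)) I) f := rfl
      have h5 : MvPolynomial.eval (fun I => MvPolynomial.eval e (UNI_X k d q I)) f =
          MvPolynomial.eval₂ (RingHom.id k) (fun I => MvPolynomial.eval e (UNI_X k d q I)) f :=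
        rfl
      rw [← h4, ← h5, h3, sub_self, zero_mul]
  have hdet0 : (UNI_G k d q).det ≠ 0 := by
    intro h
    have h1 := congrArg (MvPolynomial.eval (Sum.elim (fun _ : Fin q ↪o Fin d => (0 : k))
      (fun r : Fin d × Fin d => (1 : Matrix (Fin d) (Fin d) k) r.1 r.2))) h
    rw [RingHom.map_det, map_zero] at h1
    have h2 : (MvPolynomial.eval (Sum.elim (fun _ : Fin q ↪o Fin d => (0 : k))
      (fun r : Fin d × Fin d => (1 : Matrix (Fin d) (Fin d) k) r.1 r.2))).mapMatrix
        (UNI_G k d q) = 1 := by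
      ext i j
      simp [UNI_G]
    rw [h2, Matrix.det_one] at h1
    exact one_ne_zero h1
  have hEq : Φ₁ = Φ₂ := by
    rcases mul_eq_zero.mp hΨ with h | h
    · exact sub_eq_zero.mp h
    · exact absurd h hdet0
  -- specialize
  set θ : MvPolynomial ((Fin q ↪o Fin d) ⊕ (Fin d × Fin d)) k →+* B :=
    MvPolynomial.eval₂Hom ρ (Sum.elim (fun I : Fin q ↪o Fin d => x I)
      (fun r : Fin d × Fin d => g r.1 r.2)) with hθ
  have hC : θ.comp MvPolynomial.C = ρ := by
    ext z
    simp [hθ]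
  have hG : (UNI_G k d q).map θ = g := by
    ext i j
    simp [hθ, UNI_G]
  have hX : ∀ I, θ (UNI_X k d q I) = x I := by
    intro I
    simp [hθ, UNI_X]
  have h1 := UNI_a hACT hUAR k d q B θ f
  have h2 := UNI_b k d q p B θ f
  rw [hC, hG] at h1 h2
  simp only [hX] at h1 h2
  rw [(hUAR B).2.2.1 d q x hx] at h1
  rw [← h1, ← h2]
  exact congrArg θ hEq

end Pool.SF
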