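import Pool.Agent.Work.MP_bf99ce_sf.Defs

/-!
# THEOREM SF (MP_bf99ce_ag): the blocks

THEOREM SF. `X` smooth over a field `k` of characteristic zero, `Good d q`. If `S^p Ω^d_X`, `p ≥ 1`, has a nonzero global section of
the form `φ (ω_1 ∧ … ∧ ω_d)^p` at the generic point, then `S^m Ω^q_X` has a nonzero global section for some `m ≥ 1`.

Files `B_X.lean` in `Pool/Agent/Work/MP_bf99ce_sf`, `import Pool.Agent.Work.MP_bf99ce_sf.Interface`, namespace `Pool.SF`,
`theorem p_X (hA : Stmt_A) ... : Stmt_X` with exactly the blocks named after `uses` as hypotheses in that order. Auxiliary lemmas with the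
prefix `X_`. `Fin q ↪o Fin d` is the set of increasing `q`-tuples (`q`-subsets). All rings are in `Type`.

Notation in the docstrings: `x : (Fin q → Fin d) → B` is an array, `act g x` is `g` applied to all indices, `ext y` the alternating array with the
coordinates `y`; `act g (act h x) = act (g * h) x`.
-/

set_option autoImplicit false

open AlgebraicGeometry CategoryTheory

noncomputable section

namespace Pool.SF

/-! ## Part A: semi-invariants of `q`-vectors -/

/-- **ACT** (80). (1) Expand both, `Finset.prod_univ_sum` (or `Finset.prod_sum`), exchange the sums. (3) `∏ i, 1 (a i) (c i)` is `1` if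
`c = a` and `0` otherwise. (4) `zero`: if `a i = a j` then exchanging `c i` and `c j` (the involution `c ↦ c ∘ swap i j`) changes the sign of the
summand; characteristic two: the terms with `c i = c j` vanish by `zero`, the others cancel in pairs (`Finset.sum_involution`). `swap`: substitute
`c ↦ c ∘ s` (`Equiv.sum_comp`, `Equiv.prod_comp`). (5) a ring homomorphism commutes with sums and products. -/
def Stmt_ACT : Prop := ∀ (B : Type) [CommRing B],
  (∀ (d d' d'' q : ℕ) (g : Matrix (Fin d) (Fin d') B) (h : Matrix (Fin d') (Fin d'') B) (x : (Fin q → Fin d'') → B),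
    act g (act h x) = act (g * h) x) ∧
  (∀ (d q : ℕ) (x : (Fin q → Fin d) → B), act (1 : Matrix (Fin d) (Fin d) B) x = x) ∧
  (∀ (d d' q : ℕ) (g : Matrix (Fin d) (Fin d') B) (x : (Fin q → Fin d') → B), Alt x → Alt (act g x)) ∧
  (∀ (B' : Type) [CommRing B'] (ρ : B →+* B') (d d' q : ℕ) (g : Matrix (Fin d) (Fin d') B) (x : (Fin q → Fin d') → B),
    (fun a => ρ (act g x a)) = act (g.map ρ) (fun a => ρ (x a)))

/-- **UAR** (120). (1) `Matrix.det_zero_of_row_eq`, `Matrix.det_permute` (rows permuted). (2) for increasing `I ≠ J` the image of `J` is not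
contained in the image of `I` (same cardinality, an increasing map is determined by its image), so the matrix has a zero row; for `I = J` it is the
unit matrix. (3) if `a` is not injective both sides vanish (`zero`, equal rows); if `a` is injective, `a = I ∘ s` with `I` increasing (the order
embedding onto the image: `Finset.orderEmbOfFin`, or `Tuple.sort`) and `s` a permutation, both sides are `sign s * x I` (`swap`, (1), (2)).
(4) clear (`RingHom.map_det`). -/
def Stmt_UAR : Prop := ∀ (B : Type) [CommRing B],
  (∀ (d q : ℕ) (y : (Fin q ↪o Fin d) → B), Alt (ext y)) ∧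
  (∀ (d q : ℕ) (y : (Fin q ↪o Fin d) → B) (I : Fin q ↪o Fin d), ext y I = y I) ∧
  (∀ (d q : ℕ) (x : (Fin q → Fin d) → B), Alt x → ext (fun I : Fin q ↪o Fin d => x I) = x) ∧
  (∀ (B' : Type) [CommRing B'] (ρ : B →+* B') (d q : ℕ) (y : (Fin q ↪o Fin d) → B),
    (fun a => ρ (ext y a)) = ext (fun I => ρ (y I)))

/-- **ALP** (150), uses ACT UAR. `al g` sends `ext X a` to `act g (ext X) a` for ALL tuples `a` (both sides are alternating and agree at
increasing tuples: UAR (3), (2)). (1) `al g (al h (X I)) = al g (act h (ext X) I) = act h (act g (ext X)) I = act (h * g) (ext X) I`.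
(2) from ACT (2), UAR (2). (3), (4): `act g (ext X) I` is homogeneous of degree one. (5) `eval y` maps `ext X` to `ext y` (UAR (4)),
and ACT (4). -/
def Stmt_ALP : Prop := ∀ (k : Type) [Field k] (d q : ℕ),
  (∀ (g h : Matrix (Fin d) (Fin d) k) (f : MvPolynomial (Fin q ↪o Fin d) k), al g (al h f) = al (h * g) f) ∧
  (∀ f : MvPolynomial (Fin q ↪o Fin d) k, al 1 f = f) ∧
  (∀ (g : Matrix (Fin d) (Fin d) k) (f : MvPolynomial (Fin q ↪o Fin d) k), (al g f).totalDegree ≤ f.totalDegree) ∧
  (∀ (g : Matrix (Fin d) (Fin d) k) (f : MvPolynomial (Fin q ↪o Fin d) k) (m : ℕ),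
    MvPolynomial.homogeneousComponent m (al g f) = al g (MvPolynomial.homogeneousComponent m f)) ∧
  (∀ (g : Matrix (Fin d) (Fin d) k) (f : MvPolynomial (Fin q ↪o Fin d) k) (y : (Fin q ↪o Fin d) → k),
    MvPolynomial.eval y (al g f) = MvPolynomial.eval (fun I : Fin q ↪o Fin d => act g (ext y) I) f)

/-- **TRD** (60). More polynomials than variables are algebraically dependent. Otherwise `Y` is algebraically independent in a domain of
transcendence degree `card σ` (`MvPolynomial.trdeg_of_isDomain` or similar, `AlgebraicIndependent.cardinalMk_le_trdeg`); or count: the monomials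
of degree at most `N` in the `Y i` lie in the polynomials of degree at most `c N`. -/
def Stmt_TRD : Prop := ∀ (K : Type) [Field K] (I σ : Type) [Fintype I] [Fintype σ] (Y : I → MvPolynomial σ K),
  Fintype.card σ < Fintype.card I → ∃ Φ : MvPolynomial I K, Φ ≠ 0 ∧ MvPolynomial.aeval Y Φ = 0

/-- **RA1** (250), uses ACT UAR ALP TRD. There is a nonconstant rational invariant `a / b`. Let `P` be the polynomial ring, `K` its
fraction field. For invertible `g` (`g.det ≠ 0`), `al g` is injective (`al g (al g⁻¹ f) = al (g⁻¹ * g) f = f`), so it extends to `K`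
(`IsFractionRing.map`, or `IsLocalization.map`): `A g : K →+* K`, with `A g (A h c) = A (h * g) c`. Let `ξ I` be the image of the variable `X I`
in `K`, and for `h` over `k` let `v h I = act (h.map (algebraMap k K)) (ext ξ) I`. Then `A g (v h I) = v (h * g) I` (for all tuples `a`:
`A g (ext ξ a) = act g (ext ξ) a`, as in ALP). Let `S` be the set of the `Φ : MvPolynomial I K` with `eval (v h) Φ = 0` for all `h` over `k` with
`h.det ≠ 0`. TRD with `σ = Fin d × Fin d` and `Y I = act G (ext (C ∘ ξ)) I`, `G` the generic matrix, gives a nonzero element of `S` (specialize the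
variables of `G` to the entries of `h`; `card σ = d ^ 2`). Choose a nonzero `Φ ∈ S` with the least number of monomials, and divide it by one of
its coefficients, so that one coefficient is `1`. For `g` with `g.det ≠ 0`, `Φ^g = map (A g) Φ` is in `S`: `eval (v (h * g)) Φ^g = A g (eval (v h) Φ) =
0`, and `h * g` runs over all invertible matrices. `Φ^g - Φ ∈ S` has fewer monomials, so it is zero: all coefficients of `Φ` are fixed by all `A g`.
If all of them were in `k`, `Φ = map (algebraMap k K) Φ₀`, then `h = 1` (`v 1 = ξ`) gives `Φ₀ = 0` (the image of `Φ₀` in `K` is zero), a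
contradiction. So some coefficient `c = a / b` is fixed and not in `k`; `A g c = c` means `al g a * b = a * al g b`. -/
def Stmt_RA1 : Prop := ∀ (k : Type) [Field k] [CharZero k] (d q : ℕ), d ^ 2 < Fintype.card (Fin q ↪o Fin d) →
  ∃ a b : MvPolynomial (Fin q ↪o Fin d) k, b ≠ 0 ∧ (∀ z : k, a ≠ MvPolynomial.C z * b) ∧
    ∀ g : Matrix (Fin d) (Fin d) k, g.det ≠ 0 → al g a * b = a * al g b

/-- **RA2** (150), uses ALP. Dividing `a`, `b` by a greatest common divisor (`MvPolynomial` over a field is a unique factorization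
monoid; or `IsFractionRing.exists_reduced_fraction` for `a / b`) we may assume that `a`, `b` are relatively prime. Then `a ∣ al g a * b`, so
`a ∣ al g a`, and similarly `b ∣ al g b`; the degree of `al g a` is at most that of `a` (ALP (3)), so `al g a = C u * a`, the same for `b`
(`a ≠ 0` since `a ≠ C 0 * b`). One of `a`, `b` has positive total degree `m` (otherwise `a = C z * b`); its homogeneous component of degree `m` is
not zero and satisfies the same equation (ALP (4)). -/
def Stmt_RA2 : Prop := ∀ (k : Type) [Field k] [CharZero k] (d q : ℕ) (a b : MvPolynomial (Fin q ↪o Fin d) k), b ≠ 0 →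
  (∀ z : k, a ≠ MvPolynomial.C z * b) → (∀ g : Matrix (Fin d) (Fin d) k, g.det ≠ 0 → al g a * b = a * al g b) →
  ∃ (m : ℕ) (f : MvPolynomial (Fin q ↪o Fin d) k), 1 ≤ m ∧ f ≠ 0 ∧ f.IsHomogeneous m ∧
    ∀ g : Matrix (Fin d) (Fin d) k, g.det ≠ 0 → ∃ u : k, al g f = MvPolynomial.C u * f

/-- **RAT** (30), uses ALP RA1 RA2. Evaluate (ALP (5)). -/
def Stmt_RAT : Prop := ∀ (k : Type) [Field k] [CharZero k] (d q : ℕ), d ^ 2 < Fintype.card (Fin q ↪o Fin d) → Sem k d q

/-- **CRD** (40). Increasing maps correspond to `q`-subsets (`Finset.orderEmbOfFin`, `Set.powersetCard`, `Finset.card_powersetCard`). -/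
def Stmt_CRD : Prop := ∀ d q : ℕ, Fintype.card (Fin q ↪o Fin d) = d.choose q

/-- **BIN** (60). `8 ^ 2 < 70`; for `d ≥ 9`, `3 ≤ q ≤ d - 3`: `d.choose q ≥ d.choose 3 = d (d-1) (d-2) / 6 > d ^ 2` (unimodality, or induction on
`d` by Pascal's rule: `C(d+1, q) = C(d, q) + C(d, q-1)`). -/
def Stmt_BIN : Prop := ∀ d q : ℕ, 3 ≤ q → q + 3 ≤ d → (9 ≤ d ∨ (d = 8 ∧ q = 4)) → d ^ 2 < d.choose q

/-- **TOP** (40), uses UAR. `f` = the variable of the only increasing map, `m = 1`; `act g (ext y) id = g.det * y id`: `ext y c = det (δ (c i) j) * y id`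
and `∑ c, ∏ g i (c i) * det (δ (c i) j) = det g` (`Matrix.det_mul`-like: multilinearity, or expand `det`: only `c = σ` counts). `d ≥ 1` is not needed. -/
def Stmt_TOP : Prop := ∀ (k : Type) [Field k] [CharZero k] (d : ℕ), Sem k d d

/-- **TWO** (100), uses ACT UAR. `f = det (M X)`, `M y i j = ext y ![i, j]`, `m = d`. `M` of `act g (ext y)` is `g * M y * gᵀ` (sum over `Fin 2 → Fin d` =
sum over pairs), and `act g (ext y)` is alternating, so `u = det g ^ 2`. `f ≠ 0`: evaluate at the alternating matrix `J` with
`J (2i) (2i+1) = 1`: `y I = J (I 0) (I 1)`, `M y = J`, `J * Jᵀ = 1` or `J * J = -1`. -/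
def Stmt_TWO : Prop := ∀ (k : Type) [Field k] [CharZero k] (d : ℕ), 1 ≤ d → Even d → Sem k d 2

/-- **GRL** (150), uses ACT UAR. The Gram matrix of the bilinear form on 3-covectors. For an array `x` put `G x I J = ∑ σ τ, sign σ * sign τ *
x ![I (σ 0), I (σ 1), J (τ 0)] * x ![I (σ 2), J (τ 1), J (τ 2)]` (`σ`, `τ` permutations of `Fin 3`, `I`, `J` arbitrary tuples); it is alternating in
`I` and in `J`. For alternating `x`: `G (act g x) I J = ∑ c c', ∏ g (I i) (c i) * ∏ g (J i) (c' i) * G x c c'`, and for an alternating `H`: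
`∑ c, ∏ g (I i) (c i) * H c = ∑ K increasing, det (g (I i) (K j)) * H K` (UAR (3) for `H`, `act g (ext y) I = ∑ K, det (g (I i) (K j)) * y K` by
multilinearity). So as matrices on the increasing tuples `G (act g x) = Λ * G x * Λᵀ` and `det G (act g x) = det Λ ^ 2 * det G x`. `f = det` of the matrix of
polynomials `G (ext X)`, homogeneous of degree `2 * card`; `f ≠ 0` by the hypothesis. -/
def Stmt_GRL : Prop := ∀ (k : Type) [Field k] [CharZero k] (d : ℕ), 3 ≤ d →
  (∃ y : (Fin 3 ↪o Fin d) → ℤ, (Matrix.of fun I J : Fin 3 ↪o Fin d => ∑ σ : Equiv.Perm (Fin 3), ∑ τ : Equiv.Perm (Fin 3),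
    ((Equiv.Perm.sign σ : ℤ)) * ((Equiv.Perm.sign τ : ℤ)) * ext y ![I (σ 0), I (σ 1), J (τ 0)] *
      ext y ![I (σ 2), J (τ 1), J (τ 2)]).det ≠ 0) → Sem k d 3

/-- **GN6** (80). `y` = the indicator of the two triples `012`, `345`; up to the factor 4 the matrix has one nonzero entry in each row
(`1`, `-1` or `3`), so an explicit matrix `H` with `G * H = c • 1`. See the hints of GN8. -/
def Stmt_GN6 : Prop := ∃ y : (Fin 3 ↪o Fin 6) → ℤ, (Matrix.of fun I J : Fin 3 ↪o Fin 6 => ∑ σ : Equiv.Perm (Fin 3),
  ∑ τ : Equiv.Perm (Fin 3), ((Equiv.Perm.sign σ : ℤ)) * ((Equiv.Perm.sign τ : ℤ)) * ext y ![I (σ 0), I (σ 1), J (τ 0)] *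
    ext y ![I (σ 2), J (τ 1), J (τ 2)]).det ≠ 0

/-- **GN7** (150). `y` = the signed indicator of the Fano plane: the alternating array with value `1` at `(i, i+1, i+3)` modulo 7 for
`i = 0, …, 6` (order of the entries as written); the matrix is invertible (35 rows, blocks of sizes 4, 4, 4, 4, 4, 4, 4, 7 up to
reordering, entries 4 times -2, …, 3). See the hints of GN8. Any other `y` may be used. -/
def Stmt_GN7 : Prop := ∃ y : (Fin 3 ↪o Fin 7) → ℤ, (Matrix.of fun I J : Fin 3 ↪o Fin 7 => ∑ σ : Equiv.Perm (Fin 3),
  ∑ τ : Equiv.Perm (Fin 3), ((Equiv.Perm.sign σ : ℤ)) * ((Equiv.Perm.sign τ : ℤ)) * ext y ![I (σ 0), I (σ 1), J (τ 0)] *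
    ext y ![I (σ 2), J (τ 1), J (τ 2)]).det ≠ 0

/-- **GN8** (200). `y` = the signed indicator of the Moebius-Kantor configuration: the alternating array with value `1` at `(i, i+1, i+3)` modulo 8
for `i = 0, …, 7`; the matrix is invertible (56 rows, blocks of sizes 8, 12, 12, 12, 12 up to reordering, entries 4 times -2, …, 3).
Hints: compute in Python; replace `ext y` by an explicit function `e : Fin 8 → Fin 8 → Fin 8 → ℤ` (prove that it is alternating by `decide`, then
UAR-like: it is enough to know `ext y ![a, b, c] = e a b c`, by `decide +kernel` or from the uniqueness of alternating arrays), the matrix by an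
explicit one, and give an integer matrix `H` with `G * H = c • 1`, `c ≠ 0` (then `det G * det H = c ^ 56 ≠ 0`), or work modulo a small prime
(`det` commutes with `Int.cast` to `ZMod p`, `RingHom.map_det`) with an inverse modulo `p`; `decide +kernel` on arithmetic with natural numbers is
fast (a row of a matrix can be coded by one big natural number). Any other `y` may be used. -/
def Stmt_GN8 : Prop := ∃ y : (Fin 3 ↪o Fin 8) → ℤ, (Matrix.of fun I J : Fin 3 ↪o Fin 8 => ∑ σ : Equiv.Perm (Fin 3),
  ∑ τ : Equiv.Perm (Fin 3), ((Equiv.Perm.sign σ : ℤ)) * ((Equiv.Perm.sign τ : ℤ)) * ext y ![I (σ 0), I (σ 1), J (τ 0)] *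
    ext y ![I (σ 2), J (τ 1), J (τ 2)]).det ≠ 0

/-- **DUA** (200), uses ACT UAR. Duality. `ε a c` for `a : Fin q → Fin d`, `c : Fin r → Fin d`: the determinant of the `d × d` matrix
`δ (s i) j`, `s` = the concatenation of `a` and `c` (`Fin.append`, cast by `q + r = d`). For an array `y` of rank `r` let
`z y a = ∑ c : Fin r → Fin d, ε a c * y c`. `z y` is alternating. For alternating `y`: `act gᵀ (z (act g y)) = det g • z y`: the coefficient of `y c'` on the
left at `a` is `∑ s : Fin d → Fin d, ε s * ∏ l, g (s l) (t l)`, `t` = the concatenation of `a` and `c'`, which is `det g * ε t` (the determinant of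
`g` with the columns `t l`). So `z (act g y) = det g • act (gᵀ)⁻¹ (z y)` for invertible `g`. If `f` is as in `Sem k d q`, let `f'` be the polynomial in the
coordinates `y` with `eval y f' = eval (fun I => z (ext y) I) f` (`f' = aeval (fun I => z (ext X) I) f`), homogeneous of degree `m`; then
`eval (act g (ext y)) f' = (det g)^m * u (gᵀ)⁻¹ * eval y f'`. `f' ≠ 0`: `z` is surjective onto alternating arrays: for alternating `x`, with
`y c = ∑ b, ε b c * x b` (alternating), `z y a = ∑ c b, ε a c * ε b c * x b = q ! r ! x a` (for injective `a`: `c` runs over the `r !` arrangements of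
the complement of `a`, `b` over the `q !` arrangements of `a`, `ε a c * ε b c * x b = x a`); `f` is not zero at some `x` (infinite field). -/
def Stmt_DUA : Prop := ∀ (k : Type) [Field k] [CharZero k] (d q r : ℕ), q + r = d → Sem k d q → Sem k d r

/-- **SEM** (80), uses CRD BIN RAT TOP TWO GRL GN6 GN7 GN8 DUA. Case distinction. `q = d`: TOP. `q = 2`: TWO; `q + 2 = d`: TWO and DUA (`d ≥ 1` since
`1 ≤ q ≤ d`). `3 ≤ q ≤ d - 3`: `d ≥ 9` or `(8, 4)`: RAT; `(6, 3), (7, 3), (8, 3)`: GRL; `(7, 4), (8, 5)`: DUA. -/
def Stmt_SEM : Prop := ∀ (k : Type) [Field k] [CharZero k] (d q : ℕ), Good d q → Sem k d q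

/-- **CHI** (200), uses ACT UAR. The factor `u g` is a positive power of `det g`. Fix `f` of `Sem` and `y₀` with `f(y₀) ≠ 0` (infinite field). For
invertible `g`, `u g` is unique, `u (g * h) = u g * u h`, `u 1 = 1`, `u g ≠ 0`. Transvections: `u (transvection i j c) = U(c)` for a polynomial `U` over `k`
(`f` at `act (transvection i j c) (ext y₀)` is polynomial in `c`, divided by `f(y₀)`), `U(c) U(-c) = 1` for all `c`, so `U(c)` is a
constant, `U(0) = 1`. Diagonal matrices: `D i t` with entry `t` at `i` and `1` elsewhere: `act (D i t) (ext y) I = t^[i ∈ image of I] y I`, so for every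
monomial of `f`, of exponent `e i` (the sum of the exponents of the `I` containing `i`), `t ^ e i = u (D i t)`; the `D i t` for different `i` are
conjugate by permutation matrices, so `u (D i t) = t ^ p` for all `i` (`t = 2` gives `e i = e j`), `u (diagonal t) = ∏ (t i)^p`. By
`Matrix.diagonal_transvection_induction_of_det_ne_zero`, `u g = det g ^ p`. `u (2 • 1) = 2 ^ (q m) = 2 ^ (p d)`, so `p ≥ 1` (`q, m ≥ 1`). -/
def Stmt_CHI : Prop := ∀ (k : Type) [Field k] [CharZero k] (d q : ℕ), 1 ≤ q → Sem k d q →
  ∃ (m p : ℕ) (f : MvPolynomial (Fin q ↪o Fin d) k), 1 ≤ m ∧ 1 ≤ p ∧ f ≠ 0 ∧ f.IsHomogeneous m ∧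
    ∀ g : Matrix (Fin d) (Fin d) k, g.det ≠ 0 → ∀ y : (Fin q ↪o Fin d) → k,
      MvPolynomial.eval (fun I : Fin q ↪o Fin d => act g (ext y) I) f = g.det ^ p * MvPolynomial.eval y f

/-- **UNI** (120), uses ACT UAR. From the points over an infinite field to all algebras. Let `Ψ` be the polynomial
`(f (act G (ext X)) - det G ^ p * f (X)) * det G` over `k` in the variables `X I` and the entries of `G` (index type `(Fin q ↪o Fin d) ⊕ (Fin d × Fin d)`). It
vanishes at all points over `k`, so it is zero (`MvPolynomial.funext`, `k` infinite), `det G ≠ 0` (`Matrix.det_mvPolynomialX_ne_zero` or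
evaluate at `1`), so the first factor is zero; specialize to `B` by `ρ`, `y I = x I`, the entries of `g` (UAR (3): `ext y = x`; UAR (4), ACT (4)). -/
def Stmt_UNI : Prop := ∀ (k : Type) [Field k] [CharZero k] (d q p : ℕ) (f : MvPolynomial (Fin q ↪o Fin d) k),
  (∀ g : Matrix (Fin d) (Fin d) k, g.det ≠ 0 → ∀ y : (Fin q ↪o Fin d) → k,
    MvPolynomial.eval (fun I : Fin q ↪o Fin d => act g (ext y) I) f = g.det ^ p * MvPolynomial.eval y f) →
  ∀ (B : Type) [CommRing B] (ρ : k →+* B) (x : (Fin q → Fin d) → B), Alt x → ∀ g : Matrix (Fin d) (Fin d) B,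
    MvPolynomial.eval₂ ρ (fun I : Fin q ↪o Fin d => act g x I) f =
      g.det ^ p * MvPolynomial.eval₂ ρ (fun I : Fin q ↪o Fin d => x I) f

/-! ## Part B: symmetric differentials and valuations -/

/-- **WDG** (100). Properties of `w_1 ∧ … ∧ w_q`. (1) `ι` is linear and `ιMulti` alternating (`AlternatingMap.map_eq_zero_of_eq`,
`AlternatingMap.map_perm`). (2) multilinear expansion of `(∑ j, A (a i) j • e j)_i` (`MultilinearMap.map_sum`, `MultilinearMap.map_smul_univ`);
the matrix is mapped to `SA` by `algebraMap`. (3) linearly dependent vectors have wedge zero (`AlternatingMap.map_linearDependent`). (4) if the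
dimension is `q`, every wedge is a determinant times the wedge of the basis (`AlternatingMap.map_basis` or `Module.Basis.det`). -/
def Stmt_WDG : Prop := ∀ (K W : Type) [Field K] [AddCommGroup W] [Module K W],
  (∀ (d q : ℕ) (ω : Fin d → W), Alt (fun a : Fin q → Fin d => wdg K q (fun i => ω (a i)))) ∧
  (∀ (d d' q : ℕ) (A : Matrix (Fin d) (Fin d') K) (e : Fin d' → W),
    (fun a : Fin q → Fin d => wdg K q (fun i => ∑ j, A (a i) j • e j)) =
      act (A.map (algebraMap K (SA K W q))) (fun c : Fin q → Fin d' => wdg K q (fun i => e (c i)))) ∧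
  (∀ (d : ℕ) (ω : Fin d → W), wdg K d ω ≠ 0 → LinearIndependent K ω) ∧
  (∀ (n : ℕ) (e : Module.Basis (Fin n) K W) (w : Fin n → W), ∃ c : K, wdg K n w = c • wdg K n e)

/-- **TPD** (50), uses WDG. Sections in top degree are decomposable: every product of `p` wedges is a multiple of `(wdg K n e) ^ p` (WDG (4)),
`Submodule.span_induction`. -/
def Stmt_TPD : Prop := ∀ (K W : Type) [Field K] [AddCommGroup W] [Module K W] (n p : ℕ) (e : Module.Basis (Fin n) K W)
  (R : Subring K) (S : Set W) (σ : SA K W n), σ ∈ Lat K R S n p → ∃ φ : K, σ = φ • wdg K n e ^ p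

/-- **LSP** (100). Monotonicity. Multilinear expansion: `wdg` of vectors in the `R`-span of `T` is an `R`-combination of `wdg` of vectors in `T`
(`Submodule.span_induction` in one variable at a time, or `Submodule.map₂`-like; or: the set of the `w` with ... is a submodule), and products of `R`-combinations
are `R`-combinations of products (`Finset.prod_univ_sum`, or induction on `m` with `Submodule.mul_mem_mul`). -/
def Stmt_LSP : Prop := ∀ (K W : Type) [Field K] [AddCommGroup W] [Module K W] (R R' : Subring K) (S T : Set W) (q m : ℕ),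
  R ≤ R' → (∀ s ∈ S, s ∈ Submodule.span R' T) → ∀ z ∈ Lat K R S q m, z ∈ Lat K R' T q m

/-- **POL** (100), uses LSP. A homogeneous polynomial of degree `m` with coefficients in `k`, where `k` maps to `R`, in elements of
`Lat K R S q 1`, is in `Lat K R S q m` (products: `Lat _ m * Lat _ m' ⊆ Lat _ (m + m')`, `Fin.append`); powers: `z ∈ Lat m` gives `z ^ p ∈ Lat (m * p)`. -/
def Stmt_POL : Prop := ∀ (k K W : Type) [Field k] [Field K] [Algebra k K] [AddCommGroup W] [Module K W] (R : Subring K)
  (S : Set W) (q : ℕ), (∀ c : k, algebraMap k K c ∈ R) →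
  (∀ (I : Type) (f : MvPolynomial I k) (m : ℕ) (z : I → SA K W q), f.IsHomogeneous m → (∀ i, z i ∈ Lat K R S q 1) →
    MvPolynomial.eval₂ ((algebraMap K (SA K W q)).comp (algebraMap k K)) z f ∈ Lat K R S q m) ∧
  (∀ (m p : ℕ) (z : SA K W q), z ∈ Lat K R S q m → z ^ p ∈ Lat K R S q (m * p))

/-- **EVC** (100). The coefficient. For `c : Fin d → Fin n` the alternating map `w ↦ det (e.repr (w i) (c j))` gives a linear map `⋀^d W → K`
(`exteriorPower.alternatingMapLinearEquiv`), and a `K`-algebra homomorphism `h : SA K W d → K` (`SymmetricAlgebra.lift`) with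
`h (wdg K d w) = det (e.repr (w i) (c j))`. It maps `wdg` of basis vectors to `0`, `1` or `-1`, so `Lat K R (range e) d p` to `R`. -/
def Stmt_EVC : Prop := ∀ (K W : Type) [Field K] [AddCommGroup W] [Module K W] (n d : ℕ) (e : Module.Basis (Fin n) K W)
  (c : Fin d → Fin n), ∃ h : SA K W d →ₐ[K] K, (∀ w : Fin d → W, h (wdg K d w) = (Matrix.of fun i j => e.repr (w i) (c j)).det) ∧
    ∀ (R : Subring K) (p : ℕ) (z : SA K W d), z ∈ Lat K R (Set.range e) d p → h z ∈ R

/-- **CRM** (120). Normal form over a valuation ring. Let `Δ c = det (A i (c j))` for `c : Fin d → Fin n`. The rows are linearly independent, so some `Δ c`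
is not zero (`Matrix.rank`, or: a right inverse and Cauchy-Binet); choose `c` with `Δ c` of largest valuation (finitely many `c`). `g i j = A i (c j)`,
`U = g⁻¹ * A`. By Cramer's rule `U i j = det (g with column i replaced by column j of A) / det g = Δ (Function.update c i j) / Δ c`, in `O`. -/
def Stmt_CRM : Prop := ∀ (K : Type) [Field K] (O : ValuationSubring K) (d n : ℕ) (A : Matrix (Fin d) (Fin n) K),
  LinearIndependent K A.row → ∃ (c : Fin d → Fin n) (U : Matrix (Fin d) (Fin n) K),
    (Matrix.of fun i j => A i (c j)).det ≠ 0 ∧ A = (Matrix.of fun i j => A i (c j)) * U ∧ ∀ i j, U i j ∈ O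

/-- **VAL** (200), uses ACT WDG LSP POL EVC CRM. `ω i = ∑ j, A i j • e j`, `A i j = e.repr (ω i) j`, rows linearly independent. CRM: `c`, `U`, `g`; `δ = det g`.
EVC for `c`: `h (φ • wdg ω ^ p) = φ * δ ^ p ∈ O`. Put `η i = ∑ j, U i j • e j`; `ω i = ∑ l, g i l • η l`. The arrays `a ↦ wdg (ω ∘ a)`, `wdg (η ∘ a)` are alternating
and the first is `act g` of the second (WDG (1), (2)), so `val K f ω = δ ^ p' * val K f η` (`SI.inv` with `B = SA K W q` and the ring homomorphism
`k → K → SA`; `det` of the mapped matrix is the image of `δ`: `RingHom.map_det`). `wdg (η ∘ I) ∈ Lat K O (range e) q 1` (LSP: `η i` is in the `O`-span of `range e`), so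
`val K f η ∈ Lat m`, `(val K f η) ^ p ∈ Lat (m * p)` (POL). `φ ^ p' • (val K f ω) ^ p = (φ * δ ^ p) ^ p' • (val K f η) ^ p`. -/
def Stmt_VAL : Prop := ∀ (k K W : Type) [Field k] [Field K] [Algebra k K] [AddCommGroup W] [Module K W] (n d q m p p' : ℕ)
  (f : MvPolynomial (Fin q ↪o Fin d) k), SI k d q m p' f → ∀ (e : Module.Basis (Fin n) K W) (O : ValuationSubring K),
  (∀ c : k, algebraMap k K c ∈ O) → ∀ (φ : K) (ω : Fin d → W), LinearIndependent K ω →
  φ • wdg K d ω ^ p ∈ Lat K O.toSubring (Set.range e) d p →
  φ ^ p' • val K f ω ^ p ∈ Lat K O.toSubring (Set.range e) q (m * p)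

/-- **INT** (200). Coefficients. The basis `e` gives a basis of `⋀^q W` (`Module.Basis.exteriorPower`) and an isomorphism of `SA K W q` with the
polynomial ring in the `wdg (e ∘ I)` (`SymmetricAlgebra.equivMvPolynomial`); `wdg` of `e ∘ a` for a tuple `a` is `0` or `± wdg (e ∘ I)`. So for every subring `R` the
lattice `Lat K R (range e) q m` corresponds to the homogeneous polynomials of degree `m` with coefficients in `R`. Hence the coefficients of
`τ` lie in all valuation rings of `K` containing `R`, so they are integral over `R` (`Valuation` or `ValuationSubring` version of: the integral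
closure is the intersection of the valuation rings; search `mem_integralClosure`, `LocalSubring`, `bijective_rangeRestrict_comp_of_valuationRing`, `iInf_valuationSubring_superset`), so in `R`.
(Homogeneous: use the valuation ring `⊤`.) -/
def Stmt_INT : Prop := ∀ (K W : Type) [Field K] [AddCommGroup W] [Module K W] (n q m : ℕ) (e : Module.Basis (Fin n) K W)
  (R : Subring K), (∀ z : K, IsIntegral R z → z ∈ R) → ∀ τ : SA K W q,
  (∀ O : ValuationSubring K, R ≤ O.toSubring → τ ∈ Lat K O.toSubring (Set.range e) q m) → τ ∈ Lat K R (Set.range e) q m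

/-- **ALG** (60), uses LSP VAL INT. -/
def Stmt_ALG : Prop := ∀ (k K W : Type) [Field k] [Field K] [Algebra k K] [AddCommGroup W] [Module K W] (n d q m p p' : ℕ)
  (f : MvPolynomial (Fin q ↪o Fin d) k), SI k d q m p' f → ∀ (e : Module.Basis (Fin n) K W) (R : Subring K),
  (∀ c : k, algebraMap k K c ∈ R) → (∀ z : K, IsIntegral R z → z ∈ R) → ∀ (φ : K) (ω : Fin d → W), LinearIndependent K ω →
  φ • wdg K d ω ^ p ∈ Lat K R (Set.range e) d p → φ ^ p' • val K f ω ^ p ∈ Lat K R (Set.range e) q (m * p)

/-- **NZR** (120), uses UAR. The value at linearly independent vectors is not zero. `k` is infinite, so `eval y f ≠ 0` for some `y` over `k`. There are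
linear forms `ψ j` on `W` with `ψ j (ω i) = δ i j` (`LinearIndependent.repr`, `exists_dual_map..`, or extend to a basis). The alternating map
`w ↦ ∑ I, det (ψ (I j) (w i)) * y I` gives a linear map `⋀^q W → K` and an algebra homomorphism `h : SA K W q → K` with
`h (wdg K q (fun i => ω (a i))) = algebraMap (ext y a)` (definition of `ext`, mapped to `K`), so `h (val K f ω) = algebraMap k K (eval y f) ≠ 0` (UAR (2)). -/
def Stmt_NZR : Prop := ∀ (k K W : Type) [Field k] [CharZero k] [Field K] [Algebra k K] [AddCommGroup W] [Module K W] (d q : ℕ)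
  (f : MvPolynomial (Fin q ↪o Fin d) k), f ≠ 0 → ∀ ω : Fin d → W, LinearIndependent K ω → val K f ω ≠ 0

/-! ## Part C: local rings of smooth schemes -/

/-- **SCH** (150). The local ring at `x` is the localization of a standard smooth algebra. `SmoothOfRelativeDimension` gives affine opens
`U` of `Spec k` and `V ∋ x` of `X` such that `Γ(X, V)` is standard smooth of relative dimension `n` over `Γ(Spec k, U)`. `Spec k` has one point, so
`U = ⊤` and `Γ(Spec k, ⊤) = k` (`Scheme.ΓSpecIso`; compose with the isomorphism: `RingHom.IsStandardSmoothOfRelativeDimension` respects isomorphisms).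
`S = Γ(X, V)`: a domain with fraction field the function field (`functionField_isFractionRing_of_isAffineOpen`), the stalk at `x` is its
localization at the prime ideal `P` of `x` (`IsAffineOpen.isLocalization_stalk`), compatible with the maps to the function field
(`functionField_isScalarTower`). -/
def Stmt_SCH : Prop := ∀ (k : Type) [Field k] (X : Scheme.{0}) (f : X ⟶ Spec (CommRingCat.of k)) [IsIntegral X] (n : ℕ)
  [SmoothOfRelativeDimension n f] (x : X), ∃ (S : Type) (_ : CommRing S) (_ : IsDomain S) (_ : Algebra k S)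
  (_ : Algebra S (FF f)) (_ : IsScalarTower k S (FF f)) (_ : IsFractionRing S (FF f)) (P : Ideal S), P.IsPrime ∧
    Algebra.IsStandardSmoothOfRelativeDimension n k S ∧
    ∀ z : FF f, z ∈ stR f x ↔ ∃ a b : S, b ∉ P ∧ z = algebraMap S (FF f) a / algebraMap S (FF f) b

/-- **LOA** (150). `Algebra.SubmersivePresentation.basisKaehler`: `Ω[S⁄k]` is free with a basis of differentials `dx_i` (`n` of them:
`Algebra.IsStandardSmoothOfRelativeDimension.rank_kaehlerDifferential`), `Ω[K⁄k]` is the localization of `Ω[S⁄k]` (`KaehlerDifferential.isLocalizedModule` or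
`KaehlerDifferential.map` and `IsLocalizedModule`), so the images of `dx_i` are a basis of `Ω[K⁄k]` (`Module.Basis.ofIsLocalizedModule`), and `ds` is an `S`-combination
of them. -/
def Stmt_LOA : Prop := ∀ (k S K : Type) [Field k] [CommRing S] [IsDomain S] [Field K] [Algebra k S] [Algebra S K] [Algebra k K]
  [IsScalarTower k S K] [IsFractionRing S K] (n : ℕ) [Algebra.IsStandardSmoothOfRelativeDimension n k S],
  ∃ b : Module.Basis (Fin n) K (Ω[K⁄k]), (∀ i, ∃ t : S, b i = KaehlerDifferential.D k K (algebraMap S K t)) ∧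
    ∀ s : S, ∃ c : Fin n → S, KaehlerDifferential.D k K (algebraMap S K s) = ∑ i, algebraMap S K (c i) • b i

/-- **NOA** (200). A smooth algebra over a field which is a domain is integrally closed. `S` is etale over a polynomial ring `P = k[t_1, …, t_n]` (standard smooth
algebras; search `IsStandardSmooth`, `Etale`, `exists_etale`), `P` is integrally closed (unique factorization domain), `F = Frac P`. By
`Mathlib/RingTheory/Smooth/IntegralClosure.lean` (`TensorProduct.toIntegralClosure` is bijective for smooth base change) the integral closure of `S` in `S ⊗_P F` is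
`S ⊗_P P = S`. `P → S` is injective (flat, `S` a domain, `S ≠ 0`), `S ⊗_P F` is the localization of `S` at the nonzero elements of `P`, a domain, etale over
the field `F`, so finite over `F` and a field, so it is the fraction field `K`. Alternative: any other proof (e.g. smooth over a field, hence regular, hence
normal, if available). -/
def Stmt_NOA : Prop := ∀ (k S : Type) [Field k] [CommRing S] [IsDomain S] [Algebra k S] (n : ℕ)
  [Algebra.IsStandardSmoothOfRelativeDimension n k S], IsIntegrallyClosed S

/-- **LOC** (80), uses SCH LOA. `t i ∈ stR f x` (`b = 1`), and `D (a / b) = (1 / b) • D a - (a / b ^ 2) • D b` (`Derivation.leibniz_div` or from `b * (a/b) = a`)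
is in the span over `stR f x`. -/
def Stmt_LOC : Prop := ∀ (k : Type) [Field k] (X : Scheme.{0}) (f : X ⟶ Spec (CommRingCat.of k)) [IsIntegral X] (n : ℕ)
  [SmoothOfRelativeDimension n f] (x : X), ∃ b : Module.Basis (Fin n) (FF f) (Ω[FF f⁄k]),
    (∀ i, b i ∈ dff f x) ∧ (∀ w ∈ dff f x, w ∈ Submodule.span (stR f x) (Set.range b)) ∧
    ∀ c : k, algebraMap k (FF f) c ∈ stR f x

/-- **NOR** (100), uses SCH NOA. If `z` is integral over the localization of `S` at `P`, then `b z` is integral over `S` for some `b ∉ P` (a common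
denominator; or: the localization of an integrally closed domain is integrally closed, `IsLocalization.isIntegrallyClosed` or similar). -/
def Stmt_NOR : Prop := ∀ (k : Type) [Field k] (X : Scheme.{0}) (f : X ⟶ Spec (CommRingCat.of k)) [IsIntegral X] (n : ℕ)
  [SmoothOfRelativeDimension n f] (x : X) (z : FF f), IsIntegral (stR f x) z → z ∈ stR f x

end Pool.SF
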