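import Pool.Agent.Work.MP_bf99ce_sf.Interface

/-!
# THEOREM SF (MP_bf99ce_ag): three more blocks (dominant morphisms)
-/

set_option autoImplicit false

open AlgebraicGeometry CategoryTheory

noncomputable section

namespace Pool.SF

/-- **BCM** (120). Extension of the field. The map `KaehlerDifferential.map k k K L : Ω[K⁄k] →ₗ[K] Ω[L⁄k]` induces: the `K`-multilinear alternating map
`w ↦ wdg L q (fun i => map (w i))` from `Ω[K⁄k]` to `SA L (Ω[L⁄k]) q` (a `K`-algebra through `L`; restriction of scalars of `exteriorPower.ιMulti L q`
and of `SymmetricAlgebra.ι L`), so a `K`-linear map on `⋀[K]^q` (`exteriorPower.alternatingMapLinearEquiv`), so a `K`-algebra homomorphism on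
`SymmetricAlgebra K` (`SymmetricAlgebra.lift`). Put the `K`-algebra structure on `SA L _ q` by `((algebraMap L _).comp (algebraMap K L)).toAlgebra`. -/
def Stmt_BCM : Prop := ∀ (k K L : Type) [Field k] [Field K] [Field L] [Algebra k K] [Algebra k L] [Algebra K L]
  [IsScalarTower k K L] (q : ℕ), ∃ Γ : SA K (Ω[K⁄k]) q →+* SA L (Ω[L⁄k]) q,
    (∀ w : Fin q → Ω[K⁄k], Γ (wdg K q w) = wdg L q (fun i => KaehlerDifferential.map k k K L (w i))) ∧
    ∀ (c : K) (z : SA K (Ω[K⁄k]) q), Γ (c • z) = algebraMap K L c • Γ z

/-- **INJ** (80). In characteristic zero `L` is formally smooth over `K` (separably generated; `Mathlib/RingTheory/Smooth/Field.lean`, perfect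
field), so `L ⊗[K] Ω[K⁄k] → Ω[L⁄k]` is injective (`KaehlerDifferential.mapBaseChange`, the first fundamental sequence is split exact,
`Algebra.FormallySmooth`), and base change preserves linear independence (`LinearIndependent.tmul_of_isBaseChange`-like: `1 ⊗ w i` is linearly
independent over `L`). -/
def Stmt_INJ : Prop := ∀ (k K L : Type) [Field k] [CharZero k] [Field K] [Field L] [Algebra k K] [Algebra k L] [Algebra K L]
  [IsScalarTower k K L] (d : ℕ) (w : Fin d → Ω[K⁄k]), LinearIndependent K w →
  LinearIndependent L (fun i => KaehlerDifferential.map k k K L (w i))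

/-- **DOM** (150). A dominant morphism maps the generic point to the generic point (`g.base (genericPoint X) = genericPoint Y`: the closure of the
image is everything), so the stalk map of `g` at the generic point is a map of function fields, compatible with the maps from `k` (`g ≫ fY = fX`), and
with the specialization maps of the stalks (`Scheme.Hom.stalkSpecializes_stalkMap` or similar: the square `stalk Y (g x) → stalk X x → K(X)` and
`stalk Y (g x) → K(Y) → K(X)` commutes), so it maps the local ring of `g x` to the local ring of `x`. -/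
def Stmt_DOM : Prop := ∀ (k : Type) [Field k] (X Y : Scheme.{0}) (fX : X ⟶ Spec (CommRingCat.of k))
  (fY : Y ⟶ Spec (CommRingCat.of k)) [IsIntegral X] [IsIntegral Y] (g : X ⟶ Y) [IsDominant g], g ≫ fY = fX →
  ∃ (_ : Algebra (FF fY) (FF fX)) (_ : IsScalarTower k (FF fY) (FF fX)),
    ∀ (x : X) (r : FF fY), r ∈ stR fY (g x) → algebraMap (FF fY) (FF fX) r ∈ stR fX x

end Pool.SF
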