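import Pool.Agent.Work.MP_bf99ce_sf.Interface

/-!
# THEOREM SF (MP_bf99ce_ag): the assembly from the blocks
-/

set_option autoImplicit false

open AlgebraicGeometry CategoryTheory

noncomputable section

namespace Pool.SF

theorem SK_SI (hSEM : Stmt_SEM) (hCHI : Stmt_CHI) (hUNI : Stmt_UNI) (k : Type) [Field k] [CharZero k]
    (d q : ℕ) (h : Good d q) : ∃ (m p : ℕ) (f : MvPolynomial (Fin q ↪o Fin d) k), 1 ≤ m ∧ 1 ≤ p ∧ SI k d q m p f := by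
  obtain ⟨m, p, f, hm, hp, hne, hhom, hinv⟩ := hCHI k d q h.1 (hSEM k d q h)
  exact ⟨m, p, f, hm, hp, ⟨hne, hhom, fun B _ ρ x hx g => hUNI k d q p f hinv B ρ x hx g⟩⟩

/-- the general theorem -/
theorem SK_gen (hSEM : Stmt_SEM) (hCHI : Stmt_CHI) (hUNI : Stmt_UNI) (hWDG : Stmt_WDG) (hLSP : Stmt_LSP)
    (hALG : Stmt_ALG) (hNZR : Stmt_NZR) (hLOC : Stmt_LOC) (hNOR : Stmt_NOR) (k : Type) [Field k] [CharZero k]
    (X : Scheme.{0}) (f : X ⟶ Spec (CommRingCat.of k)) [IsIntegral X] (n : ℕ) [SmoothOfRelativeDimension n f]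
    (d q p : ℕ) (hg : Good d q) (hp : 1 ≤ p) (φ : FF f) (ω : Fin d → Ω[FF f⁄k])
    (hne : φ • wdg (FF f) d ω ^ p ≠ 0) (hs : IsSection f d p (φ • wdg (FF f) d ω ^ p)) :
    ∃ m, 1 ≤ m ∧ HasSection f q m := by
  obtain ⟨m, p', F, hm, hp', hF⟩ := SK_SI hSEM hCHI hUNI k d q hg
  have hφ : φ ≠ 0 := fun h => hne (by rw [h, zero_smul])
  have hw : wdg (FF f) d ω ≠ 0 := fun h => hne (by
    rw [h, zero_pow (by omega), smul_zero])
  have hli : LinearIndependent (FF f) ω := (hWDG (FF f) (Ω[FF f⁄k])).2.2.1 d ω hw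
  have hv : val (FF f) F ω ≠ 0 := hNZR k (FF f) (Ω[FF f⁄k]) d q F hF.ne ω hli
  refine ⟨m * p, Nat.mul_pos hm hp, φ ^ p' • val (FF f) F ω ^ p, ?_, ?_⟩
  · exact smul_ne_zero (pow_ne_zero _ hφ) (pow_ne_zero _ hv)
  · intro x
    obtain ⟨b, hb1, hb2, hb3⟩ := hLOC k X f n x
    have h1 := hLSP (FF f) (Ω[FF f⁄k]) (stR f x) (stR f x) (dff f x) (Set.range b) d p le_rfl hb2 _ (hs x)
    have h2 := hALG k (FF f) (Ω[FF f⁄k]) n d q m p p' F hF b (stR f x) hb3 (fun z hz => hNOR k X f n x z hz)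
      φ ω hli h1
    refine hLSP (FF f) (Ω[FF f⁄k]) (stR f x) (stR f x) (Set.range b) (dff f x) q (m * p) le_rfl ?_ _ h2
    rintro _ ⟨i, rfl⟩
    exact Submodule.subset_span (hb1 i)

/-- nonnegative Kodaira dimension -/
theorem SK_kap (hSEM : Stmt_SEM) (hCHI : Stmt_CHI) (hUNI : Stmt_UNI) (hWDG : Stmt_WDG) (hTPD : Stmt_TPD)
    (hLSP : Stmt_LSP) (hALG : Stmt_ALG) (hNZR : Stmt_NZR) (hLOC : Stmt_LOC) (hNOR : Stmt_NOR) (k : Type) [Field k]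
    [CharZero k] (X : Scheme.{0}) (f : X ⟶ Spec (CommRingCat.of k)) [IsIntegral X] (n : ℕ)
    [SmoothOfRelativeDimension n f] (q r : ℕ) (hg : Good n q) (hr : 1 ≤ r) (hs : HasSection f n r) :
    ∃ m, 1 ≤ m ∧ HasSection f q m := by
  obtain ⟨σ, hσ, hsec⟩ := hs
  obtain ⟨b, -, -, -⟩ := hLOC k X f n (genericPoint X)
  obtain ⟨φ, hφ⟩ := hTPD (FF f) (Ω[FF f⁄k]) n r b _ _ σ (hsec (genericPoint X))
  rw [hφ] at hσ hsec
  exact SK_gen hSEM hCHI hUNI hWDG hLSP hALG hNZR hLOC hNOR k X f n n q r hg hr φ b hσ hsec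

end Pool.SF
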