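import Pool.Agent.Work.MP_bf99ce_sf.Skel
import Pool.Agent.Work.MP_bf99ce_sf.Interface2

/-!
# THEOREM SF (MP_bf99ce_ag): the assembly for dominant morphisms
-/

set_option autoImplicit false

open AlgebraicGeometry CategoryTheory

noncomputable section

namespace Pool.SF

theorem SK_lat {k K L : Type} [Field k] [Field K] [Field L] [Algebra k K] [Algebra k L] [Algebra K L]
    [IsScalarTower k K L] {q : ℕ} (Γ : SA K (Ω[K⁄k]) q →+* SA L (Ω[L⁄k]) q)
    (h1 : ∀ w : Fin q → Ω[K⁄k], Γ (wdg K q w) = wdg L q (fun i => KaehlerDifferential.map k k K L (w i)))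
    (h2 : ∀ (c : K) (z : SA K (Ω[K⁄k]) q), Γ (c • z) = algebraMap K L c • Γ z)
    (R : Subring K) (R' : Subring L) (hR : ∀ r ∈ R, algebraMap K L r ∈ R') (m : ℕ)
    (z : SA K (Ω[K⁄k]) q) (hz : z ∈ Lat K R {w | ∃ r ∈ R, w = KaehlerDifferential.D k K r} q m) :
    Γ z ∈ Lat L R' {w | ∃ r ∈ R', w = KaehlerDifferential.D k L r} q m := by
  unfold Lat at hz
  refine Submodule.span_induction (p := fun z _ => Γ z ∈ Lat L R' {w | ∃ r ∈ R', w = KaehlerDifferential.D k L r} q m)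
    ?_ ?_ ?_ ?_ hz
  · rintro _ ⟨w, hw, rfl⟩
    rw [map_prod]
    refine Submodule.subset_span ⟨fun j i => KaehlerDifferential.map k k K L (w j i), ?_, ?_⟩
    · intro j i
      obtain ⟨r, hr, hwr⟩ := hw j i
      refine ⟨algebraMap K L r, hR r hr, ?_⟩
      show KaehlerDifferential.map k k K L (w j i) = _
      rw [hwr, KaehlerDifferential.map_D]
    · exact Finset.prod_congr rfl fun j _ => h1 (w j)
  · rw [map_zero]
    exact Submodule.zero_mem _
  · intro x y _ _ hx hy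
    rw [map_add]
    exact Submodule.add_mem _ hx hy
  · intro a x _ hx
    have h3 : Γ (a • x) = (⟨algebraMap K L a, hR a a.2⟩ : R') • Γ x := h2 (a : K) x
    rw [h3]
    exact Submodule.smul_mem _ _ hx

/-- varieties with a dominant morphism to a variety of nonnegative Kodaira dimension -/
theorem SK_dom (hSEM : Stmt_SEM) (hCHI : Stmt_CHI) (hUNI : Stmt_UNI) (hWDG : Stmt_WDG) (hTPD : Stmt_TPD)
    (hLSP : Stmt_LSP) (hALG : Stmt_ALG) (hNZR : Stmt_NZR) (hLOC : Stmt_LOC) (hNOR : Stmt_NOR) (hBCM : Stmt_BCM)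
    (hINJ : Stmt_INJ) (hDOM : Stmt_DOM) (k : Type) [Field k] [CharZero k] (X Y : Scheme.{0})
    (fX : X ⟶ Spec (CommRingCat.of k)) (fY : Y ⟶ Spec (CommRingCat.of k)) [IsIntegral X] [IsIntegral Y] (n d : ℕ)
    [SmoothOfRelativeDimension n fX] [SmoothOfRelativeDimension d fY] (g : X ⟶ Y) [IsDominant g] (hg : g ≫ fY = fX)
    (q r : ℕ) (hgd : Good d q) (hr : 1 ≤ r) (hs : HasSection fY d r) : ∃ m, 1 ≤ m ∧ HasSection fX q m := by
  obtain ⟨σ, hσ, hsec⟩ := hs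
  obtain ⟨b, -, -, -⟩ := hLOC k Y fY d (genericPoint Y)
  obtain ⟨φ, hφ⟩ := hTPD (FF fY) (Ω[FF fY⁄k]) d r b _ _ σ (hsec (genericPoint Y))
  obtain ⟨iA, iT, hst⟩ := hDOM k X Y fX fY g hg
  obtain ⟨Γ, hΓ1, hΓ2⟩ := hBCM k (FF fY) (FF fX) d
  have hli := hINJ k (FF fY) (FF fX) d b b.linearIndependent
  have hv := hNZR k (FF fX) (Ω[FF fX⁄k]) d d (MvPolynomial.X (RelEmbedding.refl _)) (MvPolynomial.X_ne_zero _)
    (fun i => KaehlerDifferential.map k k (FF fY) (FF fX) (b i)) hli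
  have hv2 : wdg (FF fX) d (fun i => KaehlerDifferential.map k k (FF fY) (FF fX) (b i)) ≠ 0 := by
    unfold val at hv
    rw [MvPolynomial.eval₂_X] at hv
    exact hv
  have hφ0 : φ ≠ 0 := fun h => hσ (by rw [hφ, h, zero_smul])
  have hΓσ : Γ σ = algebraMap (FF fY) (FF fX) φ •
      wdg (FF fX) d (fun i => KaehlerDifferential.map k k (FF fY) (FF fX) (b i)) ^ r := by
    rw [hφ, hΓ2, map_pow, hΓ1]
  refine SK_gen hSEM hCHI hUNI hWDG hLSP hALG hNZR hLOC hNOR k X fX n d q r hgd hr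
    (algebraMap (FF fY) (FF fX) φ) (fun i => KaehlerDifferential.map k k (FF fY) (FF fX) (b i)) ?_ ?_
  · exact smul_ne_zero ((map_ne_zero _).2 hφ0) (pow_ne_zero _ hv2)
  · intro x
    rw [← hΓσ]
    exact SK_lat Γ hΓ1 hΓ2 (stR fY (g x)) (stR fX x) (hst x) r σ (hsec (g x))

end Pool.SF
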